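import Mathlib

/-!
# The Markov chain of 2-Selmer ranks

`Mop f s = 2^(-s) f(s+1) + (1 - 2^(-s)) f(s-1)`; its stationary law is `C2 d = C_{2,d}`.
-/

set_option autoImplicit false

namespace Pool.Agent.Lib.MP_8cb858_nt.PR

open Finset

/-- The constant `C_{2,d} = prod_{j ≥ 0} (1 + 2^{-j})^{-1} * prod_{i=1}^d 2/(2^i - 1)`. -/
noncomputable def C2 (d : ℕ) : ℝ :=
  (∏' j : ℕ, (1 + (1 / 2 : ℝ) ^ j))⁻¹ * ∏ i ∈ range d, (2 : ℝ) / (2 ^ (i + 1) - 1)

/-- The operator of the Markov chain: from `s` to `s + 1` with probability `2^{-s}` and to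
`s - 1` otherwise. -/
noncomputable def Mop (f : ℕ → ℝ) (s : ℕ) : ℝ :=
  (1 / 2) ^ s * f (s + 1) + (1 - (1 / 2) ^ s) * f (s - 1)

namespace MKM

/-- the product `prod_{i=1}^d 2/(2^i-1)` -/
noncomputable def cc (d : ℕ) : ℝ := ∏ i ∈ range d, (2 : ℝ) / (2 ^ (i + 1) - 1)

theorem cc_zero : cc 0 = 1 := by simp [cc]

theorem den_pos (d : ℕ) : (0 : ℝ) < 2 ^ (d + 1) - 1 := by
  have : (1 : ℝ) < 2 ^ (d + 1) := one_lt_pow₀ (by norm_num) (by omega)
  linarith

theorem cc_succ (d : ℕ) : cc (d + 1) = cc d * (2 / (2 ^ (d + 1) - 1)) := by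
  rw [cc, prod_range_succ]; rfl

theorem cc_pos (d : ℕ) : 0 < cc d := by
  induction d with
  | zero => rw [cc_zero]; norm_num
  | succ d ih =>
    rw [cc_succ]
    exact mul_pos ih (div_pos (by norm_num) (den_pos d))

/-- `c_{d+1} (1 - 2^{-(d+1)}) = c_d 2^{-d}` -/
theorem cc_bal (d : ℕ) : cc (d + 1) * (1 - (1 / 2) ^ (d + 1)) = cc d * (1 / 2) ^ d := by
  rw [cc_succ]
  have h := (den_pos d).ne'
  have h2 : (2 : ℝ) ^ (d + 1) ≠ 0 := by positivity
  have e1 : (1 : ℝ) - (1 / 2) ^ (d + 1) = (2 ^ (d + 1) - 1) / 2 ^ (d + 1) := by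
    rw [one_div, inv_pow]; field_simp
  have e2 : ((1 : ℝ) / 2) ^ d = 2 / 2 ^ (d + 1) := by
    rw [one_div, inv_pow, pow_succ]; field_simp
  rw [e1, e2]
  field_simp

theorem cc_le (d : ℕ) : cc (d + 1) ≤ cc d * (2 * (1 / 2) ^ d) := by
  have h1 := cc_bal d
  have h2 : ((1 : ℝ) / 2) ^ (d + 1) ≤ 1 / 2 := by
    calc ((1 : ℝ) / 2) ^ (d + 1) ≤ (1 / 2) ^ 1 :=
          pow_le_pow_of_le_one (by norm_num) (by norm_num) (by omega)
      _ = 1 / 2 := by norm_num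
  have h3 := cc_pos (d + 1)
  nlinarith

theorem summ (z : ℝ) : Summable fun d : ℕ => cc d * z ^ d := by
  have ht : Filter.Tendsto (fun d : ℕ => 2 * |z| * (1 / 2 : ℝ) ^ d) Filter.atTop (nhds 0) := by
    have := (tendsto_pow_atTop_nhds_zero_of_lt_one (r := (1 / 2 : ℝ)) (by norm_num)
      (by norm_num)).const_mul (2 * |z|)
    simpa using this
  refine summable_of_ratio_norm_eventually_le (r := 1 / 2) (by norm_num) ?_
  filter_upwards [ht.eventually (gt_mem_nhds (show (0 : ℝ) < 1 / 2 by norm_num))] with d hd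
  rw [norm_mul, norm_mul, norm_pow, norm_pow, Real.norm_eq_abs, Real.norm_eq_abs,
    Real.norm_eq_abs, abs_of_pos (cc_pos _), abs_of_pos (cc_pos _), pow_succ]
  have h1 := cc_le d
  have h2 := cc_pos d
  have h3 : 0 ≤ |z| ^ d := by positivity
  calc cc (d + 1) * (|z| ^ d * |z|) ≤ cc d * (2 * (1 / 2) ^ d) * (|z| ^ d * |z|) := by
        gcongr
    _ = (2 * |z| * (1 / 2) ^ d) * (cc d * |z| ^ d) := by ring
    _ ≤ 1 / 2 * (cc d * |z| ^ d) := by
        gcongr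

/-- the generating function -/
noncomputable def FF (z : ℝ) : ℝ := ∑' d : ℕ, cc d * z ^ d

/-- the functional equation -/
theorem FF_eq (z : ℝ) : FF z = (1 + z) * FF (z / 2) := by
  have h1 := summ z
  have h2 := summ (z / 2)
  have e1 : FF z = 1 + ∑' d : ℕ, cc (d + 1) * z ^ (d + 1) := by
    rw [FF, h1.tsum_eq_zero_add, cc_zero]; simp
  have e2 : FF (z / 2) = 1 + ∑' d : ℕ, cc (d + 1) * (z / 2) ^ (d + 1) := by
    rw [FF, h2.tsum_eq_zero_add, cc_zero]; simp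
  have h1' := (summable_nat_add_iff 1).2 h1
  have h2' := (summable_nat_add_iff 1).2 h2
  have e3 : (∑' d : ℕ, cc (d + 1) * z ^ (d + 1)) - ∑' d : ℕ, cc (d + 1) * (z / 2) ^ (d + 1) =
      z * FF (z / 2) := by
    rw [← h1'.tsum_sub h2', FF, ← tsum_mul_left]
    refine tsum_congr fun d => ?_
    have := cc_bal d
    calc cc (d + 1) * z ^ (d + 1) - cc (d + 1) * (z / 2) ^ (d + 1)
        = (cc (d + 1) * (1 - (1 / 2) ^ (d + 1))) * z ^ (d + 1) := by
          rw [div_eq_mul_one_div z 2, mul_pow]; ring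
      _ = z * (cc d * (z / 2) ^ d) := by
          rw [this, div_eq_mul_one_div z 2, mul_pow]; ring
  rw [e1]
  calc 1 + ∑' d : ℕ, cc (d + 1) * z ^ (d + 1)
      = (1 + ∑' d : ℕ, cc (d + 1) * (z / 2) ^ (d + 1)) + ((∑' d : ℕ, cc (d + 1) * z ^ (d + 1)) -
          ∑' d : ℕ, cc (d + 1) * (z / 2) ^ (d + 1)) := by ring
    _ = (1 + z) * FF (z / 2) := by rw [← e2, e3]; ring

theorem FF_prod (n : ℕ) : FF 1 = (∏ j ∈ range n, (1 + (1 / 2 : ℝ) ^ j)) * FF ((1 / 2) ^ n) := by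
  induction n with
  | zero => simp
  | succ n ih =>
    rw [ih, FF_eq, prod_range_succ, pow_succ]
    rw [show (1 / 2 : ℝ) ^ n / 2 = (1 / 2) ^ n * (1 / 2) by ring]
    ring

theorem FF_near (z : ℝ) (h0 : 0 ≤ z) (h1 : z ≤ 1) : |FF z - 1| ≤ z * FF 1 := by
  have e1 : FF z - 1 = ∑' d : ℕ, cc (d + 1) * z ^ (d + 1) := by
    rw [FF, (summ z).tsum_eq_zero_add, cc_zero]; simp
  have hs := (summable_nat_add_iff 1).2 (summ z)
  have hs1 := (summable_nat_add_iff 1).2 (summ 1)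
  have hnn : ∀ d, 0 ≤ cc (d + 1) * z ^ (d + 1) := fun d => by
    have := cc_pos (d + 1); positivity
  rw [e1, abs_of_nonneg (tsum_nonneg hnn)]
  have e2 : ∑' d : ℕ, cc (d + 1) * (1 : ℝ) ^ (d + 1) ≤ FF 1 := by
    rw [FF, (summ 1).tsum_eq_zero_add, cc_zero]; simp
  calc ∑' d : ℕ, cc (d + 1) * z ^ (d + 1) ≤ ∑' d : ℕ, z * (cc (d + 1) * (1 : ℝ) ^ (d + 1)) := by
        refine hs.tsum_le_tsum (fun d => ?_) (hs1.mul_left z)
        have h3 : z ^ d ≤ 1 := pow_le_one₀ h0 h1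
        have h4 := cc_pos (d + 1)
        rw [one_pow, mul_one, pow_succ]
        nlinarith [mul_nonneg h4.le h0]
    _ = z * ∑' d : ℕ, cc (d + 1) * (1 : ℝ) ^ (d + 1) := tsum_mul_left
    _ ≤ z * FF 1 := mul_le_mul_of_nonneg_left e2 h0

theorem multip : Multipliable fun j : ℕ => (1 + (1 / 2 : ℝ) ^ j) := by
  refine Real.multipliable_one_add_of_summable ?_
  exact summable_geometric_of_lt_one (by norm_num) (by norm_num)

/-- Euler's identity -/
theorem FF_one : FF 1 = ∏' j : ℕ, (1 + (1 / 2 : ℝ) ^ j) := by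
  have h1 : Filter.Tendsto (fun n : ℕ => ∏ j ∈ range n, (1 + (1 / 2 : ℝ) ^ j)) Filter.atTop
      (nhds (∏' j : ℕ, (1 + (1 / 2 : ℝ) ^ j))) := multip.hasProd.tendsto_prod_nat
  have hp : Filter.Tendsto (fun n : ℕ => (1 / 2 : ℝ) ^ n) Filter.atTop (nhds 0) :=
    tendsto_pow_atTop_nhds_zero_of_lt_one (by norm_num) (by norm_num)
  have h2 : Filter.Tendsto (fun n : ℕ => FF ((1 / 2 : ℝ) ^ n)) Filter.atTop (nhds 1) := by
    have h3 : Filter.Tendsto (fun n : ℕ => (1 / 2 : ℝ) ^ n * FF 1) Filter.atTop (nhds 0) := by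
      simpa using hp.mul_const (FF 1)
    rw [← tendsto_sub_nhds_zero_iff]
    refine squeeze_zero_norm (fun n => ?_) h3
    rw [Real.norm_eq_abs]
    exact FF_near _ (by positivity) (pow_le_one₀ (by norm_num) (by norm_num))
  have h4 := h1.mul h2
  rw [mul_one] at h4
  refine tendsto_nhds_unique ?_ h4
  refine Filter.Tendsto.congr (fun n => FF_prod n) tendsto_const_nhds

theorem FF_two : FF 2 = 3 * FF 1 := by
  rw [FF_eq]; norm_num

theorem FF_neg : FF (-1) = 0 := by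
  rw [FF_eq]; norm_num

theorem FF_one_pos : 0 < FF 1 := by
  have h : cc 0 * (1 : ℝ) ^ 0 ≤ FF 1 :=
    (summ 1).le_tsum 0 fun d _ => by have := cc_pos d; positivity
  rw [cc_zero] at h
  norm_num at h
  linarith

theorem C2_eq (d : ℕ) : C2 d = (FF 1)⁻¹ * cc d := by rw [FF_one]; rfl

theorem C2_pos (d : ℕ) : 0 < C2 d := by
  rw [C2_eq]; exact mul_pos (inv_pos.2 FF_one_pos) (cc_pos d)

theorem C2_summ (z : ℝ) : Summable fun d : ℕ => C2 d * z ^ d := by
  simp_rw [C2_eq, mul_assoc]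
  exact (summ z).mul_left _

theorem C2_gen (z : ℝ) : ∑' d : ℕ, C2 d * z ^ d = (FF 1)⁻¹ * FF z := by
  simp_rw [C2_eq, mul_assoc]
  exact tsum_mul_left

theorem C2_bal (d : ℕ) : C2 (d + 1) * (1 - (1 / 2) ^ (d + 1)) = C2 d * (1 / 2) ^ d := by
  rw [C2_eq, C2_eq, mul_assoc, cc_bal, mul_assoc]

end MKM

open MKM

/-- the sum of the `C2 d` is `1` -/
theorem C2_sum : HasSum C2 1 := by
  have h := C2_summ 1
  have h2 := C2_gen 1
  simp only [one_pow, mul_one] at h h2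
  rw [inv_mul_cancel₀ FF_one_pos.ne'] at h2
  rw [← h2]
  exact h.hasSum

namespace MKM

theorem summ_bdd {f : ℕ → ℝ} {K : ℝ} (hf : ∀ k, |f k| ≤ K) : Summable fun d => C2 d * f d := by
  refine Summable.of_norm_bounded (g := fun d => C2 d * K) (C2_sum.summable.mul_right K) ?_
  intro d
  rw [norm_mul, Real.norm_eq_abs, Real.norm_eq_abs, abs_of_pos (C2_pos d)]
  exact mul_le_mul_of_nonneg_left (hf d) (C2_pos d).le

theorem half_le (s : ℕ) : (0 : ℝ) ≤ (1 / 2) ^ s ∧ ((1 : ℝ) / 2) ^ s ≤ 1 :=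
  ⟨by positivity, pow_le_one₀ (by norm_num) (by norm_num)⟩

theorem Mop_bdd {f : ℕ → ℝ} {K : ℝ} (hf : ∀ k, |f k| ≤ K) : ∀ k, |Mop f k| ≤ K := by
  intro k
  obtain ⟨h0, h1⟩ := half_le k
  have a := abs_le.1 (hf (k + 1))
  have b := abs_le.1 (hf (k - 1))
  rw [Mop, abs_le]
  constructor <;> nlinarith

/-- stationarity -/
theorem stat {f : ℕ → ℝ} {K : ℝ} (hf : ∀ k, |f k| ≤ K) :
    ∑' d, C2 d * Mop f d = ∑' d, C2 d * f d := by
  have h1 : Summable fun d => C2 d * ((1 / 2) ^ d * f (d + 1)) := by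
    refine summ_bdd (K := K) fun k => ?_
    obtain ⟨h0, h1⟩ := half_le k
    rw [abs_mul, abs_of_nonneg h0]
    calc (1 / 2 : ℝ) ^ k * |f (k + 1)| ≤ 1 * |f (k + 1)| := by gcongr
      _ ≤ K := by rw [one_mul]; exact hf _
  have h2 : Summable fun d => C2 d * ((1 - (1 / 2) ^ d) * f (d - 1)) := by
    refine summ_bdd (K := K) fun k => ?_
    obtain ⟨h0, h1⟩ := half_le k
    rw [abs_mul, abs_of_nonneg (by linarith)]
    calc (1 - (1 / 2 : ℝ) ^ k) * |f (k - 1)| ≤ 1 * |f (k - 1)| := by gcongr; linarith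
      _ ≤ K := by rw [one_mul]; exact hf _
  have h3 : Summable fun d => C2 d * (1 / 2) ^ d * f d := by
    refine (summ_bdd (f := fun d => (1 / 2) ^ d * f d) (K := K) fun k => ?_).congr fun d => by ring
    obtain ⟨h0, h1⟩ := half_le k
    rw [abs_mul, abs_of_nonneg h0]
    calc (1 / 2 : ℝ) ^ k * |f k| ≤ 1 * |f k| := by gcongr
      _ ≤ K := by rw [one_mul]; exact hf _
  have h4 : Summable fun d => C2 d * (1 - (1 / 2) ^ d) * f d := by
    refine ((summ_bdd hf).sub h3).congr fun d => by ring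
  have e1 : ∑' d, C2 d * Mop f d = (∑' d, C2 d * ((1 / 2) ^ d * f (d + 1))) +
      ∑' d, C2 d * ((1 - (1 / 2) ^ d) * f (d - 1)) := by
    rw [← h1.tsum_add h2]
    exact tsum_congr fun d => by rw [Mop]; ring
  have e2 : ∑' d, C2 d * ((1 / 2) ^ d * f (d + 1)) = ∑' d, C2 d * (1 - (1 / 2) ^ d) * f d := by
    rw [h4.tsum_eq_zero_add]
    simp only [pow_zero, sub_self, mul_zero, zero_mul, zero_add]
    exact tsum_congr fun d => by rw [C2_bal]; ring
  have e3 : ∑' d, C2 d * ((1 - (1 / 2) ^ d) * f (d - 1)) = ∑' d, C2 d * (1 / 2) ^ d * f d := by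
    rw [h2.tsum_eq_zero_add]
    simp only [pow_zero, sub_self, mul_zero, zero_mul, zero_add, Nat.add_sub_cancel]
    exact tsum_congr fun d => by rw [← mul_assoc, C2_bal]
  rw [e1, e2, e3, ← h4.tsum_add h3]
  exact tsum_congr fun d => by ring

/-- contraction -/
theorem contr {f : ℕ → ℝ} {K : ℝ} (hf : ∀ s, |f (s + 2) - f s| ≤ K * 2 ^ s) :
    ∀ s, |Mop f (s + 2) - Mop f s| ≤ K / 2 * 2 ^ s := by
  intro s
  cases s with
  | zero =>
    have h := hf 1
    have e : Mop f (0 + 2) - Mop f 0 = 1 / 4 * (f (1 + 2) - f 1) := by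
      simp only [Mop, pow_zero, sub_self, zero_mul, add_zero, one_mul, zero_add]
      norm_num
      ring
    rw [e, abs_mul, abs_of_pos (show (0 : ℝ) < 1 / 4 by norm_num)]
    norm_num at h ⊢
    linarith
  | succ s =>
    have h1 := hf (s + 2)
    have h2 := hf s
    have e : Mop f (s + 1 + 2) - Mop f (s + 1) =
        (1 / 2) ^ (s + 3) * (f (s + 2 + 2) - f (s + 2)) +
          (1 - (1 / 2) ^ (s + 1)) * (f (s + 2) - f s) := by
      simp only [Mop, Nat.add_sub_cancel, show s + 1 + 2 = s + 3 from rfl,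
        show s + 3 - 1 = s + 2 from rfl, show s + 3 + 1 = s + 2 + 2 from rfl,
        show s + 1 + 1 = s + 2 from rfl]
      ring
    obtain ⟨g0, g1⟩ := half_le (s + 1)
    have g2 : (0 : ℝ) ≤ (1 / 2) ^ (s + 3) := by positivity
    rw [e]
    calc |(1 / 2) ^ (s + 3) * (f (s + 2 + 2) - f (s + 2)) +
          (1 - (1 / 2) ^ (s + 1)) * (f (s + 2) - f s)|
        ≤ (1 / 2) ^ (s + 3) * |f (s + 2 + 2) - f (s + 2)| +
          (1 - (1 / 2) ^ (s + 1)) * |f (s + 2) - f s| := by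
          refine (abs_add_le _ _).trans ?_
          rw [abs_mul, abs_mul, abs_of_nonneg g2, abs_of_nonneg (show
            (0 : ℝ) ≤ 1 - (1 / 2) ^ (s + 1) by linarith)]
      _ ≤ (1 / 2) ^ (s + 3) * (K * 2 ^ (s + 2)) + (1 - (1 / 2) ^ (s + 1)) * (K * 2 ^ s) := by
          gcongr
      _ = K / 2 * 2 ^ (s + 1) := by
          have e3 : (1 / 2 : ℝ) ^ (s + 3) * 2 ^ (s + 2) = 1 / 2 := by
            rw [show s + 3 = (s + 2) + 1 from rfl, pow_succ, mul_right_comm, ← mul_pow]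
            norm_num
          have e4 : (1 / 2 : ℝ) ^ (s + 1) * 2 ^ s = 1 / 2 := by
            rw [pow_succ, mul_right_comm, ← mul_pow]
            norm_num
          calc (1 / 2) ^ (s + 3) * (K * 2 ^ (s + 2)) + (1 - (1 / 2) ^ (s + 1)) * (K * 2 ^ s)
              = K * ((1 / 2) ^ (s + 3) * 2 ^ (s + 2)) + K * 2 ^ s
                - K * ((1 / 2) ^ (s + 1) * 2 ^ s) := by ring
            _ = K / 2 * 2 ^ (s + 1) := by rw [e3, e4, pow_succ]; ring

/-- comparison with the value at the parity -/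
theorem par_bd {f : ℕ → ℝ} {K : ℝ} (hK : 0 ≤ K) (hf : ∀ s, |f (s + 2) - f s| ≤ K * 2 ^ s) :
    ∀ s, |f s - f (s % 2)| ≤ K * 2 ^ s := by
  intro s
  induction s using Nat.strong_induction_on with
  | _ s ih =>
    rcases Nat.lt_or_ge s 2 with h | h
    · rw [Nat.mod_eq_of_lt h, sub_self, abs_zero]
      positivity
    · obtain ⟨t, rfl⟩ := Nat.exists_eq_add_of_le' h
      have h1 := ih t (by omega)
      have h2 := hf t
      rw [Nat.add_mod_right]
      calc |f (t + 2) - f (t % 2)| ≤ |f (t + 2) - f t| + |f t - f (t % 2)| :=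
            abs_sub_le _ _ _
        _ ≤ K * 2 ^ t + K * 2 ^ t := add_le_add h2 h1
        _ ≤ K * 2 ^ (t + 2) := by
            have : (0 : ℝ) ≤ K * 2 ^ t := by positivity
            rw [pow_add]; nlinarith

theorem par_val (f : ℕ → ℝ) (s : ℕ) :
    f (s % 2) = (f 0 + f 1) / 2 + (f 0 - f 1) / 2 * (-1) ^ s := by
  rcases Nat.mod_two_eq_zero_or_one s with h | h
  · rw [h, (Nat.even_iff.2 h).neg_one_pow]; ring
  · rw [h, (Nat.odd_iff.2 h).neg_one_pow]; ring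

/-- a parity balanced finite law with bounded mean of `2^s` -/
theorem law {Ω : Type*} [Fintype Ω] (s : Ω → ℕ) {C0 K : ℝ} (hK : 0 ≤ K)
    (hc : 0 < Fintype.card Ω) (hpar : ∑ ω, (-1 : ℝ) ^ (s ω) = 0)
    (hV : ∑ ω, (2 : ℝ) ^ (s ω) ≤ C0 * Fintype.card Ω)
    {f : ℕ → ℝ} (hf : ∀ s, |f (s + 2) - f s| ≤ K * 2 ^ s) :
    |(∑ ω, f (s ω)) / Fintype.card Ω - (f 0 + f 1) / 2| ≤ K * C0 := by
  have hc' : (0 : ℝ) < Fintype.card Ω := by exact_mod_cast hc
  have e : (∑ ω, f (s ω)) / Fintype.card Ω - (f 0 + f 1) / 2 =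
      (∑ ω, (f (s ω) - f (s ω % 2))) / Fintype.card Ω := by
    rw [sum_sub_distrib]
    simp_rw [par_val f]
    rw [sum_add_distrib, ← mul_sum, hpar, mul_zero, add_zero, sum_const, card_univ,
      nsmul_eq_mul]
    field_simp
  rw [e, abs_div, abs_of_pos hc', div_le_iff₀ hc']
  calc |∑ ω, (f (s ω) - f (s ω % 2))| ≤ ∑ ω, |f (s ω) - f (s ω % 2)| := abs_sum_le_sum_abs _ _
    _ ≤ ∑ ω, K * (2 : ℝ) ^ (s ω) := sum_le_sum fun ω _ => par_bd hK hf _
    _ = K * ∑ ω, (2 : ℝ) ^ (s ω) := by rw [mul_sum]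
    _ ≤ K * (C0 * Fintype.card Ω) := mul_le_mul_of_nonneg_left hV hK
    _ = K * C0 * Fintype.card Ω := by ring

/-- the same for the stationary law -/
theorem law_st {K B : ℝ} {f : ℕ → ℝ} (hK : 0 ≤ K) (hB : ∀ k, |f k| ≤ B)
    (hf : ∀ s, |f (s + 2) - f s| ≤ K * 2 ^ s) :
    |∑' d, C2 d * f d - (f 0 + f 1) / 2| ≤ K * 3 := by
  have h1 : HasSum (fun d => C2 d * f (d % 2)) ((f 0 + f 1) / 2) := by
    have a := C2_sum.mul_right ((f 0 + f 1) / 2)
    have b : HasSum (fun d => C2 d * (-1 : ℝ) ^ d) 0 := by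
      have := (C2_summ (-1)).hasSum
      rwa [C2_gen, FF_neg, mul_zero] at this
    have c := a.add (b.mul_right ((f 0 - f 1) / 2))
    rw [one_mul, zero_mul, add_zero] at c
    have e : (fun d => C2 d * f (d % 2)) =
        fun d => C2 d * ((f 0 + f 1) / 2) + C2 d * (-1 : ℝ) ^ d * ((f 0 - f 1) / 2) := by
      funext d
      rw [par_val f d]
      ring
    rw [e]
    exact c
  have h2 : HasSum (fun d => C2 d * (f d - f (d % 2)))
      (∑' d, C2 d * f d - (f 0 + f 1) / 2) := by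
    have := (summ_bdd hB).hasSum.sub h1
    simp only [← mul_sub] at this
    exact this
  have h3 : HasSum (fun d => C2 d * (2 : ℝ) ^ d * K) (K * 3) := by
    have h := (C2_summ 2).hasSum
    have e : ∑' d : ℕ, C2 d * (2 : ℝ) ^ d = 3 := by
      rw [C2_gen, FF_two, mul_comm (3 : ℝ), ← mul_assoc, inv_mul_cancel₀ FF_one_pos.ne', one_mul]
    rw [e] at h
    have h' := h.mul_right K
    rwa [mul_comm (3 : ℝ) K] at h'
  rw [← Real.norm_eq_abs]
  refine HasSum.norm_le_of_bounded h2 h3 fun d => ?_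
  rw [Real.norm_eq_abs, abs_mul, abs_of_pos (C2_pos d), mul_assoc, mul_comm ((2 : ℝ) ^ d) K]
  exact mul_le_mul_of_nonneg_left (par_bd hK hf d) (C2_pos d).le

theorem iter_bdd {f : ℕ → ℝ} {B : ℝ} (hB : ∀ k, |f k| ≤ B) (n : ℕ) :
    ∀ k, |(Mop^[n] f) k| ≤ B := by
  induction n with
  | zero => simpa using hB
  | succ n ih =>
    rw [Function.iterate_succ_apply']
    exact Mop_bdd ih

theorem iter_contr {f : ℕ → ℝ} {K : ℝ} (hf : ∀ s, |f (s + 2) - f s| ≤ K * 2 ^ s) (n : ℕ) :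
    ∀ s, |(Mop^[n] f) (s + 2) - (Mop^[n] f) s| ≤ K * (1 / 2) ^ n * 2 ^ s := by
  induction n with
  | zero => simpa using hf
  | succ n ih =>
    rw [Function.iterate_succ_apply']
    intro s
    have := contr ih s
    rw [pow_succ]
    convert this using 1
    ring

theorem iter_stat {f : ℕ → ℝ} {B : ℝ} (hB : ∀ k, |f k| ≤ B) (n : ℕ) :
    ∑' d, C2 d * (Mop^[n] f) d = ∑' d, C2 d * f d := by
  induction n with
  | zero => rfl
  | succ n ih =>
    rw [Function.iterate_succ_apply', stat (iter_bdd hB n), ih]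

end MKM

/-- MK: convergence of an approximate Markov chain to the law `C2`.  `Lf j f` is the mean of `f` at
time `j`. -/
theorem mk_main {Ω : Type*} [Fintype Ω] (s : Ω → ℕ) {C0 δ : ℝ} (n : ℕ)
    (Lf : ℕ → (ℕ → ℝ) → ℝ)
    (h0 : ∀ f, Lf 0 f = (∑ ω, f (s ω)) / Fintype.card Ω)
    (hc : 0 < Fintype.card Ω) (hpar : ∑ ω, (-1 : ℝ) ^ (s ω) = 0)
    (hV : ∑ ω, (2 : ℝ) ^ (s ω) ≤ C0 * Fintype.card Ω)
    (hstep : ∀ j < n, ∀ f : ℕ → ℝ, (∀ k, |f k| ≤ 1) → |Lf (j + 1) f - Lf j (Mop f)| ≤ δ)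
    (f : ℕ → ℝ) (hf : ∀ k, |f k| ≤ 1) :
    |Lf n f - ∑' d, C2 d * f d| ≤ n * δ + (1 / 2) ^ n * (2 * (C0 + 3)) := by
  have h1 : ∀ m ≤ n, ∀ g : ℕ → ℝ, (∀ k, |g k| ≤ 1) → |Lf m g - Lf 0 (Mop^[m] g)| ≤ m * δ := by
    intro m
    induction m with
    | zero => intro _ g _; simp
    | succ m ih =>
      intro hm g hg
      have a := hstep m (by omega) g hg
      have b := ih (by omega) (Mop g) (Mop_bdd hg)
      rw [← Function.iterate_succ_apply] at b
      calc |Lf (m + 1) g - Lf 0 (Mop^[m + 1] g)|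
          ≤ |Lf (m + 1) g - Lf m (Mop g)| + |Lf m (Mop g) - Lf 0 (Mop^[m + 1] g)| :=
            abs_sub_le _ _ _
        _ ≤ δ + m * δ := add_le_add a b
        _ = ((m + 1 : ℕ) : ℝ) * δ := by push_cast; ring
  have h2 := h1 n le_rfl f hf
  have hf2 : ∀ s, |f (s + 2) - f s| ≤ 2 * 2 ^ s := by
    intro s
    have a := abs_sub_le (f (s + 2)) 0 (f s)
    rw [sub_zero, zero_sub, abs_neg] at a
    have b := hf (s + 2)
    have c := hf s
    have d : (1 : ℝ) ≤ 2 ^ s := one_le_pow₀ (by norm_num)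
    linarith
  have h3 := iter_contr hf2 n
  have hK : (0 : ℝ) ≤ 2 * (1 / 2) ^ n := by positivity
  have h4 := law s hK hc hpar hV h3
  have h5 := law_st hK (iter_bdd hf n) h3
  rw [iter_stat hf] at h5
  rw [← h0] at h4
  calc |Lf n f - ∑' d, C2 d * f d|
      ≤ |Lf n f - Lf 0 (Mop^[n] f)| + |Lf 0 (Mop^[n] f) - ((Mop^[n] f) 0 + (Mop^[n] f) 1) / 2| +
        |∑' d, C2 d * f d - ((Mop^[n] f) 0 + (Mop^[n] f) 1) / 2| := by
        have a := abs_sub_le (Lf n f) (Lf 0 (Mop^[n] f)) (∑' d, C2 d * f d)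
        have b := abs_sub_le (Lf 0 (Mop^[n] f)) (((Mop^[n] f) 0 + (Mop^[n] f) 1) / 2)
          (∑' d, C2 d * f d)
        rw [abs_sub_comm (((Mop^[n] f) 0 + (Mop^[n] f) 1) / 2)] at b
        linarith
    _ ≤ n * δ + 2 * (1 / 2) ^ n * C0 + 2 * (1 / 2) ^ n * 3 := by linarith
    _ = n * δ + (1 / 2) ^ n * (2 * (C0 + 3)) := by ring

end Pool.Agent.Lib.MP_8cb858_nt.PR
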