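import Pool.Agent.Lib.MP_8cb858_nt.PF.RF.All
import Pool.Agent.Lib.MP_8cb858_nt.PR.MK

/-!
# Block F: the final assembly (helper64)

Module `XXX` is the file `PR/XXX.lean` with `theorem specXXX (hYYY : SpecYYY) .. : SpecXXX` and its own
lemmas in the namespace `Pool.Agent.Lib.MP_8cb858_nt.PR.XXXM`.  Text: /team-store/MP_8cb858_PR_fin.txt.
-/

set_option autoImplicit false

namespace Pool.Agent.Lib.MP_8cb858_nt.PR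

open Pool.Agent.Lib.MP_8cb858_nt.SEL
open scoped Classical

/-- The union of the layers `L 0, ..., L (n-1)`. -/
def Un (L : ℕ → Finset ℕ) (n : ℕ) : Finset ℕ := (Finset.range n).biUnion L

/-- The choices of one prime in each of the layers `L 0, ..., L (j-1)`. -/
noncomputable def Ts (L : ℕ → Finset ℕ) : ℕ → Finset (Finset ℕ)
  | 0 => {∅}
  | j + 1 => (Ts L j ×ˢ L j).image fun x => insert x.2 x.1

/-- A system of `n` layers of primes `1` mod `8`, each in a short interval. -/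
structure Lay (P0 : ℕ) (δ : ℝ) (n : ℕ) (L : ℕ → Finset ℕ) : Prop where
  pri : ∀ j < n, ∀ p ∈ L j, p.Prime ∧ p % 8 = 1 ∧ P0 < p
  ne : ∀ j < n, (L j).Nonempty
  dis : ∀ i j, i < j → j < n → Disjoint (L i) (L j)
  sht : ∀ j < n, ∃ y : ℝ, 0 < y ∧ ∀ p ∈ L j, y ≤ p ∧ (p : ℝ) ≤ (1 + δ) * y
  sum : ∑ p ∈ Un L n, 1 / (p : ℝ) ≤ 1

/-- The dimension of the 2-Selmer group of the twist by `D`. -/
noncomputable def sd (q : ℤ × ℤ) (D : ℤ) : ℕ := Nat.log 2 (Nat.card (Sel 2 (cur q.1 q.2 D)))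

/-- **FMQ** (150 lines), from FM. The first moment in the family `Fam Q`.
Proof. `C := C_F e^4`, `P0` from FM. Apply FM with `Q \ T` for `Q` and `D = σ pr T` (`p ∤ D` for `p ∈ Q \ T`,
`D ≠ 0`, `|D| = pr T`); the set of the claim is a subset of the one of FM (`dsc A B > 0` because
`A > 0`). `x = 1/p ≤ 1/17`: `(1+x)^2/2 = dl p * (1+x)^2/(1-x) ≤ dl p * exp(4x)` (`1 + x ≤ exp x`,
`1 - x ≥ exp(-2x)` for `0 ≤ x ≤ 1/2`), and `dl p ≥ 1/3`, so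
`∏_(Q \ T) (1+1/p)^2/2 ≤ e^4 ∏_(Q \ T) dl p ≤ e^4 3^|T| ∏_Q dl p`. (`Y0 ≥ 0` so that `Y^(5/6) ≥ 0`.) -/
def SpecFMQ : Prop :=
  ∃ (C : ℝ) (P0 : ℕ), 0 < C ∧ ∀ (Q Q' T : Finset ℕ) (σ : ℤ) (Z : Finset (Finset ℕ)),
    (σ = 1 ∨ σ = -1) → (∀ p ∈ Q, p.Prime ∧ p % 8 = 1 ∧ P0 < p) → ∑ p ∈ Q, 1 / (p : ℝ) ≤ 1 →
    T ⊆ Q → Q' ⊆ Q → Disjoint Q' T → (∀ z ∈ Z, z ⊆ Q') → ∃ Y0 : ℝ, ∀ Y : ℝ, Y0 ≤ Y →
      {z : (Σ q : ℤ × ℤ, Sel 2 (cur q.1 q.2 (σ * pr T))) | z.1 ∈ Fam Q ∩ Ht Y ∧ z.2 ≠ 0 ∧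
        Q'.filter (fun p => ¬ Triv (σ * pr T) p z.2) ∈ Z}.Finite ∧
      ({z : (Σ q : ℤ × ℤ, Sel 2 (cur q.1 q.2 (σ * pr T))) | z.1 ∈ Fam Q ∩ Ht Y ∧ z.2 ≠ 0 ∧
        Q'.filter (fun p => ¬ Triv (σ * pr T) p z.2) ∈ Z}.ncard : ℝ) ≤
        C * 3 ^ T.card * (pr T : ℝ) ^ 5 * ((Z.card : ℝ) / 2 ^ Q'.card) * (∏ p ∈ Q, dl p) *
          Y ^ (5 / 6 : ℝ)

/-- **SGL** (150 lines). One step of the chain.
Proof. `N = P.card`, `χ p z := 1` if `tv p z`, else `-1`; `tv p` is a character, so `∑_z χ p z = 2^s` if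
`∀ z, tv p z` and `= 0` otherwise (`z ↦ z + z0` with `¬ tv p z0` changes the sign; `tv p 0` holds, from
`tv p (0+0) ↔ (tv p 0 ↔ tv p 0)`). `M` := the set of the `p ∈ P` with `∀ z, tv p z`. So
`2^s |M| = ∑_z ∑_(p ∈ P) χ p z = N + ∑_(z ≠ 0) (N - 2 #{p ∈ P : ¬ tv p z})`, hence `| |M| - 2^(-s) N | ≤ η N`.
`f (s' p) = f (s+1)` for `p ∈ M` and `= f (s-1)` for `p ∈ P \ M` (then `s ≥ 1`). So the sum minus `N * Mop f s`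
is `(|M| - 2^(-s) N) (f (s+1) - f (s-1))`. -/
def SpecSGL : Prop :=
  ∀ (G : Type) [AddCommGroup G] [Finite G] (P : Finset ℕ) (tv : ℕ → G → Prop) (s : ℕ)
    (s' : ℕ → ℕ) (η : ℝ) (f : ℕ → ℝ), 0 ≤ η → (∀ z : G, z + z = 0) → Nat.card G = 2 ^ s →
    (∀ p ∈ P, ∀ z w, tv p (z + w) ↔ (tv p z ↔ tv p w)) →
    (∀ p ∈ P, (∀ z, tv p z) → 2 ^ s' p = 2 * 2 ^ s) →
    (∀ p ∈ P, ¬ (∀ z, tv p z) → 2 * 2 ^ s' p = 2 ^ s) →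
    (∀ z : G, z ≠ 0 →
      |(P.card : ℝ) - 2 * ((P.filter (fun p => ¬ tv p z)).card : ℝ)| ≤ η * P.card) →
    (∀ k, |f k| ≤ 1) →
    |∑ p ∈ P, f (s' p) - P.card * Mop f s| ≤ 2 * η * P.card

/-- **CHB** (80 lines). Chebyshev for subsets.
Proof. `∑_(z ⊆ P) (|P| - 2 |z|)^2 = |P| 2^|P|`, by induction on `P`: for `P' = insert a P` the subsets are `z` and
`insert a z`, `z ⊆ P`, and `(x+1)^2 + (x-1)^2 = 2 x^2 + 2`. -/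
def SpecCHB : Prop :=
  ∀ (P : Finset ℕ) (η : ℝ), 0 < η → P.Nonempty →
    ((P.powerset.filter (fun z => η * P.card < |(P.card : ℝ) - 2 * z.card|)).card : ℝ) /
      2 ^ P.card ≤ 1 / (η ^ 2 * P.card)

/-- **TSF** (200 lines). Facts on the choices.
Proof. Induction on `j`; the map `(T, p) ↦ insert p T` is injective on `Ts L j ×ˢ L j` because
`T ⊆ Un L j` is disjoint from `L j`. `rat`: `pr T` is the product over the layers of an element of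
`[y_j, (1+δ) y_j]`: show by induction that for all `T, T' ∈ Ts L j`: `pr T ≤ (1+δ)^j pr T'`. -/
structure SpecTSF : Prop where
  sum : ∀ {P0 : ℕ} {δ : ℝ} {n : ℕ} {L : ℕ → Finset ℕ}, Lay P0 δ n L → ∀ j < n,
    ∀ g : Finset ℕ → ℝ, ∑ T ∈ Ts L (j + 1), g T = ∑ T ∈ Ts L j, ∑ p ∈ L j, g (insert p T)
  card : ∀ {P0 : ℕ} {δ : ℝ} {n : ℕ} {L : ℕ → Finset ℕ}, Lay P0 δ n L → ∀ j < n,
    (Ts L (j + 1)).card = (Ts L j).card * (L j).card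
  pos : ∀ {P0 : ℕ} {δ : ℝ} {n : ℕ} {L : ℕ → Finset ℕ}, Lay P0 δ n L → ∀ j ≤ n, (Ts L j).Nonempty
  sub : ∀ {P0 : ℕ} {δ : ℝ} {n : ℕ} {L : ℕ → Finset ℕ}, Lay P0 δ n L → ∀ j ≤ n,
    ∀ T ∈ Ts L j, T ⊆ Un L j ∧ T.card = j ∧ T ⊆ Un L n ∧ ∀ i, j ≤ i → i < n → Disjoint (L i) T
  uni : ∀ {P0 : ℕ} {δ : ℝ} {n : ℕ} {L : ℕ → Finset ℕ}, Lay P0 δ n L → ∀ T ∈ Ts L n,
    (∀ p ∈ T, p.Prime ∧ p % 8 = 1 ∧ P0 < p) ∧ 1 ≤ pr T ∧ pr T % 8 = 1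
  rat : ∀ {P0 : ℕ} {δ : ℝ} {n : ℕ} {L : ℕ → Finset ℕ}, 0 < δ → Lay P0 δ n L →
    ∀ T ∈ Ts L n, ∀ T' ∈ Ts L n, (pr T : ℝ) ≤ (1 + δ) ^ n * (pr T' : ℝ)

/-- **LYR** (150 lines), from PRM. Existence of layers.
Proof. One layer after the other, `L j` for `j < n` (`L j = ∅` for `j ≥ n`; induction on `n`, `Ts L j` depends
only on the `L i`, `i < j`): `N` so large that `A (pr T)^5 ≤ η N` for the finitely many `T ∈ Ts L j`, `N ≥ 1`; then PRM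
with this `N` and `P` larger than `P0`, than all primes of the former layers and than `2^(j+1) N`, so that
`∑_(p ∈ L j) 1/p ≤ N/P ≤ 2^-(j+1)`; `δ` is the given one. -/
def SpecLYR : Prop :=
  ∀ (P0 n : ℕ) (δ A η : ℝ), 0 < δ → 0 < η → 0 ≤ A → ∃ L : ℕ → Finset ℕ, Lay P0 δ n L ∧
    ∀ j < n, ∀ T ∈ Ts L j, A * (pr T : ℝ) ^ 5 ≤ η * (L j).card

/-- The twists of the members of `Fam Q`. -/
def Gse (Q : Finset ℕ) (U : Finset (Finset ℕ)) : Set (ℤ × ℤ) :=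
  {q | ∃ q' ∈ Fam Q, ∃ T ∈ U, ∃ σ : ℤ, (σ = 1 ∨ σ = -1) ∧
    q = (q'.1 * (σ * pr T) ^ 2, q'.2 * (σ * pr T) ^ 3)}

/-- **CN1** (200 lines). The twists form a congruence family.
Proof. `N := 24 ∏_(p ∈ Q) p^4`, `R` := the set of the classes mod `N` of the members of `Gse Q U`.
`Gse ⊆ Cong`: `a = A D^2 > 0`; for a prime `p ∤ N` we have `p ≥ 5`, `p ∤ D`, `4a^3+27b^2 = D^6 dsc(A,B)`, and
`p^2 ∤ dsc(A,B)`. `Cong ⊆ Gse`: `(a,b) = (A' D^2, B' D^3)` mod `N`, `D = σ u`, `u = pr T`, `T ∈ U`. For `p ∈ T`: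
`p^2 ∣ a`, `p^3 ∣ b` (`p^4 ∣ N`), so `u^2 ∣ a`, `u^3 ∣ b` (distinct primes; `Finset.prod_primes_dvd` or
coprimality), `A := a/D^2`, `B := b/D^3`; `A = A'` mod `N/u^2`, `B = B'` mod `N/u^3`, and `24` and all `p ∈ Q` divide `N/u^2`
and `N/u^3`. So the conditions mod 8, 3 and mod `p ∈ Q` of `Fam Q` pass from `(A',B')` to `(A,B)`; for `p ≥ 5`,
`p ∤ N`: `p^2 ∤ D^6 dsc(A,B)` gives `p^2 ∤ dsc(A,B)`; for `p ≥ 5`, `p ∣ N`: `p ∈ Q` and `-dsc` is not a square mod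
`p`, so `p ∤ dsc`. -/
def SpecCN1 : Prop :=
  ∀ (Q : Finset ℕ) (U : Finset (Finset ℕ)), (∀ p ∈ Q, p.Prime ∧ 5 ≤ p) → (∀ T ∈ U, T ⊆ Q) →
    ∃ (N : ℕ) (R : Set (ZMod N × ZMod N)), 0 < N ∧ Cong N R = Gse Q U

/-- **CN2** (250 lines). Counting the twists.
Proof. `(q', T, σ) ↦ (A D^2, B D^3)` is injective on `Fam Q × U × {1,-1}`: `T` is the set of the `p ∈ Q` which
divide `a` and `b` (if `p ∈ Q \ T` divides both then it divides `A` and `B`, so `dsc(A,B)`, but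
`-dsc` is not a square mod `p`); `pr T = 1` and `B = 1` mod 8, so `b = σ` mod 8; then `A`, `B`. `(a,b) ∈ Ht X` iff
`(A,B) ∈ Ht (X/u^6)`, `u = pr T ≥ 1`. `cur A B D = curve a b` and `4a^3+27b^2 = D^6 dsc(A,B) ≠ 0` (`A > 0`). So
`Gse ∩ Ht X` is the disjoint union of the images of the sets on the right. -/
def SpecCN2 : Prop :=
  ∀ (Q : Finset ℕ) (U : Finset (Finset ℕ)), (∀ p ∈ Q, p.Prime ∧ p % 8 = 1) → (∀ T ∈ U, T ⊆ Q) →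
    ∀ X : ℝ,
      (Gse Q U ∩ Ht X).ncard = 2 * ∑ T ∈ U, (Fam Q ∩ Ht (X / (pr T : ℝ) ^ 6)).ncard ∧
      ∀ d : ℕ, (Gse Q U ∩ Ht X ∩ Rk d).ncard = ∑ T ∈ U, ∑ σ ∈ ({1, -1} : Finset ℤ),
        {q ∈ Fam Q ∩ Ht (X / (pr T : ℝ) ^ 6) |
          Nat.card (Sel 2 (cur q.1 q.2 (σ * pr T))) = 2 ^ d}.ncard

/-- **POP** (helper64), from TRA, STP, FMQ, DEN, SGL, CHB, TSF, LYR and `mk_main`. -/
def SpecPOP : Prop :=
  ∀ ε : ℝ, 0 < ε → ∃ n : ℕ, ∀ δ : ℝ, 0 < δ → ∃ L : ℕ → Finset ℕ, Lay 3 δ n L ∧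
    ∃ Y0 : ℝ, ∀ Y : ℝ, Y0 ≤ Y → ∀ d : ℕ,
      |∑ T ∈ Ts L n, ∑ σ ∈ ({1, -1} : Finset ℤ), ({q ∈ Fam (Un L n) ∩ Ht Y |
          Nat.card (Sel 2 (cur q.1 q.2 (σ * pr T))) = 2 ^ d}.ncard : ℝ) -
        law d * (2 * (Ts L n).card * (Fam (Un L n) ∩ Ht Y).ncard)| ≤
      ε * (2 * (Ts L n).card * (Fam (Un L n) ∩ Ht Y).ncard)

/-- **LAW** (60 lines). `law` is the constant `C2` of MK.lean.
Proof. `∏' (1 + 2^-j)⁻¹ = (∏' (1 + 2^-j))⁻¹` (the finite products converge to a nonzero limit). -/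
def SpecLAW : Prop := law = C2

end Pool.Agent.Lib.MP_8cb858_nt.PR
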