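import Pool.Agent.Lib.MP_8cb858_nt.PF.RF.All
import Pool.Agent.Lib.MP_8cb858_nt.SEL.Spec

/-!
# Specs, block F: the first moment with patterns (`SpecFM`)

Every Spec is a closed proposition with a complete proof in its doc string.
Notation: `A, B` symmetric matrices, `w ⬝ᵥ A.mulVec w = A(w,w)`, `det(xA-B) = det A (x^3+ax+b)`.
-/

namespace Pool.Agent.Lib.MP_8cb858_nt.PR

open Polynomial NumberField IsDedekindDomain Pool.Agent.Lib.MP_8cb858_nt.SEL Matrix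
open scoped Classical

/-- Integral matrices. -/
abbrev MZ : Type := Matrix (Fin 3) (Fin 3) ℤ

/-- Matrices over `ℤ/p`. -/
abbrev MF (p : ℕ) : Type := Matrix (Fin 3) (Fin 3) (ZMod p)

/-- The rational matrix of an integral one. -/
noncomputable def toQ (A : MZ) : Matrix (Fin 3) (Fin 3) ℚ := A.map (Int.castRingHom ℚ)

/-- The reduction modulo `p`. -/
def md (p : ℕ) (A : MZ) : MF p := A.map (Int.castRingHom (ZMod p))

/-- Integral reduced pairs of the first type. -/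
def I1 (C ρ : ℝ) : Set (MZ × MZ) :=
  {P | P.1.IsSymm ∧ P.2.IsSymm ∧ P.1.det ≠ 0 ∧ (P.1.adjugate * P.2).trace = 0 ∧
    ∀ i j, |(P.1 i j : ℝ)| ≤ C ∧ |(P.2 i j : ℝ)| ≤ C * ρ}

/-- Integral reduced pairs of the second type, at level `k`. -/
def I2 (C ρ : ℝ) (k : ℕ) : Set (MZ × MZ) :=
  {P | P.1.IsSymm ∧ P.2.IsSymm ∧ P.1.det ≠ 0 ∧ (P.1.adjugate * P.2).trace = 0 ∧
    P.1 0 0 = 0 ∧ P.1 0 1 = 0 ∧ P.1 1 2 = 0 ∧ P.1 2 2 = 0 ∧ P.2 0 0 ≠ 0 ∧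
    ∀ i j : Fin 3, |(P.1 i j : ℝ)| ≤ C ∧
      |(P.2 i j : ℝ)| ≤ C * ρ * (2 : ℝ) ^ ((k : ℤ) * ((i : ℕ) + (j : ℕ) - 2 : ℤ))}

/-- `B` is symmetric and `A⁻¹B` has the characteristic polynomial `x^3 + a x + b`, of nonsquare
discriminant. -/
def Gd {p : ℕ} (a b : ZMod p) (A B : MF p) : Prop :=
  B.IsSymm ∧ (A.adjugate * B).trace = 0 ∧ (A * B.adjugate).trace = a * A.det ∧
    -B.det = b * A.det ∧ ¬ IsSquare (-(4 * a ^ 3 + 27 * b ^ 2))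

/-- `(3 t^2 + a) A(w,w)` is a square for an eigenvector `w`, `B w = t A w`. -/
def Sm {p : ℕ} (a : ZMod p) (A B : MF p) : Prop :=
  ∃ (t : ZMod p) (w : Fin 3 → ZMod p), w ≠ 0 ∧ B.mulVec w = t • A.mulVec w ∧
    IsSquare ((3 * t ^ 2 + a) * (w ⬝ᵥ A.mulVec w))

/-- The matrices `B` mod `p` with trivial symbol. -/
def BT (p : ℕ) (A : MF p) : Set (MF p) := {B | ∃ a b, Gd a b A B ∧ Sm a A B}

/-- The matrices `B` mod `p` with nontrivial symbol. -/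
def BN (p : ℕ) (A : MF p) : Set (MF p) := {B | ∃ a b, Gd a b A B ∧ ¬ Sm a A B}

/-! ## F1. Counting over `ℤ/p` -/

/-- **FRT.** Cubics with nonsquare discriminant.
Proof. If `t` is a root, `b = -t^3-at` and `4a^3+27b^2 = (3t^2+a)^2 (3t^2+4a)` (ring). So
`3t^2+a ≠ 0` and `-(3t^2+4a)` is not a square. Another root `s ≠ t` satisfies `s^2+st+t^2+a = 0`, so
`(2s+t)^2 = -(3t^2+4a)`: impossible. Existence: suppose there is no root. Then the cubic is irreducible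
(`Polynomial.irreducible_of_degree_le_three_of_not_isRoot` or similar), `K = AdjoinRoot` is a field with
`p^3` elements, `r` its root; `r, r^p, r^(p^2)` are roots (coefficients in `ℤ/p`, Frobenius), distinct:
`r^p = r` would give `r` in `ℤ/p` (the `p` solutions of `x^p = x`), Frobenius is injective, and
`r^(p^2) = r` with `r^(p^3) = r` (`FiniteField.pow_card`) gives `r^p = r`. So they are all the roots and
`e_1 = 0, e_2 = a, e_3 = -b`. `δ = (r-r^p)(r^p-r^(p^2))(r^(p^2)-r)` satisfies `δ^p = δ`, so `δ` is in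
`ℤ/p`, and `δ^2 = -(4a^3+27b^2)`, a contradiction. -/
def SpecFRT : Prop :=
  ∀ (p : ℕ) [Fact p.Prime] (a b : ZMod p), 5 ≤ p → ¬ IsSquare (-(4 * a ^ 3 + 27 * b ^ 2)) →
    (∃ t : ZMod p, t ^ 3 + a * t + b = 0) ∧
    (∀ t s : ZMod p, t ^ 3 + a * t + b = 0 → s ^ 3 + a * s + b = 0 → t = s) ∧
    ∀ t : ZMod p, t ^ 3 + a * t + b = 0 → 3 * t ^ 2 + a ≠ 0

/-- **FCON.** Points of a conic.
Proof. If there is no point: trivial. Let `(x0,y0)` be a point; for a point `(x,y)` put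
`u = (x x0 + k y y0)/δ`, `v = (x y0 - y x0)/δ`. Then `u^2 + k v^2 = 1` and `x = u x0 + k v y0`,
`y = u y0 - v x0`, so `(x,y) ↦ (u,v)` is injective. `(u,v) ↦ none` if `u = -1`, `some (v/(1+u))`
otherwise, is an injection of `{u^2+kv^2=1}` into `Option (ZMod p)`: if `u = -1` then `v = 0`; otherwise
`s = v/(1+u)` satisfies `k s^2 (1+u) = 1-u`, so `u (1+ks^2) = 1-ks^2`, `1+ks^2 ≠ 0` (else `2 = 0`), `u` and
`v = s(1+u)` are determined. -/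
def SpecFCON : Prop :=
  ∀ (p : ℕ) [Fact p.Prime] (k δ : ZMod p), p ≠ 2 → k ≠ 0 → δ ≠ 0 →
    {z : ZMod p × ZMod p | z.1 ^ 2 + k * z.2 ^ 2 = δ}.ncard ≤ p + 1

/-- **FTRI.** Counting triples.
Proof. Fix a nonsquare `δ` (there are `(p-1)/2`). By FCON at most `p+1` pairs `(x,y)` have
`x^2+ky^2 = δ`. The number `m` of `c` with `IsSquare ((c^2-δ) n) ↔ e` satisfies `2m ≤ p+1`: let `ν = 1`
if `e` holds and `ν` a fixed nonsquare otherwise; `(c^2-δ)n ≠ 0` (as `δ` is not a square), so for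
such `c` `(c^2-δ) n = ν z^2` with `z ≠ 0` (the quotient of two nonsquares is a square), two values `±z` of
`z` for each `c`; and the pairs `(c,z)` lie on `c^2 + (-ν/n) z^2 = δ`: at most `p+1` by FCON. Total: `4 #
≤ (4 (p-1)/2)(p+1)(p+1)/2 = (p-1)(p+1)^2`. -/
def SpecFTRI : Prop :=
  ∀ (p : ℕ) [Fact p.Prime] (k n : ZMod p) (e : Prop), p ≠ 2 → k ≠ 0 → n ≠ 0 →
    4 * {z : ZMod p × ZMod p × ZMod p | ¬ IsSquare (z.1 ^ 2 + k * z.2.1 ^ 2) ∧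
      (IsSquare ((z.2.2 ^ 2 - (z.1 ^ 2 + k * z.2.1 ^ 2)) * n) ↔ e)}.ncard ≤ (p - 1) * (p + 1) ^ 2

/-- **FDIA.** Counting `B` with eigenvector `e_3`, `A` diagonal.
Proof. Let `B` be in the set, `e = e_3 = ![0,0,1]`. `B e = t A e` gives `B02 = B12 = 0`, `B22 = t n`. Put
`s = (B00/l+B11/m)/2`, `x = (B00/l-B11/m)/2`, `y = B01`, `k = 1/(lm)`, `N = x^2+ky^2`. The trace
condition `mn B00 + ln B11 + lm B22 = 0` divided by `lmn` gives `t = -2s`; the next one gives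
`a = (B11/m) t + (B00/l) t + (B00 B11 - y^2)/(lm) = -4s^2 + s^2 - x^2 - k y^2 = -3s^2 - N`; the third
`b = -(s^2-N) t = 2s(s^2-N)`. Then `-(4a^3+27b^2) = 4N(9s^2-N)^2` (ring), so `N` is not a square.
`3t^2+a = 9s^2-N`. So `B ↦ (x, y, 3s)` is an injective map (`B00 = l(s+x)`, `B11 = m(s-x)`, `p ≥ 5`) to
the set of FTRI. -/
def SpecFDIA : Prop :=
  ∀ (p : ℕ) [Fact p.Prime] (l m n : ZMod p) (e : Prop), 5 ≤ p → l ≠ 0 → m ≠ 0 → n ≠ 0 →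
    4 * {B : MF p | ∃ a b t : ZMod p, Gd a b (Matrix.diagonal ![l, m, n]) B ∧
      B.mulVec ![0, 0, 1] = t • (Matrix.diagonal ![l, m, n]).mulVec ![0, 0, 1] ∧
      (IsSquare ((3 * t ^ 2 + a) * n) ↔ e)}.ncard ≤ (p - 1) * (p + 1) ^ 2

/-- **FORB.** Orthogonal basis containing `w`.
Proof. `v = A w`, `v ⬝ w = μ ≠ 0`. There is `u1` with `v ⬝ u1 = 0` and `A(u1,u1) ≠ 0`: otherwise `A`
vanishes on the plane `v^⊥` (`2 ≠ 0`), and with two independent vectors `r, r'` of the plane `A r` and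
`A r'` are both orthogonal to `r, r'` (and to `w`, because `w ⬝ A r = v ⬝ r = 0`), so `A r = 0`,
contradiction. Let `u2 = v × (A u1)` (cross product); it is orthogonal (`⬝`) to `v` and `A u1`, and it is
not 0: `A u1 = λ v = λ A w` would give `u1 = λ w`, `0 = v ⬝ u1 = λ μ`, `λ = 0`, `u1 = 0`. Let `g` be the
matrix with columns `u1, u2, w`: `gᵀ A g = diagonal (A(u1,u1), A(u2,u2), μ)`. `det g ≠ 0`: if
`x u1 + y u2 + z w = 0`, apply `v ⬝` : `z = 0`; apply `A u1 ⬝`: `x = 0`; so `y = 0`. Hence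
`det(gᵀAg) ≠ 0` and `A(u2,u2) ≠ 0`. -/
def SpecFORB : Prop :=
  ∀ (p : ℕ) [Fact p.Prime] (A : MF p) (w : Fin 3 → ZMod p), p ≠ 2 → A.IsSymm → A.det ≠ 0 →
    w ⬝ᵥ A.mulVec w ≠ 0 →
    ∃ (g : MF p) (l m : ZMod p), g.det ≠ 0 ∧ g.mulVec ![0, 0, 1] = w ∧ l ≠ 0 ∧ m ≠ 0 ∧
      gᵀ * A * g = Matrix.diagonal ![l, m, w ⬝ᵥ A.mulVec w]

/-- **FID.** Identities for `3 × 3` matrices over a commutative ring. Proof: `Matrix.det_fin_three`,
`Matrix.adjugate_fin_three`, `ring`. (4) Let `C w = 0`, `C` symmetric. By Cramer's rule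
`adj(C) i j * w k = adj(C) k j * w i` (for instance `i = 0, k = 1, j = 0`: `(C11 C22 - C12 C21) w1 -
(C12 C20 - C10 C22) w0` is `C22` times the second entry of `C w` minus `C12` times the third; the other
cases are the same up to a permutation; `adj(C)` is symmetric), so
`adj(C) k l * (w i * w j) = adj(C) i j * (w k * w l)`; multiply by `A l k` and sum. -/
structure SpecFID : Prop where
  cp : ∀ {R : Type} [CommRing R] (A B : Matrix (Fin 3) (Fin 3) R) (x : R),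
    (x • A - B).det = x ^ 3 * A.det - x ^ 2 * (A.adjugate * B).trace +
      x * (A * B.adjugate).trace - B.det
  dr : ∀ {R : Type} [CommRing R] (A B : Matrix (Fin 3) (Fin 3) R) (x : R),
    ((x • A - B).adjugate * A).trace = 3 * x ^ 2 * A.det - 2 * x * (A.adjugate * B).trace +
      (A * B.adjugate).trace
  cg : ∀ {R : Type} [CommRing R] (A B g : Matrix (Fin 3) (Fin 3) R),
    ((gᵀ * A * g).adjugate * (gᵀ * B * g)).trace = g.det ^ 2 * (A.adjugate * B).trace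
  kr : ∀ {R : Type} [CommRing R] (A C : Matrix (Fin 3) (Fin 3) R) (w : Fin 3 → R) (i j : Fin 3),
    C.IsSymm → C.mulVec w = 0 →
    (C.adjugate * A).trace * (w i * w j) = C.adjugate i j * (w ⬝ᵥ A.mulVec w)

/-- **FEI.** Eigenvectors modulo `p`.
Proof. FID `cp` with `Gd`: `det(xA-B) = det A (x^3+ax+b)`; FID `dr`: `tr(adj(tA-B)A) = (3t^2+a) det A =: X`.
FRT gives a root `t`; `det(tA-B) = 0` gives `w ≠ 0` with `(tA-B) w = 0`
(`Matrix.exists_mulVec_eq_zero_iff`). Conversely an eigenvector gives a root `t`, and `3t^2+a ≠ 0` (FRT).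
FID `kr` for `C = tA-B`: `X w_i^2 = adj(C)_ii A(w,w)`, with `w_i ≠ 0` for some `i`: so `A(w,w) ≠ 0`.
`Sm`: `←` clear. `→`: let `(t', w')` be the pair in `Sm`; `t' = t` (FRT). With `i` as above,
`adj(C)_ii ≠ 0`, so `X w'_i^2 = adj(C)_ii A(w',w')` gives `w'_i ≠ 0` and
`A(w',w') = A(w,w) (w'_i/w_i)^2`. -/
def SpecFEI : Prop :=
  ∀ (p : ℕ) [Fact p.Prime] (a b : ZMod p) (A B : MF p), 5 ≤ p → A.IsSymm → A.det ≠ 0 →
    Gd a b A B →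
    (∃ (t : ZMod p) (w : Fin 3 → ZMod p), w ≠ 0 ∧ B.mulVec w = t • A.mulVec w) ∧
    ∀ (t : ZMod p) (w : Fin 3 → ZMod p), w ≠ 0 → B.mulVec w = t • A.mulVec w →
      t ^ 3 + a * t + b = 0 ∧ 3 * t ^ 2 + a ≠ 0 ∧ w ⬝ᵥ A.mulVec w ≠ 0 ∧
      (Sm a A B ↔ IsSquare ((3 * t ^ 2 + a) * (w ⬝ᵥ A.mulVec w)))

/-- **FWW.** Counting `B` with a given eigenvector `w`.
Proof. If `A(w,w) = 0` the set is empty by FEI. Otherwise let `g, l, m` be as in FORB, `μ = A(w,w)`.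
The map `B ↦ gᵀ B g` is injective (`det g ≠ 0`) and maps the set into the set of FDIA for `l, m, μ`:
`gᵀBg` is symmetric; the trace conditions are multiplied by `(det g)^2 ≠ 0` (FID `cg` for `(A,B)`, and for
`(B,A)` together with `trace (X * Y) = trace (Y * X)`), determinants too; `(gᵀBg) e_3 = gᵀ B w =
t gᵀ A w = t (gᵀAg) e_3`. -/
def SpecFWW : Prop :=
  ∀ (p : ℕ) [Fact p.Prime] (A : MF p) (w : Fin 3 → ZMod p) (e : Prop), 5 ≤ p → A.IsSymm →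
    A.det ≠ 0 → w ≠ 0 →
    4 * {B : MF p | ∃ a b t : ZMod p, Gd a b A B ∧ B.mulVec w = t • A.mulVec w ∧
      (IsSquare ((3 * t ^ 2 + a) * (w ⬝ᵥ A.mulVec w)) ↔ e)}.ncard ≤ (p - 1) * (p + 1) ^ 2

/-- **FCB.** The local count.
Proof. Let `T = BT p A` (then `e = True`) or `T = BN p A` (`e = False`), and for `w ≠ 0` let `T_w` be the
set of FWW. By FEI every `B` in `T` has an eigenvector `w`, `B` is in `T_w`, and then
`B` is in `T_{rw}` for all `r ≠ 0` (the factor `r^2`); the `p-1` vectors `r w` are different. Counting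
pairs `(B,w)`: `(p-1) #T ≤ sum over w ≠ 0 of #T_w`, so
`4 (p-1) #T ≤ (p^3-1)(p-1)(p+1)^2` and `4 #T ≤ (p^3-1)(p+1)^2`. -/
def SpecFCB : Prop :=
  ∀ (p : ℕ) [Fact p.Prime] (A : MF p), 5 ≤ p → A.IsSymm → A.det ≠ 0 →
    4 * (BT p A).ncard ≤ p ^ 3 * (p + 1) ^ 2 ∧ 4 * (BN p A).ncard ≤ p ^ 3 * (p + 1) ^ 2

/-! ## F2. Attached pairs and localisations -/

/-- **FATT.** The invariants of an attached integral pair.
Proof. `DET` (row 169) for `K = Fbar`, `th`, `Z`: `det(x gA - gB) = det gA (x^3+ax+b)` for all `x` and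
`tr(adj(gA) gB) = 0`; `gA`, `gB` are the images of the integral matrices. Symmetry: DET and injectivity.
`x = 0`: `-det B = b det A`; `x = 1` with FID `cp` (and trace 0):
`det A + tr(A adj B) - det B = det A (1+a+b)`. All these identities descend to `ℤ` by injectivity of
`ℤ → ℚ → Qbar` (`RingHom.map_det`, `RingHom.map_adjugate`, `map_trace`). -/
def SpecFATT : Prop :=
  ∀ (a b : ℤ) (a' b' : ℚ) (c : Gal ℚ → Pt (curve a' b') (AlgebraicClosure ℚ)) (P : MZ × MZ),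
    a' = a → b' = b → Att a' b' c (toQ P.1) (toQ P.2) →
    P.1.IsSymm ∧ P.2.IsSymm ∧ P.1.det ≠ 0 ∧ (P.1.adjugate * P.2).trace = 0 ∧
    (P.1 * P.2.adjugate).trace = a * P.1.det ∧ -P.2.det = b * P.1.det

/-- **FATI.** An attached pair depends only on the class of the cocycle.
Proof. Let `c - c' = (s ↦ sT - T)`, `2T = 0`; as everything is 2-torsion, `c' s = c s + sT + T`. By WEI
`sg(c' s)(k) = sg(c s)(k) sg(sT)(k) sg(T)(k)`. Let `m_i = sg T i = ±1` and `Z' i j = m_i Z i j`: for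
`s (th i) = th k`, `s(Z' i j) = m_i sg(c s)(k) Z k j`, and `sg(sT)(k) = sg(T)(i) = m_i` (PSH), so this is
`sg(c' s)(k) m_k Z k j = sg(c' s)(k) Z' k j` (`m_k^2 = 1`). The Gram matrices are the same, `det Z' =
± det Z`. -/
def SpecFATI : Prop :=
  ∀ (a b : ℚ) (c c' : Gal ℚ → Pt (curve a b) (AlgebraicClosure ℚ)) (G H : Matrix (Fin 3) (Fin 3) ℚ),
    (∀ s, (2 : ℕ) • c s = 0) → (∀ s, (2 : ℕ) • c' s = 0) →
    c - c' ∈ Coboundaries 2 (curve a b) → Att a b c G H → Att a b c' G H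

/-- **FCLS.** Reduced integral pairs for Selmer classes (row 169, `CLS` for `F = ℚ`, in terms of `ℤ`).
Proof. `Rat.ringOfIntegersEquiv : 𝓞 ℚ ≃ ℤ`; `ℚ` has one infinite place `v` (`Rat.infinitePlace`),
real, with `v x = |x|`; for `x` in `𝓞 ℚ` corresponding to `n`, `(x : ℚ) = n`. Take `ρ` constant. Transport
`R1`, `R2`, `Φ` by the isomorphism (determinants, adjugates, traces, symmetry are preserved by ring
isomorphisms; `inc P = toQ (image of P)`). -/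
def SpecFCLS : Prop :=
  ∃ C : ℝ, 1 ≤ C ∧ ∀ (ρ : ℝ) (a b : ℤ) (a' b' : ℚ), 1 ≤ ρ → a' = a → b' = b →
    |(a : ℝ)| ≤ ρ ^ 2 → |(b : ℝ)| ≤ ρ ^ 3 → 4 * a ^ 3 + 27 * b ^ 2 ≠ 0 →
    ∀ c ∈ Cocycles 2 (curve a' b'), c ∉ Coboundaries 2 (curve a' b') →
    (∃ P ∈ I1 C ρ, Att a' b' c (toQ P.1) (toQ P.2)) ∨
    (∃ (k : ℕ) (Φ : ℤ → MZ × MZ), Set.InjOn Φ {q : ℤ | |(q : ℝ)| ≤ 2 ^ k} ∧
      ∀ q : ℤ, |(q : ℝ)| ≤ 2 ^ k → Φ q ∈ I2 C ρ k ∧ Att a' b' c (toQ (Φ q).1) (toQ (Φ q).2))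

/-- **FL1.** The value of `α` at a `p`-adic root, in terms of an attached pair.
Proof. Let `K = ℚ_p`, `i : Qbar → Kbar` an embedding (`IsAlgClosed.lift`). From `Rel`: roots
`t_0,t_1,t_2` of `x^3+Ax+B` and `s_j^2 = α(t_j)`; from `Att`: `th`, `Z`. `th` and `D t_j` are enumerations
of the same three roots; let `θ = D t`. `i(th 0), i(th 1), i(th 2)` are the roots of `x^3 + AD^2 x + BD^3`
in `Kbar` and `θ` is one of them: `i(th j) = θ` for exactly one `j`; `th j = D t_l` for one `l` and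
`i(t_l) = t` (`D ≠ 0`). (a) `det(θ G - H) = det G (θ^3 + AD^2 θ + BD^3) = 0` over `K` (DET, injectivity), so
there is `w ≠ 0` in `K^3` with `(θG - H) w = 0`. (b) Put `z_m = sum_n i(Z m n) w_n`. For all `m`:
`sum_m (th m - θ) z_m z'_m/fp_m = 0` for all `z' = i(Z) w'`, hence `(i(th m) - θ) z_m = 0` and `z_m = 0` for
`m ≠ j` (the matrix `i(Z)` is invertible); and `w ⬝ G w = z_j^2/fp_j`, `fp_j = 3θ^2+AD^2` (IsRoots), `z_j ≠ 0`
(else `w = 0`). (c) `ζ_n = Z j n/s_l`: for `τ` in `Gal(Kbar/K)` take `σ` in `Gal ℚ` with `i o σ = τ o i` (EMB for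
`i` and `τ o i`). `σ(th j) = th j` because `i(th j)` is in `K`, and `σ(t_l) = t_l`. So
`σ(Z j n) = sg th (c σ) j * Z j n` and (Rel) `σ(s_l) = sg (D t) (c σ) l * s_l`; the two signs are equal
(`sg th S j` depends only on whether the x-coordinate of `S` is `th j = D t_l`), nonzero. So `σ(ζ_n) = ζ_n`,
`τ(i ζ_n) = i ζ_n`, and by FXD `i(ζ_n)` is in `K`. (d) `z_j = i(s_l) ζ`, `ζ = sum_n i(ζ_n) w_n` in `K`, `ζ ≠ 0`, and
`i(s_l)^2 = i(ev (t_l) α) = ev (t) α`. So `(3θ^2+AD^2) w ⬝ G w = z_j^2 = α(t) ζ^2`. -/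
def SpecFL1 : Prop :=
  ∀ (p : ℕ) [Fact p.Prime] (A B D : ℤ) (α : Lk ℚ A B)
    (c : Gal ℚ → Pt (cur A B D) (AlgebraicClosure ℚ)) (G H : Matrix (Fin 3) (Fin 3) ℚ) (t : ℚ_[p]),
    dsc A B ≠ 0 → D ≠ 0 → (∀ s, (2 : ℕ) • c s = 0) → Rel D α c →
    Att ((A : ℚ) * (D : ℚ) ^ 2) ((B : ℚ) * (D : ℚ) ^ 3) c G H → t ^ 3 + A * t + B = 0 →
    ∃ (w : Fin 3 → ℚ_[p]) (ζ : ℚ_[p]), w ≠ 0 ∧ ζ ≠ 0 ∧
      (H.map (Rat.castHom ℚ_[p])).mulVec w = (D * t) • (G.map (Rat.castHom ℚ_[p])).mulVec w ∧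
      (3 * (D * t) ^ 2 + A * D ^ 2) * (w ⬝ᵥ (G.map (Rat.castHom ℚ_[p])).mulVec w) =
        ev (Rat.castHom ℚ_[p]) t α * ζ ^ 2

/-- **FSQ.** Hensel's lemma for square roots and for simple roots, in `ℤ_p`, `p ≥ 5`. The last item:
scaling a vector. Proof. `hensels_lemma` for `X^2 - u` and `X^3+AX+B` (`‖2 x‖ = 1`, resp. `‖3x^2+A‖ = 1`). A
square root in `ℚ_p` of a unit is in `ℤ_p`. Last item: multiply `w` by the inverse of a coordinate of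
maximal norm. -/
def SpecFSQ : Prop :=
  ∀ (p : ℕ) [Fact p.Prime], 5 ≤ p →
    (∀ u : ℤ_[p], PadicInt.toZMod u ≠ 0 →
      (IsSquare (u : ℚ_[p]) ↔ IsSquare (PadicInt.toZMod u : ZMod p))) ∧
    (∀ (A B : ℤ) (x : ZMod p), x ^ 3 + A * x + B = 0 → 3 * x ^ 2 + A ≠ 0 →
      ∃ t : ℤ_[p], t ^ 3 + A * t + B = 0 ∧ PadicInt.toZMod t = x) ∧
    (∀ w : Fin 3 → ℚ_[p], w ≠ 0 → ∃ (r : ℚ_[p]) (w' : Fin 3 → ℤ_[p]), r ≠ 0 ∧
      (∀ i, (w' i : ℚ_[p]) = r * w i) ∧ ∃ i, PadicInt.toZMod (w' i) ≠ 0)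

/-- **FL2.** The localisation in terms of the pair modulo `p`.
Proof. Put `a = AD^2`, `b = BD^3`, `z = mk c`. FATT: the pair mod `p` satisfies `Gd a b` (with
`-(4a^3+27b^2) = -D^6 dsc A B`, not a square as `D` is invertible mod `p`), `det P.1` is invertible
mod `p`. Claim: if `Rep D α z` and `t` in `ℤ_p` is a root of `x^3+Ax+B`, then `IsSquare (ev t α)` iff `Sm`.
Let `c1` be the cocycle of `Rep`; `c - c1` is in `Coboundaries` (`QuotientAddGroup.eq`), so by FATI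
`P` is attached to `c1`, and FL1 gives `w, ζ`; by FSQ (3) we may scale `w` (and `ζ`) by `r` and assume that `w`
is in `ℤ_p^3`, not divisible by `p`. Reduction mod `p`: `w̄ ≠ 0`, `P.2 w̄ = (D t̄) P.1 w̄`, so by FEI
`u = (3(Dt)^2+a) (w ⬝ P.1 w)` has nonzero reduction and `Sm` iff `ū` is a square iff (FSQ (1)) `u` is a
square in `ℚ_p` iff `ev t α = u/ζ^2` is a square. Now `→`: `Triv` gives `α, t`. `←`: `α` from BR `surj`; `t`: FRT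
for `(a,b)` mod `p` gives a root `x`, `x/D` is a root of `x^3+Ax+B` mod `p`, simple; FSQ (2). -/
def SpecFL2 : Prop :=
  ∀ (p : ℕ) [Fact p.Prime] (A B D : ℤ) (c : Cocycles 2 (cur A B D)) (P : MZ × MZ), 5 ≤ p →
    dsc A B ≠ 0 → D ≠ 0 → ¬ (p : ℤ) ∣ D → ¬ IsSquare ((-dsc A B : ℤ) : ZMod p) →
    ¬ (p : ℤ) ∣ P.1.det →
    Att ((A : ℚ) * (D : ℚ) ^ 2) ((B : ℚ) * (D : ℚ) ^ 3) c.1 (toQ P.1) (toQ P.2) →
    Gd ((A * D ^ 2 : ℤ) : ZMod p) ((B * D ^ 3 : ℤ) : ZMod p) (md p P.1) (md p P.2) ∧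
    (Triv D p (QuotientAddGroup.mk c) ↔ Sm ((A * D ^ 2 : ℤ) : ZMod p) (md p P.1) (md p P.2))

/-! ## F3. Counting integral pairs with congruence conditions -/

/-- **FBX.** Integers in a class and an interval. Proof. The integers `n ≡ r` mod `N` with `|n| ≤ H` are
`r + N q`, `q` in an interval of length `2H/N`. -/
def SpecFBX : Prop :=
  ∀ (N : ℕ) (H : ℝ) (r : ℤ), 0 < N → 0 ≤ H →
    {n : ℤ | |(n : ℝ)| ≤ H ∧ (n : ZMod N) = r}.Finite ∧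
    ({n : ℤ | |(n : ℝ)| ≤ H ∧ (n : ZMod N) = r}.ncard : ℝ) ≤ 2 * H / N + 1

/-- **FI1.** The number of `B` in a class, first type.
Proof. `adj(A) ≠ 0` (as `det A ≠ 0`), and it is symmetric. The relation
`sum_{i,j} adj(A)_{ij} B_{ij} = 0` determines one of the six entries `B_ij`, `i ≤ j`, by the five others
(coefficient `adj(A)_ii` or `2 adj(A)_ij`, nonzero). Each of the five others takes at most `2H/N+1` values. -/
def SpecFI1 : Prop :=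
  ∀ (N : ℕ) (H : ℝ) (A R : MZ), 0 < N → 0 ≤ H → A.IsSymm → A.det ≠ 0 →
    {B : MZ | B.IsSymm ∧ (A.adjugate * B).trace = 0 ∧ (∀ i j, |(B i j : ℝ)| ≤ H) ∧
      ∀ i j, (B i j : ZMod N) = R i j}.Finite ∧
    ({B : MZ | B.IsSymm ∧ (A.adjugate * B).trace = 0 ∧ (∀ i j, |(B i j : ℝ)| ≤ H) ∧
      ∀ i j, (B i j : ZMod N) = R i j}.ncard : ℝ) ≤ (2 * H / N + 1) ^ 5

/-- **FI2.** The number of `B` in a class, second type.
Proof. `A = antidiag(d,e,d)`, `det A = -d^2 e ≠ 0`, `adj(A) = antidiag(-de, -d^2, -de)`: the relation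
`-2de B02 - d^2 B11 = 0` determines `B11` by `B02`. The other entries `B00, B01, B02, B12, B22` are bounded
by `V 2^(-2k), V 2^(-k), V, V 2^k, V 2^(2k)`. -/
def SpecFI2 : Prop :=
  ∀ (N k : ℕ) (V : ℝ) (A R : MZ), 0 < N → 0 ≤ V → A.IsSymm → A.det ≠ 0 → A 0 0 = 0 → A 0 1 = 0 →
    A 1 2 = 0 → A 2 2 = 0 →
    {B : MZ | B.IsSymm ∧ (A.adjugate * B).trace = 0 ∧
      (∀ i j : Fin 3, |(B i j : ℝ)| ≤ V * (2 : ℝ) ^ ((k : ℤ) * ((i : ℕ) + (j : ℕ) - 2 : ℤ))) ∧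
      ∀ i j, (B i j : ZMod N) = R i j}.Finite ∧
    ({B : MZ | B.IsSymm ∧ (A.adjugate * B).trace = 0 ∧
      (∀ i j : Fin 3, |(B i j : ℝ)| ≤ V * (2 : ℝ) ^ ((k : ℤ) * ((i : ℕ) + (j : ℕ) - 2 : ℤ))) ∧
      ∀ i j, (B i j : ZMod N) = R i j}.ncard : ℝ) ≤
      (2 * (V / 4 ^ k) / N + 1) * (2 * (V / 2 ^ k) / N + 1) * (2 * V / N + 1) *
        (2 * (V * 2 ^ k) / N + 1) * (2 * (V * 4 ^ k) / N + 1)

/-- **FFIB.** Conditions modulo several primes. `S` a set of matrices such that every class modulo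
`N = ∏ p` contains at most `M` of its elements.
Proof. Map `B` to the family of its reductions modulo the `p` in `Q`, an element of the product of the
`T p` (`Finset.card_pi`, or induction on `Q`); two elements with the same image are congruent modulo `N`
(distinct primes; `Finset.prod_primes_dvd`, `Nat.Coprime`), so the fibres have at most `M` elements
(`Finset.card_le_mul_card_image` or `Set.ncard` of a finite union). -/
def SpecFFIB : Prop :=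
  ∀ (Q : Finset ℕ) (S : Set MZ) (T : ∀ p : ℕ, Set (MF p)) (M : ℝ), (∀ p ∈ Q, p.Prime) → 0 ≤ M →
    (∀ R : MZ, {B ∈ S | ∀ i j, (B i j : ZMod (∏ p ∈ Q, p)) = R i j}.Finite ∧
      ({B ∈ S | ∀ i j, (B i j : ZMod (∏ p ∈ Q, p)) = R i j}.ncard : ℝ) ≤ M) →
    {B ∈ S | ∀ p ∈ Q, md p B ∈ T p}.Finite ∧
    ({B ∈ S | ∀ p ∈ Q, md p B ∈ T p}.ncard : ℝ) ≤ M * ∏ p ∈ Q, ((T p).ncard : ℝ)

/-- The allowed sets: for `p` in `z` nontrivial symbol, for `p` in `Q' \ z` trivial symbol, no symbol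
condition for the other primes of `Q`. -/
def AL (Q' z : Finset ℕ) (A : MZ) (p : ℕ) : Set (MF p) :=
  if p ∈ z then BN p (md p A) else if p ∈ Q' then BT p (md p A) else
    BT p (md p A) ∪ BN p (md p A)

/-- The size of a box of pairs with pattern in `Z`. -/
noncomputable def dns (Q Q' : Finset ℕ) (Z : Finset (Finset ℕ)) : ℝ :=
  ((Z.card : ℝ) / 2 ^ Q'.card) * ∏ p ∈ Q, (1 + 1 / (p : ℝ)) ^ 2 / 2

/-- **FAL.** Product of the local counts.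
Proof. FCB: for `p` in `Q'` the set `AL` has at most `p^5 (1+1/p)^2/4` elements, for the other `p` in `Q` at
most `p^5 (1+1/p)^2/2` (`p^3 (p+1)^2 = p^5 (1+1/p)^2`; a union has at most the sum). Multiply; `Q' ⊆ Q`.
`¬ p ∣ det A` gives `det (md p A) ≠ 0`. -/
def SpecFAL : Prop :=
  ∀ (Q Q' z : Finset ℕ) (A : MZ), (∀ p ∈ Q, p.Prime ∧ 5 ≤ p) → Q' ⊆ Q → z ⊆ Q' → A.IsSymm →
    (∀ p ∈ Q, ¬ (p : ℤ) ∣ A.det) →
    (∏ p ∈ Q, ((AL Q' z A p).ncard : ℝ)) ≤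
      ((∏ p ∈ Q, (p : ℕ) : ℕ) : ℝ) ^ 5 * ((1 / 2 ^ Q'.card) * ∏ p ∈ Q, (1 + 1 / (p : ℝ)) ^ 2 / 2)

/-- **FP1.** Counting pairs of the first type with pattern.
Proof. `P0 ≥ 5` and `P0 > 6 C^3 ≥ |det A|` for all `A` with entries at most `C`, so `p ∤ det A` for `p` in `Q`.
The set is contained in the union over `z` in `Z` and the symmetric `A` with entries at most `C`
(at most `(2C+1)^6`) of `{A} × {B ∈ S_A : ∀ p ∈ Q, md p B ∈ AL Q' z A p}`, `S_A` = the `B` of FI1 with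
`H = C ρ` without the congruence. FFIB with `M = (2Cρ/N+1)^5`, `N = ∏ p`, and FAL: at most
`(2C+1)^6 |Z| (2Cρ/N+1)^5 N^5 (…) = (2C+1)^6 (2Cρ+N)^5 dns`, and `2Cρ + N ≤ 3Cρ` if `ρ ≥ N`. -/
def SpecFP1 : Prop :=
  ∀ C : ℝ, 1 ≤ C → ∃ (C' : ℝ) (P0 : ℕ), 0 < C' ∧ 5 ≤ P0 ∧
    ∀ (Q Q' : Finset ℕ) (Z : Finset (Finset ℕ)), (∀ p ∈ Q, p.Prime ∧ P0 < p) → Q' ⊆ Q →
    (∀ z ∈ Z, z ⊆ Q') → ∀ ρ : ℝ, ((∏ p ∈ Q, p : ℕ) : ℝ) ≤ ρ → 1 ≤ ρ →
      {P ∈ I1 C ρ | ∃ z ∈ Z, ∀ p ∈ Q, md p P.2 ∈ AL Q' z P.1 p}.Finite ∧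
      ({P ∈ I1 C ρ | ∃ z ∈ Z, ∀ p ∈ Q, md p P.2 ∈ AL Q' z P.1 p}.ncard : ℝ) ≤
        C' * dns Q Q' Z * ρ ^ 5

/-- **FP2.** The same for the second type, level `k`, in the range `N 4^k ≤ ρ`.
Proof. As FP1 with FI2, `V = C ρ`: all five boxes have `V 2^(km)/N ≥ 1` (`m ≥ -2`), so each factor is at most
`3 V 2^(km)/N` and the product is `(3V/N)^5`. -/
def SpecFP2 : Prop :=
  ∀ C : ℝ, 1 ≤ C → ∃ (C' : ℝ) (P0 : ℕ), 0 < C' ∧ 5 ≤ P0 ∧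
    ∀ (Q Q' : Finset ℕ) (Z : Finset (Finset ℕ)), (∀ p ∈ Q, p.Prime ∧ P0 < p) → Q' ⊆ Q →
    (∀ z ∈ Z, z ⊆ Q') → ∀ (ρ : ℝ) (k : ℕ), ((∏ p ∈ Q, p : ℕ) : ℝ) * 4 ^ k ≤ ρ →
      {P ∈ I2 C ρ k | ∃ z ∈ Z, ∀ p ∈ Q, md p P.2 ∈ AL Q' z P.1 p}.Finite ∧
      ({P ∈ I2 C ρ k | ∃ z ∈ Z, ∀ p ∈ Q, md p P.2 ∈ AL Q' z P.1 p}.ncard : ℝ) ≤
        C' * dns Q Q' Z * ρ ^ 5

/-- **FP3.** The second type without conditions.
Proof. `B00 ≠ 0` and `|B00| ≤ Cρ/4^k` give `Cρ/4^k ≥ 1` (otherwise the set is empty), so the five boxes of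
FI2 (`N = 1`) have sizes `≥ 1` and each factor `2H+1 ≤ 3H`: `(2C+1)^6 (3Cρ)^5`. -/
def SpecFP3 : Prop :=
  ∀ C : ℝ, 1 ≤ C → ∃ C' : ℝ, 0 < C' ∧ ∀ (ρ : ℝ) (k : ℕ), 1 ≤ ρ →
    (I2 C ρ k).Finite ∧ ((I2 C ρ k).ncard : ℝ) ≤ C' * ρ ^ 5 ∧
    (C * ρ < 4 ^ k → I2 C ρ k = ∅)

/-- The set of `SpecFM`. -/
def FS (Q Q' : Finset ℕ) (D : ℤ) (Z : Finset (Finset ℕ)) (X : ℝ) :
    Set (Σ q : ℤ × ℤ, Sel 2 (cur q.1 q.2 D)) :=
  {z | z.1 ∈ Ht X ∧ dsc z.1.1 z.1.2 ≠ 0 ∧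
    (∀ p ∈ Q, ¬ IsSquare ((-dsc z.1.1 z.1.2 : ℤ) : ZMod p)) ∧ z.2 ≠ 0 ∧
    Q'.filter (fun p => ¬ Triv D p z.2) ∈ Z}

/-- The pair `P` is attached to the class `z`. -/
def AtZ (D : ℤ) (z : Σ q : ℤ × ℤ, Sel 2 (cur q.1 q.2 D)) (P : MZ × MZ) : Prop :=
  ∃ c : Cocycles 2 (cur z.1.1 z.1.2 D), QuotientAddGroup.mk c = z.2 ∧
    Att ((z.1.1 : ℚ) * (D : ℚ) ^ 2) ((z.1.2 : ℚ) * (D : ℚ) ^ 3) c.1 (toQ P.1) (toQ P.2)

/-- **FZ1.** A pair is attached to at most one class. Proof. INJ of row 169: `(1)` gives `A D^2 = A' D^2`,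
`B D^3 = B' D^3`, so `A = A'`, `B = B'` (`D ≠ 0`); then `(2)`: the cocycles differ by a coboundary, so the
classes are equal. (Destructure the two sigma elements and substitute.) -/
def SpecFZ1 : Prop :=
  ∀ (D : ℤ) (z z' : Σ q : ℤ × ℤ, Sel 2 (cur q.1 q.2 D)) (P : MZ × MZ), D ≠ 0 →
    AtZ D z P → AtZ D z' P → z = z'

/-- **FZ2.** Reduced pairs and their patterns. `ρ = |D| X^(1/6)`.
Proof. `z` in `FS`. Choose a cocycle `c` with class `z.2`, not a coboundary. `a = AD^2`, `b = BD^3`: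
`|a| ≤ X^(1/3) D^2 = ρ^2`, `|b| ≤ ρ^3`, `4a^3+27b^2 = D^6 dsc ≠ 0`. FCLS gives the pairs. Every pair `P`
attached to `c` with `|P.1 i j| ≤ C` has `0 < |det P.1| ≤ 6 C^3 < p` (FATT), so FL2 applies for all `p` in `Q`:
`md p P.2` satisfies `Gd` and `Sm` iff `Triv`. With the pattern `z0 = Q'.filter (¬ Triv)`, in `Z`:
for `p` in `z0`: in `BN`; for `p` in `Q' \ z0`: in `BT`; other `p` in `Q`: in the union. -/
def SpecFZ2 : Prop :=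
  ∃ (C : ℝ) (P0 : ℕ), 1 ≤ C ∧ 5 ≤ P0 ∧ ∀ (Q Q' : Finset ℕ) (D : ℤ) (Z : Finset (Finset ℕ)) (X : ℝ),
    (∀ p ∈ Q, p.Prime ∧ P0 < p ∧ ¬ (p : ℤ) ∣ D) → D ≠ 0 → Q' ⊆ Q → 1 ≤ X → ∀ z ∈ FS Q Q' D Z X,
    (∃ P ∈ I1 C (|(D : ℝ)| * X ^ (1 / 6 : ℝ)), AtZ D z P ∧
      ∃ z0 ∈ Z, ∀ p ∈ Q, md p P.2 ∈ AL Q' z0 P.1 p) ∨
    (∃ (k : ℕ) (Φ : ℤ → MZ × MZ), Set.InjOn Φ {q : ℤ | |(q : ℝ)| ≤ 2 ^ k} ∧
      ∀ q : ℤ, |(q : ℝ)| ≤ 2 ^ k → Φ q ∈ I2 C (|(D : ℝ)| * X ^ (1 / 6 : ℝ)) k ∧ AtZ D z (Φ q) ∧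
        ∃ z0 ∈ Z, ∀ p ∈ Q, md p (Φ q).2 ∈ AL Q' z0 (Φ q).1 p)

/-- **FMA.** Assembly: `SpecFM`.
Proof. `C, P0` from FZ2, and `P0` also larger than the `P0` of FP1, FP2 for this `C`. If `Z` is empty, the set
is empty. Otherwise `d = dns Q Q' Z > 0`. `N = ∏_{Q} p`, `ρ = |D| X^(1/6) ≥ X^(1/6)`. Type 1 elements of
`FS`: `z ↦ P` is injective by FZ1, at most `C1 d ρ^5` (FP1, `ρ ≥ N` for large `X`). Type `(2,k)`
elements with `N 4^k ≤ ρ`: `(z,q) ↦ Φ_z q` is injective (FZ1 and InjOn), there are at least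
`2^k` integers `q` with `|q| ≤ 2^k`, so their number is at most `C2 d ρ^5/2^k` (FP2). The elements of type
`(2,k)` with `N 4^k > ρ`, `4^k ≤ Cρ`: at most `C3 ρ^5/2^k` (FP3), sum over these `k`:
`≤ 2 C3 ρ^5 (N/ρ)^(1/2)`, which is `≤ d ρ^5` for large `X` (given `Q, D, Z`). `k` with `4^k > Cρ`: none.
Total `≤ (C1 + 2 C2 + 1) d ρ^5`, `ρ^5 = |D|^5 X^(5/6)`. -/
def SpecFMA : Prop :=
  SpecFZ1 → SpecFZ2 → SpecFP1 → SpecFP2 → SpecFP3 → SpecFM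

end Pool.Agent.Lib.MP_8cb858_nt.PR
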