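import Pool.Agent.Lib.MP_8cb858_nt.PR.Defs

/-!
# Specs, part A: the cubic algebra and its completions

Notation in the doc strings: `f = X^3 + A X + B`, `L_R = R[X]/(f) = Lk R A B`, `θ = th R A B`,
`N` = `Algebra.norm`, `D' = dsc A B = 4A^3+27B^2` (so `disc f = - D'`), `f' = 3X^2 + A`, `λ = cf 2`
(the coefficient of `θ^2`). Every Spec is a closed proposition.
-/

namespace Pool.Agent.Lib.MP_8cb858_nt.PR

open Polynomial NumberField Pool.Agent.Lib.MP_8cb858_nt.SEL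
open scoped Classical

/-! ## A1. Coordinates -/

/-- **COO.** Coordinates in `L_R`.
Proof. `AdjoinRoot.powerBasis'` / `modByMonicHom`: the representative of degree `< 3`. For `R` trivial
everything is trivial (`Subsingleton`). Multiplication: `θ^3 = -A θ - B`, `θ^4 = -A θ^2 - B θ`. -/
structure SpecCOO : Prop where
  ext : ∀ {R : Type} [CommRing R] {A B : ℤ} (α : Lk R A B), α = el A B (cf 0 α) (cf 1 α) (cf 2 α)
  co : ∀ {R : Type} [CommRing R] {A B : ℤ} (x y z : R),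
    cf 0 (el A B x y z) = x ∧ cf 1 (el A B x y z) = y ∧ cf 2 (el A B x y z) = z
  add : ∀ {R : Type} [CommRing R] {A B : ℤ} (x y z x' y' z' : R),
    el A B x y z + el A B x' y' z' = el A B (x + x') (y + y') (z + z')
  mul : ∀ {R : Type} [CommRing R] {A B : ℤ} (x y z x' y' z' : R),
    el A B x y z * el A B x' y' z' =
      el A B (x * x' - B * (y * z' + z * y')) (x * y' + y * x' - A * (y * z' + z * y') - B * (z * z'))
        (x * z' + y * y' + z * x' - A * (z * z'))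
  one : ∀ {R : Type} [CommRing R] {A B : ℤ}, (1 : Lk R A B) = el A B 1 0 0
  ofv : ∀ {R : Type} [CommRing R] {A B : ℤ} (x : R), AdjoinRoot.of (fpol R A B) x = el A B x 0 0
  thv : ∀ {R : Type} [CommRing R] {A B : ℤ}, th R A B = el A B 0 1 0
  upv : ∀ {R S : Type} [CommRing R] [CommRing S] {A B : ℤ} (φ : R →+* S) (x y z : R),
    upr A B φ (el A B x y z) = el A B (φ x) (φ y) (φ z)
  cfu : ∀ {R S : Type} [CommRing R] [CommRing S] {A B : ℤ} (φ : R →+* S) (α : Lk R A B) (i : ℕ),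
    i < 3 → cf i (upr A B φ α) = φ (cf i α)
  inj : ∀ {R S : Type} [CommRing R] [CommRing S] {A B : ℤ} (φ : R →+* S),
    Function.Injective φ → Function.Injective (upr A B φ)
  comp : ∀ {R S T : Type} [CommRing R] [CommRing S] [CommRing T] {A B : ℤ} (φ : R →+* S)
    (ψ : S →+* T) (α : Lk R A B), upr A B ψ (upr A B φ α) = upr A B (ψ.comp φ) α

/-- **EVA.** Evaluation at a root `t` is a ring homomorphism.
Proof. From COO: `ev φ t (el x y z) = φ x + φ y t + φ z t^2`; multiplicativity is the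
multiplication formula together with `t^3 = - A t - B`. (Or: `ev φ t = AdjoinRoot.lift φ t _`.) -/
structure SpecEVA : Prop where
  elv : ∀ {R S : Type} [CommRing R] [CommRing S] {A B : ℤ} (φ : R →+* S) (t : S) (x y z : R),
    ev φ t (el A B x y z) = φ x + φ y * t + φ z * t ^ 2
  mul : ∀ {R S : Type} [CommRing R] [CommRing S] {A B : ℤ} (φ : R →+* S) (t : S)
    (α β : Lk R A B), t ^ 3 + A * t + B = 0 → ev φ t (α * β) = ev φ t α * ev φ t β
  add : ∀ {R S : Type} [CommRing R] [CommRing S] {A B : ℤ} (φ : R →+* S) (t : S)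
    (α β : Lk R A B), ev φ t (α + β) = ev φ t α + ev φ t β
  one : ∀ {R S : Type} [CommRing R] [CommRing S] {A B : ℤ} (φ : R →+* S) (t : S),
    ev φ t (1 : Lk R A B) = 1
  upv : ∀ {R S T : Type} [CommRing R] [CommRing S] [CommRing T] {A B : ℤ} (φ : R →+* S)
    (ψ : S →+* T) (t : T) (α : Lk R A B), ev ψ t (upr A B φ α) = ev (ψ.comp φ) t α
  unit : ∀ {R S : Type} [CommRing R] [CommRing S] {A B : ℤ} (φ : R →+* S) (t : S)
    (α : Lk R A B), t ^ 3 + A * t + B = 0 → IsUnit α → IsUnit (ev φ t α)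

/-- **NRM.** The norm.
Proof. The matrix of the multiplication by `x + yθ + zθ^2` in the basis `1, θ, θ^2` has columns
`(x, y, z)`, `(-Bz, x-Az, y)`, `(-By, -Bz-Ay, x-Az)` (`Algebra.norm_eq_matrix_det` with the power
basis); `frm` is its determinant. `rts`: for `t_0+t_1+t_2 = 0`, etc., the product of the three
values `x + y t_i + z t_i^2` is the same polynomial (expand). `bc`: the formula. `unt`: an element of
a finite free algebra is a unit iff its norm is (`Algebra.isUnit_norm`..., or by hand: `N α` is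
`α` times the cofactor element). `lin`: put `x, -1, 0` in the formula: `N(D(x-θ)) = D^3 f(x)`. -/
structure SpecNRM : Prop where
  frm : ∀ {R : Type} [CommRing R] {A B : ℤ} (x y z : R), Algebra.norm R (el A B x y z) =
    x * ((x - A * z) ^ 2 + y * (B * z + A * y)) + B * z * (y * (x - A * z) + z * (B * z + A * y))
      - B * y * (y ^ 2 - z * (x - A * z))
  rts : ∀ {R S : Type} [CommRing R] [CommRing S] {A B : ℤ} (φ : R →+* S) (t : Fin 3 → S)
    (α : Lk R A B), t 0 + t 1 + t 2 = 0 → t 0 * t 1 + t 0 * t 2 + t 1 * t 2 = A →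
    t 0 * t 1 * t 2 = -B → φ (Algebra.norm R α) = ev φ (t 0) α * ev φ (t 1) α * ev φ (t 2) α
  bc : ∀ {R S : Type} [CommRing R] [CommRing S] {A B : ℤ} (φ : R →+* S) (α : Lk R A B),
    Algebra.norm S (upr A B φ α) = φ (Algebra.norm R α)
  unt : ∀ {R : Type} [CommRing R] {A B : ℤ} (α : Lk R A B), IsUnit α ↔ IsUnit (Algebra.norm R α)
  lin : ∀ {R : Type} [CommRing R] {A B : ℤ} (D x : R),
    Algebra.norm R (AdjoinRoot.of (fpol R A B) D * (AdjoinRoot.of _ x - th R A B)) =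
      D ^ 3 * (x ^ 3 + A * x + B)
  sc : ∀ {R : Type} [CommRing R] {A B : ℤ} (D : R),
    Algebra.norm R (AdjoinRoot.of (fpol R A B) D) = D ^ 3

/-- **INV.** Formal properties of `InV` (`K` a field, `R → S` a ring map). Proof: `N` is
multiplicative; for a unit `α` of square norm also `α⁻¹` has; `N(β^2) = N(β)^2`; NRM `bc`. In a
field `IsSquare (a * b)` and `IsSquare b`, `b ≠ 0`, imply `IsSquare a`. `sq`: if `α β = γ^2` with
units, then `α = β (γ/β)^2`. -/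
structure SpecINV : Prop where
  mul : ∀ {R : Type} [CommRing R] {A B : ℤ} (α β : Lk R A B), InV α → InV β → InV (α * β)
  sqr : ∀ {R : Type} [CommRing R] {A B : ℤ} (γ : Lk R A B), IsUnit γ → InV (γ ^ 2)
  msq : ∀ {R : Type} [CommRing R] {A B : ℤ} (α γ : Lk R A B), IsUnit γ → (InV (α * γ ^ 2) ↔ InV α)
  upv : ∀ {R S : Type} [CommRing R] [CommRing S] {A B : ℤ} (φ : R →+* S) (α : Lk R A B),
    InV α → InV (upr A B φ α)
  quo : ∀ {R : Type} [CommRing R] {A B : ℤ} (α β : Lk R A B), IsUnit α → IsUnit β →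
    (IsSquare (α * β) ↔ ∃ γ, IsUnit γ ∧ α = β * γ ^ 2)
  trs : ∀ {R : Type} [CommRing R] {A B : ℤ} (α β γ : Lk R A B), IsUnit β →
    IsSquare (α * β) → IsSquare (β * γ) → IsSquare (α * γ)

/-- **AFI.** Formal properties of `Aff` and `Iso`.
Proof. `inv`: multiply the square by `γ^2`; for `Iso` replace `ξ` by `ξ/γ`. `iso`: let
`α D(x-θ) = g^2`, `δ = D(x-θ)`, a unit (`N δ = D^3 f(x) = D^2 y^2 ≠ 0`), `α` a unit, so `g` is a
unit; `ξ = δ/g`: `α ξ^2 = α δ^2/g^2 = δ = D x - D θ` has `λ = 0`. `dd`: if `D D' = w^2`, `w ≠ 0`,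
`y^2 = D f(x)` then `(w y/D)^2 = D' f(x)`, and `D' = D (w/D)^2` is `D` times a square in `K`. -/
structure SpecAFI : Prop where
  inv : ∀ {K : Type} [Field K] {A B : ℤ} (D : ℤ) (α γ : Lk K A B), IsUnit γ →
    (Aff D (α * γ ^ 2) ↔ Aff D α) ∧ (Iso (α * γ ^ 2) ↔ Iso α)
  iso : ∀ {K : Type} [Field K] {A B : ℤ} (D : ℤ) (α : Lk K A B), (D : K) ≠ 0 → IsUnit α →
    Aff D α → Iso α
  dd : ∀ {K : Type} [Field K] {A B : ℤ} (D D' : ℤ) (α : Lk K A B), (D : K) ≠ 0 → (D' : K) ≠ 0 →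
    IsSquare ((D : K) * D') → (Aff D α ↔ Aff D' α)

/-! ## A2. Hensel's lemma in `L_{Z_p}` -/

/-- **HEN.** Elements congruent to 1 modulo `4 p` are squares in `L_{Z_p}`, units are detected
modulo `p`, and squares of units too for odd `p`.
Proof. (1) `1 + 4 p z = (1 + 2 y)^2` iff `y^2 + y = p z`. Solve it by iteration
`y ↦ p z - y^2`, starting with `0`, in `L_{Z_p} = Z_p^3` (COO; complete; the iterates are in `p L`, and
`(p z - y^2) - (p z - y'^2) = -(y-y')(y+y')` gains a factor `p`), or by Hensel's lemma for the ring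
`L_{Z_p}`, which is adically complete with respect to `(p)`; the solution `y` is in `p L`. `1 + 2y` is a
unit because its square is (its norm is `≡ 1` mod `p`, NRM). (2) `u` is a unit iff `N u` is a unit of `Z_p`, iff `N u` is not
`0` mod `p`, iff the image of `u` in `L_{Z/p}` is a unit (NRM `unt`, `bc` for `PadicInt.toZMod`).
(3) `p` odd, `u` unit, `u ≡ w^2` mod `p`: `w` is a unit mod `p`, so its lift `w'` is a unit (2), and
`u w'^{-2} = 1 + p z' = 1 + 4 p z` (`4` is a unit of `Z_p`). So `u w'^{-2}` is a square. -/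
def SpecHEN : Prop :=
  ∀ (p : ℕ) [Fact p.Prime] (A B : ℤ),
    (∀ z : Lk ℤ_[p] A B, ∃ w y : Lk ℤ_[p] A B, IsUnit w ∧ w = 1 + 2 * (p : Lk ℤ_[p] A B) * y ∧
      w ^ 2 = 1 + 4 * (p : Lk ℤ_[p] A B) * z) ∧
    (∀ u : Lk ℤ_[p] A B, IsUnit u ↔ IsUnit (upr A B PadicInt.toZMod u : Lk (ZMod p) A B)) ∧
    (p ≠ 2 → ∀ u : Lk ℤ_[p] A B, IsUnit u →
      (IsSquare u ↔ IsSquare (upr A B PadicInt.toZMod u : Lk (ZMod p) A B)))

/-- **SCL.** Scaling: every unit of `L_{Q_p}` is a power of `p` times the image of an element of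
`L_{Z_p}` which is not divisible by `p`. If `f` has no root modulo `p`, this element is a unit.
Proof. First part: coordinates (COO), take out the minimal valuation. Second part: `f` mod `p` is a cubic
polynomial without root, so irreducible over `F_p`, and `L_{F_p}` is a field, so an element `h` with nonzero
reduction has a unit as reduction, hence is a unit (HEN (2)). -/
def SpecSCL : Prop :=
  ∀ (p : ℕ) [Fact p.Prime] (A B : ℤ) (α : Lk ℚ_[p] A B), α ≠ 0 →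
    ∃ (n : ℤ) (h : Lk ℤ_[p] A B), α = AdjoinRoot.of _ ((p : ℚ_[p]) ^ n) *
        upr A B (algebraMap ℤ_[p] ℚ_[p]) h ∧
      (upr A B PadicInt.toZMod h : Lk (ZMod p) A B) ≠ 0 ∧
      ((∀ x : ZMod p, x ^ 3 + A * x + B ≠ 0) → IsUnit h)

/-- **EVI.** If `f` has no root modulo `p` then all classes are unit classes.
Proof. SCL: `α = p^n h`, `h` a unit; `N α = p^{3n} N h` is a square (in `Q_p`) and `N h` is a unit, so
`3 n` is even, `n = 2 k`; take `g = p^{-k}`. -/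
def SpecEVI : Prop :=
  ∀ (p : ℕ) [Fact p.Prime] (A B : ℤ) (α : Lk ℚ_[p] A B),
    (∀ x : ZMod p, x ^ 3 + A * x + B ≠ 0) → InV α → Ev p α

/-- **EVF.** Formal properties of `Ev`: a group containing the squares.
Proof. `α g^2 = h`, `α' g'^2 = h'`: `α α' (g g')^2 = h h'`. `α γ^2`: use `g/γ`. A square `α = δ^2`
(unit): `g = 1/δ`, `h = 1`. -/
def SpecEVF : Prop :=
  ∀ (p : ℕ) [Fact p.Prime] (A B : ℤ) (α β : Lk ℚ_[p] A B),
    (Ev p α → Ev p β → Ev p (α * β)) ∧ (IsUnit β → (Ev p (α * β ^ 2) ↔ Ev p α)) ∧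
    (IsUnit α → IsSquare α → Ev p α) ∧
    (∀ h : Lk ℤ_[p] A B, IsUnit h → Ev p (upr A B (algebraMap ℤ_[p] ℚ_[p]) h))

/-- **RTS.** Roots modulo `p` when `p^2` does not divide `D'`.
Proof. Identity: with `F = x^3 + A x + B`, `G = 3 x^2 + A`,
`4A^3+27B^2 = F (108 x^3 + 27 F - 54 G x) + G^2 (27 x^2 ... )`: precisely substitute `A = G - 3x^2`,
`B = F - x^3 - A x = F - G x + 2 x^3`: `4 (G-3x^2)^3 + 27 (F - G x + 2x^3)^2
= 27 F^2 - 54 F G x + 108 F x^3 + G^2 (4 G - 36 x^2 + 27 x^2)`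
(the terms `-108x^6 + 108 x^4 G` and `108 x^6 - 108 x^4 G` cancel). So if `p | G(x)` and `p^2 | F(x)`
then `p^2 | D'`. (1) If `x` in `Z_p` is such that `f(x)` is divisible by `p^2` then `f'(x)` is a unit.
(2) Hensel (`hensels_lemma`): then there is a root `t` of `f` in `Z_p` with `t ≡ x` mod `p`, and
`f(x) = (x - t) u` with a unit `u` (`f(x) = (x-t)(x^2+xt+t^2+A)`, second factor `≡ f'(t)`).
(3) every root `t` in `Z_p` has `f'(t)` a unit (`f(t) = 0`). (4) every root `t` in `Q_p` is in `Z_p`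
(integrally closed, or valuations). -/
def SpecRTS : Prop :=
  ∀ (p : ℕ) [Fact p.Prime] (A B : ℤ), ¬ ((p : ℤ) ^ 2 ∣ dsc A B) →
    (∀ x : ℤ_[p], (p : ℤ_[p]) ^ 2 ∣ x ^ 3 + A * x + B → ∃ t : ℤ_[p], t ^ 3 + A * t + B = 0 ∧
      (p : ℤ_[p]) ∣ x - t ∧ ∃ u : ℤ_[p], IsUnit u ∧ x ^ 3 + A * x + B = (x - t) * u) ∧
    (∀ t : ℤ_[p], t ^ 3 + A * t + B = 0 → IsUnit (3 * t ^ 2 + A)) ∧
    (∀ t : ℚ_[p], t ^ 3 + A * t + B = 0 → ∃ t' : ℤ_[p], (t' : ℚ_[p]) = t)

/-- **IDM.** The idempotent of a root. Let `t` in `Z_p` be a root with `f'(t)` a unit, `x` in `Z_p` with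
`x - t` of even positive valuation. Then `x - θ` is a unit of `L_{Z_p}` times a square of a unit of
`L_{Q_p}`.
Proof. Put `ε = (θ^2 + t θ + t^2 + A)/f'(t)` in `L_{Z_p}`. `f = (X - t) q(X)`, `q = X^2 + tX + t^2 + A`, `q(t) = f'(t)`; `q(θ)^2 = q(t) q(θ)` because
`q(X) - q(t)` is divisible by `X - t` and `(θ - t) q(θ) = 0`. So `ε^2 = ε`. Write `x - t = p^{2k} u`,
`u` a unit; `g = p^{-k} ε + (1 - ε)`, a unit of `L_{Q_p}` (inverse `p^k ε + (1-ε)`). Then
`(x - θ) g^2 = p^{-2k} (x-θ) ε + (x-θ)(1-ε) = u ε + (x - θ)(1 - ε)` (as `(x-θ) ε = (x-t) ε`), which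
lies in `L_{Z_p}`; call it `h`. Its norm is `p^{-2k} N(x-θ)`: `N(g)^2 N(x-θ)`, `N(g) = p^{-k}` (norm of
`p^{-k} ε + (1-ε)`: on `L = εL + (1-ε)L`, ranks 1 and 2; or by formula NRM) and
`N(x-θ) = f(x) = (x-t) q(x)`, `q(x) ≡ q(t)` unit; so `N h` is a unit and `h` is a unit (NRM). -/
def SpecIDM : Prop :=
  ∀ (p : ℕ) [Fact p.Prime] (A B : ℤ) (t x : ℤ_[p]) (k : ℕ) (u : ℤ_[p]), IsUnit u →
    t ^ 3 + A * t + B = 0 → IsUnit (3 * t ^ 2 + A) → x - t = (p : ℤ_[p]) ^ (2 * k) * u → 0 < k →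
    Ev p (AdjoinRoot.of (fpol ℚ_[p] A B) (x : ℚ_[p]) - th ℚ_[p] A B)

/-- **LG1.** Kummer classes are unit classes, `p` odd, `p^2 ∤ D'`, `p ∤ D`.
Proof. Let `y^2 = D f(x)`, `α δ = g^2`, `δ = D (x - θ)`, a unit with `N δ = D^2 y^2`. `α` is a unit, so
by EVF it suffices to show `Ev (x - θ)` (`D` is a unit of `Z_p`). (a) `x` not in `Z_p`: `x = p^{-m} x_0`,
`m > 0`, `x_0` a unit: `y^2 = D x^3 (1 + A/x^2 + B/x^3)` gives `3 m` even, `m = 2 k`, and
`(x - θ) p^{2k} = x_0 - p^{2k} θ` is a unit of `L_{Z_p}` (norm `≡ x_0^3`). (b) `x` in `Z_p` and `f(x)` a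
unit: `N(x - θ) = f(x)`, so `x - θ` is a unit of `L_{Z_p}`. (c) `p | f(x)`: the valuation of `f(x)` is
that of `y^2`, even, so `≥ 2`: RTS (1) gives `t` and `f(x) = (x - t) u`, the valuation of `x - t` is
even and positive; RTS (2), IDM. -/
def SpecLG1 : Prop :=
  ∀ (p : ℕ) [Fact p.Prime] (A B D : ℤ) (α : Lk ℚ_[p] A B), p ≠ 2 → dsc A B ≠ 0 →
    ¬ ((p : ℤ) ^ 2 ∣ dsc A B) → ¬ ((p : ℤ) ∣ D) → InV α → Aff D α → Ev p α

/-- **AFO.** The trivial class is in every Kummer image over `Q_p` (points near the origin of the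
group). Proof. Let `x = D w^{-2}` with `w = p^n`, `n` large. `D f(x) = D^4 w^{-6} (1 + A w^4/D^2 +
B w^6/D^3)` and the bracket is a square of a unit for large `n` (it is `1 + 4 p z`, `z` in `Z_p`);
`D (x - θ) = D^2 w^{-2} (1 - w^2 θ/D)`, and `1 - w^2 θ/D = 1 + 4 p z`, `z` in `L_{Z_p}`, is a square
(HEN). So `α D(x-θ)` is a square for a square `α`. -/
def SpecAFO : Prop :=
  ∀ (p : ℕ) [Fact p.Prime] (A B D : ℤ) (α : Lk ℚ_[p] A B), D ≠ 0 → IsSquare α → Aff D α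

/-! ## A3. Explicit 2-descent over a field, and the number of unit classes -/

/-- **HLV.** Explicit halving. `K` a field, `2 ≠ 0`, `x - θ` a square in `L_K`, `y^2 = f(x)`. Then
`(x, y)` is twice a rational point.
Proof. Let `(u + vθ + wθ^2)^2 = x - θ`; comparing coordinates (COO `mul`):
`u^2 - 2Bvw = x`, `2uv - 2Avw - Bw^2 = -1`, `2uw + v^2 - Aw^2 = 0`. If `w = 0` then `v = 0`,
contradicting the second. Put `s = v/w`; then `u = w(A - s^2)/2` and the second equation becomes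
`s^3 + A s + B = 1/w^2`. So `S = (s, 1/w)` is a point with nonzero second coordinate, and the
`x`-coordinate of `2S` is `(w(3s^2+A)/2)^2 - 2s`, which equals `x`:
`w^2(3s^2+A)^2/4 - 2s - w^2(A-s^2)^2/4 + 2Bsw^2 = 2s (w^2 (s^3+As+B) - 1) = 0`. The `y`-coordinate of
`2S` has square `f(x) = y^2`; replace `S` by `-S` if necessary (the curve is
`y^2 = x^3 + A x + B`, `curve (A : K) (B : K)` over `K`, `K`-points in `K`). -/
def SpecHLV : Prop :=
  ∀ (K : Type) [Field K] [CharZero K] (A B : ℤ), dsc A B ≠ 0 → ∀ (x y : K)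
    (h : ((curve (A : K) (B : K)).baseChange K).toAffine.Nonsingular x y),
    IsSquare (AdjoinRoot.of (fpol K A B) x - th K A B) →
    ∃ S : Pt (curve (A : K) (B : K)) K, (2 : ℕ) • S = WeierstrassCurve.Affine.Point.some x y h

/-- **DSQ.** The Kummer map is injective. Let `P = (x_1, y_1)`, `Q = (x_2, y_2)` be points with
`y_1 y_2 ≠ 0` and `(x_1 - θ)(x_2 - θ)` a square in `L_K`. Then `P - Q` is in `2 E(K)`.
Proof. If `x_1 = x_2` then `Q = P` or `Q = -P` and `P - Q = 0` or `2P`. Otherwise `-Q = (x_2, -y_2)`,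
`P - Q = (x_3, y_3)` (`≠ 0`) with `x_3 = l^2 - x_1 - x_2`, `l = (y_1+y_2)/(x_1-x_2)`; the line
`Y = l X + n` meets the curve in `x_1, x_2, x_3`: `f(X) - (lX+n)^2 = (X-x_1)(X-x_2)(X-x_3)` (monic
cubic polynomials with the same value at `x_1`, `x_2` and the same coefficient of `X^2`; if necessary
check the identity directly from `y_i^2 = f(x_i)`). At `X = θ`: `(lθ+n)^2 = (x_1-θ)(x_2-θ)(x_3-θ)`.
The first two factors have product `g^2`, `g` a unit (norm `f(x_1) f(x_2) ≠ 0`), so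
`x_3 - θ = ((lθ+n)/g)^2`; HLV. -/
def SpecDSQ : Prop :=
  ∀ (K : Type) [Field K] [CharZero K] (A B : ℤ), dsc A B ≠ 0 → ∀ (x₁ y₁ x₂ y₂ : K)
    (h₁ : ((curve (A : K) (B : K)).baseChange K).toAffine.Nonsingular x₁ y₁)
    (h₂ : ((curve (A : K) (B : K)).baseChange K).toAffine.Nonsingular x₂ y₂),
    y₁ ≠ 0 → y₂ ≠ 0 →
    IsSquare ((AdjoinRoot.of (fpol K A B) x₁ - th K A B) * (AdjoinRoot.of _ x₂ - th K A B)) →
    ∃ S : Pt (curve (A : K) (B : K)) K, WeierstrassCurve.Affine.Point.some x₁ y₁ h₁ -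
      WeierstrassCurve.Affine.Point.some x₂ y₂ h₂ = (2 : ℕ) • S

/-- **CLN.** Collinear points. `K` a field, `D ≠ 0` in `K`, `f` without root in `K`; points `(x_1, y_1)`,
`(x_2, y_2)` of `y^2 = D f(x)`, `x_1 ≠ x_2`. Then there is a third one whose class is the product.
Proof. `η_i = y_i/D`, `D η_i^2 = f(x_i)`, `l = (η_1-η_2)/(x_1-x_2)`, `n = η_1 - l x_1`,
`x_3 = D l^2 - x_1 - x_2`. `f(X) - D (l X + n)^2 = (X-x_1)(X-x_2)(X-x_3)` (both monic cubic with the same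
coefficient of `X^2` and the zeros `x_1`, `x_2`). So `f(x_3) = D (l x_3 + n)^2`, `y_3 = D (l x_3 + n)`,
nonzero since `f` has no root, and `D (lθ+n)^2 = (x_1-θ)(x_2-θ)(x_3-θ)` (at `X = θ`). -/
def SpecCLN : Prop :=
  ∀ (K : Type) [Field K] [CharZero K] (A B D : ℤ), D ≠ 0 → (∀ x : K, x ^ 3 + A * x + B ≠ 0) →
    ∀ x₁ y₁ x₂ y₂ : K, x₁ ≠ x₂ → y₁ ^ 2 = D * (x₁ ^ 3 + A * x₁ + B) →
    y₂ ^ 2 = D * (x₂ ^ 3 + A * x₂ + B) → ∃ x₃ y₃ : K, y₃ ≠ 0 ∧
      y₃ ^ 2 = D * (x₃ ^ 3 + A * x₃ + B) ∧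
      IsSquare ((AdjoinRoot.of (fpol K A B) (D : K) * (AdjoinRoot.of _ x₁ - th K A B)) *
        (AdjoinRoot.of _ (D : K) * (AdjoinRoot.of _ x₂ - th K A B)) *
        (AdjoinRoot.of _ (D : K) * (AdjoinRoot.of _ x₃ - th K A B)))

/-- The points with coordinates not in `Z_p`, and the origin. -/
def ker1 (p : ℕ) [Fact p.Prime] (A B : ℤ) (P : Pt (curve (A : ℚ_[p]) (B : ℚ_[p])) ℚ_[p]) : Prop :=
  match P with
  | .zero => True
  | .some x _ _ => 1 < ‖x‖

/-- **KSG.** The kernel of reduction is a subgroup.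
Proof. Claim: if `R = (x_1, y_1)` has `x_1` (hence `y_1`) in `Z_p` and `Q = (x_2, y_2)` has
`‖x_2‖ > 1`, then `R + Q` is not in `ker1`. Indeed `‖y_2‖^2 = ‖x_2‖^3`, so `‖x_2‖ = p^{2k}`,
`‖y_2‖ = p^{3k}`; `x_1 ≠ x_2`; the x-coordinate of `R + Q` is
`((y_2-y_1)^2 - (x_1+x_2)(x_2-x_1)^2)/(x_2-x_1)^2`, and the numerator equals
`x_1 x_2^2 + (A + x_1^2) x_2 + B + y_1^2 - x_1^3 - 2 y_1 y_2` (use `y_2^2 = x_2^3 + A x_2 + B`), of norm
`≤ p^{4k}`, the denominator has norm `p^{4k}`. So it is integral. Now if `P, Q` are in `ker1` and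
`P + Q = R` is not, then `P = R + (-Q)`, `-Q` in `ker1`, and the claim gives `P` not in `ker1`,
contradiction. (If `P` or `Q` is `0` trivial.) Negation: same `x`. -/
def SpecKSG : Prop :=
  ∀ (p : ℕ) [Fact p.Prime] (A B : ℤ), dsc A B ≠ 0 →
    ∃ G : AddSubgroup (Pt (curve (A : ℚ_[p]) (B : ℚ_[p])) ℚ_[p]), ∀ P, P ∈ G ↔ ker1 p A B P

/-- **KFI.** The kernel of reduction has finite index and no 2-torsion (`p` odd, `p^2 ∤ D'`).
Proof. Let `R = (x, y)`, `R' = (x', y')` be integral points with `x ≡ x'`, `y ≡ y'` mod `p`. Claim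
`R - R'` is in `ker1`; as there are at most `p^2` classes mod `p` this gives finite index. First,
if `p | y` then `p^2 | f(x)`, so `f'(x)` is a unit (RTS (1), (2); or the identity in RTS). If
`x = x'`, then `y' = y` (and `R - R' = 0`) or `y' = -y`, and then `2y ≡ 0`, `p | y`, `y ≠ 0`,
`R - R' = 2R` has `x`-coordinate `(f'(x)/(2y))^2 - 2x`, norm `> 1`. If `x ≠ x'`: `R - R'` has
`x`-coordinate `l^2 - x - x'`, `l = (y+y')/(x-x')`. If `p ∤ y`: `y + y' ≡ 2y` is a unit and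
`‖x-x'‖ < 1`, so `‖l‖ > 1`. If `p | y`: `(y-y')(y+y') = f(x) - f(x') = (x-x')(x^2+xx'+x'^2+A)`, the last
factor is `≡ f'(x)`, a unit; so `y ≠ y'` and `l = unit/(y-y')`, `‖l‖ > 1`. No 2-torsion: a point
`≠ 0` with `2P = 0` has `y = 0` and `x` a root of a monic polynomial over `Z_p`, so `x` in `Z_p`. -/
def SpecKFI : Prop :=
  ∀ (p : ℕ) [Fact p.Prime] (A B : ℤ), p ≠ 2 → dsc A B ≠ 0 → ¬ ((p : ℤ) ^ 2 ∣ dsc A B) →
    (∃ s : Finset (Pt (curve (A : ℚ_[p]) (B : ℚ_[p])) ℚ_[p]), ∀ P, ∃ Q ∈ s, ker1 p A B (P - Q)) ∧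
    ∀ P, ker1 p A B P → (2 : ℕ) • P = 0 → P = 0

/-- **GRC.** Group theory. Let `G` be an abelian group, `H` a subgroup of finite index without
element of order 2, and let `n` elements `T_i` of `G` with `2 T_i = 0` be given. Then there are `n`
elements of `G`, pairwise different modulo `2 G`.
Proof. `Q = G/H` is finite and `G[2] → Q[2]` is injective, so `Q[2]` has at least `n` elements;
`#(Q/2Q) = #Q[2]` (finite group, multiplication by 2: kernel and cokernel have the same order);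
lift representatives of `Q/2Q` to `G`. -/
def SpecGRC : Prop :=
  ∀ (G : Type) [AddCommGroup G] (H : AddSubgroup G) (n : ℕ) (T : Fin n → G),
    H.FiniteIndex → (∀ x ∈ H, (2 : ℕ) • x = 0 → x = 0) → Function.Injective T →
    (∀ i, (2 : ℕ) • T i = 0) →
    ∃ g : Fin n → G, ∀ i j, i ≠ j → ∀ x : G, g i - g j ≠ (2 : ℕ) • x

/-- **LWB.** Many Kummer classes. Let `n - 1` be a number of different roots of `f` in `Q_p` (`p` odd,
`p^2 ∤ D'`). Then there are `n` classes in the Kummer image of `y^2 = f(x)`, pairwise different.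
Proof. `T` = the origin and the points `(t_i, 0)`: 2-torsion. KSG, KFI, GRC give `g_1, …, g_n`
different modulo `2 E(Q_p)`. `E(Q_p)` has infinitely many points `2R` (for instance by AFO-type
points, or BIG of row 169: `R` with large `x`), so we may replace `g_i` by `g_i + 2R_i = (x_i, y_i)`
with `y_i ≠ 0` (the excluded values of `2R_i`: finitely many, `g_i + 2R_i` in `{0, (t,0)}`). Take
`α_i = x_i - θ` (a unit, norm `y_i^2`, `Aff 1` with the point itself: `α_i (x_i-θ)` is a square); by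
DSQ `α_i α_j` is not a square. -/
def SpecLWB : Prop :=
  ∀ (p : ℕ) [Fact p.Prime] (A B : ℤ) (n : ℕ) (t : Fin n → ℚ_[p]), p ≠ 2 → dsc A B ≠ 0 →
    ¬ ((p : ℤ) ^ 2 ∣ dsc A B) → Function.Injective t → (∀ i, t i ^ 3 + A * t i + B = 0) →
    ∃ α : Fin (n + 1) → Lk ℚ_[p] A B, (∀ i, InV (α i) ∧ Aff 1 (α i)) ∧
      ∀ i j, i ≠ j → ¬ IsSquare (α i * α j)

/-- **FRC.** Finite rings. Let `k` be a finite field with `2 ≠ 0`, `L = L_k`. If `h_1, …, h_m` are units
of `L` of square norm such that `h_i h_j` is not a square for `i ≠ j`, then there are at least `m`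
elements `β` of `L` with `β^2 = 1`, `N β = 1`.
Proof. `U` = the finite group of units of `L`, `U[2]` = the `β` with `β^2 = 1`; `#(U/U^2) = #U[2]`.
The norm induces `U/U^2 → k^*/k^{*2}`, surjective because `N(c) = c^3` for `c` in `k`, so its kernel
has `#U[2]/2` elements; the classes of the `h_i` are `m` different elements of it. On `U[2]` the norm
takes the values `1`, `-1` (`N(β)^2 = 1`) and `N(-β) = - N(β)`, so half of the elements have norm 1. -/
def SpecFRC : Prop :=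
  ∀ (p : ℕ) [Fact p.Prime] (A B : ℤ) (m : ℕ) (h : Fin m → Lk (ZMod p) A B), p ≠ 2 →
    (∀ i, InV (h i)) → (∀ i j, i ≠ j → ¬ IsSquare (h i * h j)) →
    ∃ b : Fin m → Lk (ZMod p) A B, Function.Injective b ∧
      ∀ i, b i ^ 2 = 1 ∧ Algebra.norm (ZMod p) (b i) = 1

/-- **TWT.** Elements `β` of `L_K`, `K = Q_p`, with `β^2 = 1`, `N β = 1`, `β ≠ 1` correspond to roots.
Proof. `β ≠ -1` as `N(-1) = -1`. `ε = (1+β)/2 = x + yθ + zθ^2` satisfies `ε^2 = ε`, in coordinates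
`x^2 - 2Byz = x`, `2xy - 2Ayz - Bz^2 = y`, `2xz + y^2 - Az^2 = z`. If `z = 0` then `y = 0`, `x` is `0` or
`1`, `β = ±1`, excluded. Put `t = y/z`: the third equation gives `2x = 1 + z(A - t^2)`, and the second
divided by `z` becomes `-z (t^3 + A t + B) = 0`: `t` is a root. The first becomes (with
`B = -t^3 - A t`) `z^2 (3t^2 + A)^2 = 1`. So for given `t` there are at most two possibilities for `ε`,
namely `ε` and `1 - ε` (`z` and `-z`), i.e. `β` and `-β`, of norms `1` and `-1`: `β` is determined by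
`t`, so different `β` give different `t`. -/
def SpecTWT : Prop :=
  ∀ (p : ℕ) [Fact p.Prime] (A B : ℤ), dsc A B ≠ 0 → ∀ (m : ℕ) (b : Fin m → Lk ℚ_[p] A B),
    Function.Injective b → (∀ i, b i ^ 2 = 1 ∧ Algebra.norm ℚ_[p] (b i) = 1 ∧ b i ≠ 1) →
    ∃ t : Fin m → ℚ_[p], Function.Injective t ∧ ∀ i, t i ^ 3 + A * t i + B = 0

/-- **UPB.** Few unit classes. If `α_0, …, α_m` are unit classes, pairwise different (`p` odd), then
`f` has at least `m` roots in `Q_p`.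
Proof. `α_i g_i^2 = h_i`, `h_i` a unit of `L_{Z_p}`, `N(h_i)` a unit of `Z_p` and a square in `Q_p`, so
its reduction is a square; `h_i h_j` is not a square in `L_{Z_p}`, so by HEN (3) its
reduction is not a square. FRC gives `m + 1` elements `b_i` of `L_{F_p}` with `b^2 = 1`, `N b = 1`.
Each lifts to `β` in `L_{Z_p}` with `β^2 = 1`: let `c` be any lift; `c^2 = 1 + p z' = 1 + 4 p z`; by
HEN (1) there is a unit `w ≡ 1` mod `p` with `w^2 = c^2`; `β = c/w`. `N(β)^2 = 1`, `N β ≡ N b = 1` mod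
`p`, so `N β = 1` (`p` odd). The images of the `β` in `L_{Q_p}` are different, at most one is `1`;
TWT for `m` others. -/
def SpecUPB : Prop :=
  ∀ (p : ℕ) [Fact p.Prime] (A B : ℤ) (m : ℕ) (α : Fin (m + 1) → Lk ℚ_[p] A B), p ≠ 2 →
    dsc A B ≠ 0 → (∀ i, InV (α i) ∧ Ev p (α i)) → (∀ i j, i ≠ j → ¬ IsSquare (α i * α j)) →
    ∃ t : Fin m → ℚ_[p], Function.Injective t ∧ ∀ i, t i ^ 3 + A * t i + B = 0

/-- **TWD.** Reduction to `D = 1`. The curve `E^D` is the curve of `(A D^2, B D^3)`; the ring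
isomorphism `L_{A,B} → L_{AD^2,BD^3}`, `θ ↦ θ/D`.
Proof. `κ(x + yθ + zθ^2) = x + (y/D) θ' + (z/D^2) θ'^2`, where `θ'^3 + A D^2 θ' + B D^3 = 0`, is a ring
isomorphism over `K`. It preserves norms, units, squares. `Aff D α` for `(A,B)`: `y^2 = D f(x)`,
`α D(x-θ)` a square. Put `x' = D x`, `y' = D y`: `y'^2 = D^2 D f(x) = x'^3 + AD^2 x' + BD^3` and
`κ(D(x-θ)) = D x - θ' = x' - θ'`. Conversely the same. `Ev`: if `D` is a unit of `Z_p` then `κ` maps
`L_{Z_p}` onto `L_{Z_p}`. `dsc (AD^2) (BD^3) = D^6 dsc A B`. -/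
def SpecTWD : Prop :=
  (∀ (K : Type) [Field K] [CharZero K] (A B D : ℤ), D ≠ 0 →
    ∃ κ : Lk K A B ≃+* Lk K (A * D ^ 2) (B * D ^ 3),
      (∀ α, InV (κ α) ↔ InV α) ∧ (∀ α, Aff 1 (κ α) ↔ Aff D α) ∧ ∀ α, IsSquare (κ α) ↔ IsSquare α) ∧
  (∀ (p : ℕ) [Fact p.Prime] (A B D : ℤ), D ≠ 0 →
    ∃ κ : Lk ℚ_[p] A B ≃+* Lk ℚ_[p] (A * D ^ 2) (B * D ^ 3),
      (∀ α, InV (κ α) ↔ InV α) ∧ (∀ α, Aff 1 (κ α) ↔ Aff D α) ∧
      (∀ α, IsSquare (κ α) ↔ IsSquare α) ∧ (¬ (p : ℤ) ∣ D → ∀ α, Ev p (κ α) ↔ Ev p α)) ∧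
  ∀ A B D : ℤ, dsc (A * D ^ 2) (B * D ^ 3) = D ^ 6 * dsc A B

/-- **LG.** Unit classes = Kummer classes, `p` odd, `p^2 ∤ D'`, `p ∤ D`.
Proof. By TWD we may assume `D = 1` (note `p^2 ∤ D^6 D'`). `←`: LG1. `→`: let `n` be the number of
roots of `f` in `Q_p`. LWB gives `n + 1` pairwise different classes `α_i` with `Aff 1`, hence `Ev`
(LG1). If `α` (`InV`, `Ev`) were different from all of them, UPB for the `n + 2` classes would give
`n + 1` roots, contradiction. So `α α_i` is a square for some `i`, `α = α_i γ^2`, `Aff 1 α` by AFI. -/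
def SpecLG : Prop :=
  ∀ (p : ℕ) [Fact p.Prime] (A B D : ℤ) (α : Lk ℚ_[p] A B), p ≠ 2 → dsc A B ≠ 0 →
    ¬ ((p : ℤ) ^ 2 ∣ dsc A B) → ¬ ((p : ℤ) ∣ D) → InV α → (Ev p α ↔ Aff D α)

end Pool.Agent.Lib.MP_8cb858_nt.PR
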