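import Pool.Agent.Lib.MP_8cb858_nt.PF.RF.All
import Pool.Agent.Lib.MP_8cb858_nt.PR.SpecA

/-!
# Specs, part E: the twisting step (assembly)

Throughout `(A, B)` is in `Fam Q`, `Q` a finite set of primes `1` modulo `8`, `Σ = sgm Q A B`.
-/

namespace Pool.Agent.Lib.MP_8cb858_nt.PR

open Polynomial NumberField Pool.Agent.Lib.MP_8cb858_nt.SEL
open scoped Classical

/-- first coordinate of a class in a hyperbolic plane -/
noncomputable def he {M : Type} (E : M → Prop) (α : M) : ZMod 2 := if E α then 0 else 1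

/-- second coordinate of a class in a hyperbolic plane -/
noncomputable def hs {M : Type} [CommRing M] (E I : M → Prop) (α : M) : ZMod 2 :=
  if E α then (if IsSquare α then 0 else 1) else (if I α then 0 else 1)

/-- the isotropic line `E` at `p`: the Kummer image of `y^2 = f(x)` -/
def EE {A B : ℤ} (p : ℕ) [Fact p.Prime] (β : Lk ℚ_[p] A B) : Prop :=
  if p = 2 then Aff 1 β else Ev p β

/-- `Σ = {2} ∪ Q ∪ {p | D'}` -/
def sgm (Q : Finset ℕ) (A B : ℤ) : Finset ℕ := insert 2 (Q ∪ (dsc A B).natAbs.primeFactors)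

/-- the coordinate `e_p` of a global class -/
noncomputable def ee {A B : ℤ} (p : ℕ) (α : Lk ℚ A B) : ZMod 2 :=
  if h : p.Prime then (haveI : Fact p.Prime := ⟨h⟩; he (EE p) (up A B ℚ_[p] α)) else 0

/-- the coordinate `s_p` of a global class -/
noncomputable def ss {A B : ℤ} (p : ℕ) (α : Lk ℚ A B) : ZMod 2 :=
  if h : p.Prime then (haveI : Fact p.Prime := ⟨h⟩; hs (EE p) Iso (up A B ℚ_[p] α)) else 0

/-- the classes which are unit classes outside `Σ` -/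
def Ell (Q : Finset ℕ) (A B : ℤ) : Set (Lk ℚ A B) :=
  {α | InV α ∧ ∀ (p : ℕ) (_ : Fact p.Prime), p ∉ sgm Q A B → Ev p (up A B ℚ_[p] α)}

/-- the set of places at which the second line is the Kummer image of `E^(σ pr T)` -/
def stt (σ : ℤ) (T : Finset ℕ) : Finset ℕ := if σ = 1 then T else insert 2 T

/-- the Selmer conditions in terms of the coordinates -/
def Cnd (Q : Finset ℕ) (S : Finset ℕ) {A B : ℤ} (α : Lk ℚ A B) : Prop :=
  ∀ p ∈ sgm Q A B, (p ∈ S → ss p α = 0) ∧ (p ∉ S → ee p α = 0)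

/-- **HYP.** Coordinates in a hyperbolic plane.
Proof. (1) `he`: both `E`: `c0`. None: `c1`. `E α`, not `E β`: if `E (αβ)` then by `c0` `E (α (αβ)) =
E (β α^2)`, so `E β` by `inv`, contradiction. (2) `hs`. Both `E`: then `E (αβ)`; two squares: the
product is a square; one square: the product is not (units); none: `c2`. `E α`, not `E β`: then not
`E (αβ)` by (1); `c4` for `αβ, β`: `(I (αβ) ↔ I β) ↔ IsSquare (αβ·β)`, and `αβ^2` is a square iff `α` is.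
None `E`: `E (αβ)` and `c4` for `α, β`. (3) if `E α` then `I α` (`c3`), product 0; otherwise `he = 1`.
(4), (5): definitions, and `one`: a square is in `E`. -/
def SpecHYP : Prop :=
  ∀ {M : Type} [CommRing M] (V E I : M → Prop), Hyp V E I → (∀ α, V α → IsUnit α) →
    (∀ α β, V α → V β → V (α * β)) → ∀ α β, V α → V β →
    he E (α * β) = he E α + he E β ∧ hs E I (α * β) = hs E I α + hs E I β ∧
    he E α * hs E I α = (if I α then 0 else 1) ∧ ((he E α = 0 ∧ hs E I α = 0) ↔ IsSquare α) ∧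
    (he E α = 0 ↔ E α) ∧ (hs E I α = 0 ↔ IsSquare α ∨ (¬ E α ∧ I α))

/-- **RTX.** If `-D'` is a nonresidue modulo `p ≥ 5` then `f` has a root in `Z_p`.
Proof. First modulo `p`. If `f` has no root in `F_p` it is irreducible; in the field
`k = F_p[X]/(f)` (of `p^3` elements) the root `r` and `r^p`, `r^(p^2)` are the three different roots
(Frobenius; `r^(p^3) = r`; not in `F_p`, so `r^p ≠ r`, and then all three differ). With
`δ = (r - r^p)(r^p - r^(p^2))(r^(p^2) - r)` one has `δ^p = δ`, so `δ` is in `F_p`, and `δ^2 = -D'`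
(discriminant identity for `t_0+t_1+t_2 = 0`, `e_2 = A`, `e_3 = -B`), contradiction. So there is
a root `x` mod `p`, and `f'(x) ≠ 0`, because otherwise `D' = 0` mod `p` (identity of RTS) and `0` is a
square. Hensel's lemma. -/
def SpecRTX : Prop :=
  ∀ (p : ℕ) [Fact p.Prime] (A B : ℤ), 5 ≤ p → ¬ IsSquare ((-dsc A B : ℤ) : ZMod p) →
    ∃ t : ℤ_[p], t ^ 3 + A * t + B = 0 ∧ IsUnit (3 * t ^ 2 + A)

/-- **FAC.** Elementary facts on the family.
Proof. `A > 0` gives `D' > 0`. `A`, `B` odd: `f` has no root mod 2, `D'` is odd. `A = 2`, `B ≠ 0` mod 3: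
`f = x^3 - x + B` has no root mod 3, `D' = 4A^3 = 4·8 ≠ 0` mod 3. So `p^2 ∤ D'` for all `p`. Elements
of `Σ` different from `2` are `≥ 5` (primes `1` mod `8` are `≥ 17`; prime factors of `D'` are not 2, 3). For
`p` in `Q`: `-D'` is a nonresidue, in particular `p ∤ D'`. `pr T` is `1` mod `8`, and for a prime `p`:
`p | pr T` iff `p ∈ T`, and `p^2 ∤ pr T`. For `p` in `Σ`, `p ≠ 2` there is a simple root mod `p`: RTX for
`p` in `Q`; if `p | D'`, `p ≥ 5`: if `p | A` then `p | B` (`p ≥ 5`, `p | 27 B^2`) and `p^2 | D'`; so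
`A ≠ 0`, and `x = 3B/A` satisfies `f(x) = B (27B^2 + 4A^3)/A^3 = 0` and
`f'(x) = (27B^2 + A^3)/A^2 = -3A^3/A^2 = -3A ≠ 0`. -/
structure SpecFAC : Prop where
  pos : ∀ {Q : Finset ℕ} {A B : ℤ}, (A, B) ∈ Fam Q → 0 < A ∧ 0 < dsc A B
  two : ∀ {Q : Finset ℕ} {A B : ℤ}, (A, B) ∈ Fam Q → ∀ x : ZMod 2, x ^ 3 + A * x + B ≠ 0
  thr : ∀ {Q : Finset ℕ} {A B : ℤ}, (A, B) ∈ Fam Q → ∀ x : ZMod 3, x ^ 3 + A * x + B ≠ 0
  sqf : ∀ {Q : Finset ℕ} {A B : ℤ}, (A, B) ∈ Fam Q → ∀ p : ℕ, p.Prime → ¬ (p : ℤ) ^ 2 ∣ dsc A B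
  sg5 : ∀ {Q : Finset ℕ} {A B : ℤ}, (∀ p ∈ Q, p.Prime ∧ p % 8 = 1) → (A, B) ∈ Fam Q →
    ∀ p ∈ sgm Q A B, p.Prime ∧ (p ≠ 2 → 5 ≤ p ∧ (¬ IsSquare ((-dsc A B : ℤ) : ZMod p) ∨
      ((p : ℤ) ∣ dsc A B ∧ ¬ (p : ℤ) ^ 2 ∣ dsc A B)) ∧
      ∃ x : ZMod p, x ^ 3 + A * x + B = 0 ∧ 3 * x ^ 2 + A ≠ 0)
  sgd : ∀ {Q : Finset ℕ} {A B : ℤ}, (A, B) ∈ Fam Q → ∀ p : ℕ, p.Prime → (p : ℤ) ∣ dsc A B →
    p ∈ sgm Q A B
  prT : ∀ {Q T : Finset ℕ}, (∀ p ∈ Q, p.Prime ∧ p % 8 = 1) → T ⊆ Q → pr T % 8 = 1 ∧ 0 < pr T ∧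
    ∀ p : ℕ, p.Prime → ((p : ℤ) ∣ pr T ↔ p ∈ T) ∧ ¬ (p : ℤ) ^ 2 ∣ pr T

/-- **HAP.** The planes at the places of `Σ`: `EE p` is a hyperbolic plane; coordinates of global
classes are additive.
Proof. `p = 2`: SpecL2; `p ≠ 2`: SpecLS (with FAC `sg5`). HYP with `V = InV` (INV). -/
def SpecHAP : Prop :=
  ∀ (Q : Finset ℕ) (A B : ℤ), (∀ p ∈ Q, p.Prime ∧ p % 8 = 1) → (A, B) ∈ Fam Q →
    ∀ p ∈ sgm Q A B, ∀ α β : Lk ℚ A B, InV α → InV β →
      ee p (α * β) = ee p α + ee p β ∧ ss p (α * β) = ss p α + ss p β ∧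
      ∀ _ : Fact p.Prime, ee p α * ss p α = (if Iso (up A B ℚ_[p] α) then 0 else 1) ∧
        ((ee p α = 0 ∧ ss p α = 0) ↔ IsSquare (up A B ℚ_[p] α)) ∧
        (ee p α = 0 ↔ EE p (up A B ℚ_[p] α)) ∧
        (ss p α = 0 ↔ IsSquare (up A B ℚ_[p] α) ∨
          (¬ EE p (up A B ℚ_[p] α) ∧ Iso (up A B ℚ_[p] α)))

/-- **SLC.** The local conditions of the 2-Selmer group of `E^D`, `D = σ pr T`.
Proof. Let `InV α` (it is part of both sides). Real place: SpecLI. `p ∉ Σ`: `p` is odd, `p ∤ D`,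
`p^2 ∤ D'`: `Aff D ↔ Ev p` (LG). `p ∈ Σ`, `p ≠ 2`, `p ∉ T`: `p ∤ D`, `Aff D ↔ Ev p ↔ e_p = 0`. `p ∈ T`: LT
(`-D'` nonresidue, `p | D`, `p^2 ∤ D`): `Aff D ↔ s_p = 0` (HAP). `p = 2`: `D = 1` or `7` mod `8` according
to `σ`: SpecL2 and HAP (`EE 2 = Aff 1`). -/
def SpecSLC : Prop :=
  ∀ (Q T : Finset ℕ) (A B σ : ℤ), (∀ p ∈ Q, p.Prime ∧ p % 8 = 1) → (A, B) ∈ Fam Q → T ⊆ Q →
    (σ = 1 ∨ σ = -1) → ∀ α : Lk ℚ A B,
    α ∈ SelSet A B (σ * pr T) ↔ α ∈ Ell Q A B ∧ Cnd Q (stt σ T) α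

/-- **RCE.** Reciprocity on `Ell`.
Proof. SpecREC. `Iso` holds at the real place (LI), and at `p ∉ Σ`: `Ev p`, so `Aff 1` by LG, so `Iso` by
AFI. So the set of REC is the set of the `p` in `Σ` with `¬ Iso`, and its cardinality is, modulo 2, the
sum of `e_p s_p` (HAP). -/
def SpecRCE : Prop :=
  ∀ (Q : Finset ℕ) (A B : ℤ), (∀ p ∈ Q, p.Prime ∧ p % 8 = 1) → (A, B) ∈ Fam Q →
    ∀ α ∈ Ell Q A B, ∑ p ∈ sgm Q A B, ee p α * ss p α = 0

/-- **ELF.** `Ell` is a group containing the squares of units. Proof: INV, EVF. -/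
def SpecELF : Prop :=
  ∀ (Q : Finset ℕ) (A B : ℤ), (1 : Lk ℚ A B) ∈ Ell Q A B ∧
    ∀ α ∈ Ell Q A B, ∀ β ∈ Ell Q A B, α * β ∈ Ell Q A B

/-- **RP0.** Formal consequences of BR. Proof. `1` is in `SelSet` (AFO; at the real place LI),
so `Rep 1 z` for some `z`, `mul`, `uni`: `z + z = z`, `z = 0`. If `Rep α 0` then `IsSquare (α·1)` by
`inj`. If `α` is a square (of a unit) and `InV`, `Rep α 0` by `sqr`. -/
def SpecRP0 : Prop :=
  ∀ (A B D : ℤ), 0 < A → dsc A B ≠ 0 → D ≠ 0 →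
    Rep D (1 : Lk ℚ A B) (0 : Sel 2 (cur A B D)) ∧
    ∀ (α : Lk ℚ A B) (z : Sel 2 (cur A B D)), Rep D α z → (z = 0 ↔ IsSquare α)

/-- **TVS.** `Triv` is the vanishing of `s_p`.
Proof. `p ∈ Q`, `p ∉ T`; `Rep D α z` implies `α ∈ SelSet` (BR `sel`), so `e_p(α) = 0` (SLC, `p ∉ stt σ T`
as `p ≠ 2`), `Ev p (up α)`. `→`: let `α', t` be as in `Triv`. `α α' = γ^2` (BR `inj`), so
`ev t α · ev t α'` is a square (EVA), both are nonzero (units), so `ev t α` is a square, and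
`ev (Rat.castHom) t α = ev id t (up α)` (EVA `upv`); LR: `up α` is a square, so `s_p = 0` (HAP). `←`:
`e_p = s_p = 0`: `up α` is a square; take `t` from RTX; `ev t α` is a square. -/
def SpecTVS : Prop :=
  ∀ (Q T : Finset ℕ) (A B σ : ℤ), (∀ p ∈ Q, p.Prime ∧ p % 8 = 1) → (A, B) ∈ Fam Q → T ⊆ Q →
    (σ = 1 ∨ σ = -1) → ∀ p ∈ Q, p ∉ T → ∀ (α : Lk ℚ A B) (z : Sel 2 (cur A B (σ * pr T))),
    Rep (σ * pr T) α z → (Triv (σ * pr T) p z ↔ ss p α = 0)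

/-- **KRN.** For good `(A, B)` the coordinates are injective on `Ell` modulo squares.
Proof. All `e_p = 0`: `α ∈ SelSet A B 1` by SLC (`T = ∅`, `σ = 1`, `pr ∅ = 1`), so `Rep 1 α z` (BR `ex`);
`Triv 1 p z` for all `p ∈ Q` by TVS; so `z = 0` and `α` is a square by RP0. -/
def SpecKRN : Prop :=
  ∀ (Q : Finset ℕ) (A B : ℤ), (∀ p ∈ Q, p.Prime ∧ p % 8 = 1) → (A, B) ∈ Fam Q →
    (∀ z : Sel 2 (cur A B 1), (∀ p ∈ Q, Triv 1 p z) → z = 0) →
    ∀ α ∈ Ell Q A B, (∀ p ∈ sgm Q A B, ee p α = 0 ∧ ss p α = 0) → IsSquare α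

/-- **WGR.** The subgroup `W` of the vectors of coordinates, for good `(A, B)`.
Proof. `W` = image of `Ell` (ELF, HAP; every element is its own negative). Isotropy: RCE. Size: `F`
from SpecSU (hypotheses by FAC) is contained in `Ell`, and `F → W` is injective: if `α ≠ β` in `F` have
the same vector then `αβ` has vector `0`, and is a square by KRN, contradiction. -/
def SpecWGR : Prop :=
  ∀ (Q : Finset ℕ) (A B : ℤ), (∀ p ∈ Q, p.Prime ∧ p % 8 = 1) → (A, B) ∈ Fam Q →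
    (∀ z : Sel 2 (cur A B 1), (∀ p ∈ Q, Triv 1 p z) → z = 0) →
    ∃ W : AddSubgroup ({p // p ∈ sgm Q A B} → ZMod 2 × ZMod 2),
      (∀ w, w ∈ W ↔ ∃ α ∈ Ell Q A B, ∀ v, w v = (ee v.1 α, ss v.1 α)) ∧
      (∀ w ∈ W, ∑ v, (w v).1 * (w v).2 = 0) ∧
      2 ^ Fintype.card {p // p ∈ sgm Q A B} ≤ Nat.card W

/-- **CRD.** For good `(A, B)` the Selmer group of the twist is counted by vectors.
Proof. Map `z` to the vector of any `α` with `Rep D α z` (`surj`). Well defined: if `Rep β z` too, `αβ` is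
a square, so its vector is 0 (it is a square at all `p`, HAP), and the vectors agree (HAP). It satisfies
the condition by `sel` and SLC. Injective: equal vectors of `α, β` (`Rep α z`, `Rep β w`): `αβ` is in
`Ell` with vector 0, a square by KRN; `Rep (αβ) (z + w)`, so `z + w = 0` (RP0), `z = w` (`w + w = 0`).
Surjective: a vector in `W` satisfying the condition is that of some `α` in `Ell` with `Cnd`, so
`α ∈ SelSet` (SLC), `Rep α z` (`ex`). -/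
def SpecCRD : Prop :=
  ∀ (Q : Finset ℕ) (A B : ℤ), (∀ p ∈ Q, p.Prime ∧ p % 8 = 1) → (A, B) ∈ Fam Q →
    (∀ z : Sel 2 (cur A B 1), (∀ p ∈ Q, Triv 1 p z) → z = 0) →
    ∀ (T : Finset ℕ) (σ : ℤ), T ⊆ Q → (σ = 1 ∨ σ = -1) →
    Nat.card (Sel 2 (cur A B (σ * pr T))) =
      {w : {p // p ∈ sgm Q A B} → ZMod 2 × ZMod 2 |
        (∃ α ∈ Ell Q A B, ∀ v, w v = (ee v.1 α, ss v.1 α)) ∧
        (∀ v, v.1 ∉ stt σ T → (w v).1 = 0) ∧ ∀ v, v.1 ∈ stt σ T → (w v).2 = 0}.ncard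

/-- **SFN.** Finiteness of the Selmer groups, from row 169 (`SEL.SpecMAIN` for `F = ℚ`, a box
containing `(A D^2, B D^3)`), and `z + z = 0` (values in `E[2]`). -/
def SpecSFN : Prop :=
  ∀ (A B D : ℤ), dsc A B ≠ 0 → D ≠ 0 →
    Finite (Sel 2 (cur A B D)) ∧ ∀ z : Sel 2 (cur A B D), z + z = 0

/-- **TRF.** SpecTRA. Proof. SFN. Additivity: choose `α, β` with `Rep α z`, `Rep β w`, `Rep (αβ) (z+w)`;
TVS three times and additivity of `ss p` (HAP): in `ZMod 2`, `s + s' = 0 ↔ (s = 0 ↔ s' = 0)`. -/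
def SpecTRF : Prop := SpecTRA

/-- **STF.** SpecSTP.
Proof. WGR, LAL with `ι = Σ` (subtype), `S` = the elements of `Σ` in `stt σ T`, `v = p`; the sets of
LAL are those of CRD for `T` and `insert p T` (`stt σ (insert p T) = insert p (stt σ T)`; `p ≠ 2`).
The condition `∀ w ∈ W_S, (w v).2 = 0` is `∀ z, Triv p z` by TVS (each `z` has an `α`, each vector in
`W_S` comes from a `z`). The last claim: `T = ∅`, `S = ∅`, `v = 2`: `stt 1 ∅ = ∅`, `stt (-1) ∅ = {2}`,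
`pr ∅ = 1`. -/
def SpecSTF : Prop := SpecSTP

end Pool.Agent.Lib.MP_8cb858_nt.PR
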