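import Pool.Agent.Lib.MP_8cb858_nt.PR.SpecG

section
/-!
# POPA: the averaging over the layers, abstractly
-/
set_option autoImplicit false

namespace Pool.Agent.Lib.MP_8cb858_nt.PR

namespace POPM

/-- the averages over the population and the choices converge to the law -/
theorem average (hTSF : SpecTSF) {κ : Type} [DecidableEq κ] {P0 : ℕ} {δ : ℝ} {n : ℕ}
    {L : ℕ → Finset ℕ} (hL : Lay P0 δ n L) (G : Finset κ) (hG : 0 < G.card)
    (s : κ → ℤ → Finset ℕ → ℕ) {η C0 : ℝ} (hη : 0 ≤ η)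
    (hpar : ∀ q ∈ G, (-1 : ℝ) ^ (s q 1 ∅) + (-1 : ℝ) ^ (s q (-1) ∅) = 0)
    (hmom : ∑ q ∈ G, ((2 : ℝ) ^ (s q 1 ∅) + (2 : ℝ) ^ (s q (-1) ∅)) ≤ C0 * (2 * G.card))
    (unb : ℕ → Finset ℕ → ℤ → κ → Prop)
    (hstep : ∀ j < n, ∀ T ∈ Ts L j, ∀ σ ∈ ({1, -1} : Finset ℤ), ∀ q ∈ G, ¬ unb j T σ q →
      ∀ f : ℕ → ℝ, (∀ k, |f k| ≤ 1) →
        |∑ p ∈ L j, f (s q σ (insert p T)) - (L j).card * Mop f (s q σ T)| ≤ 2 * η * (L j).card)
    (hunb : ∀ j < n, ∀ T ∈ Ts L j, ∀ σ ∈ ({1, -1} : Finset ℤ),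
      ∃ B : Finset κ, (∀ q ∈ G, unb j T σ q → q ∈ B) ∧ (B.card : ℝ) ≤ η * G.card)
    (f : ℕ → ℝ) (hf : ∀ k, |f k| ≤ 1) :
    |∑ T ∈ Ts L n, ∑ σ ∈ ({1, -1} : Finset ℤ), ∑ q ∈ G, f (s q σ T) -
      (∑' d, C2 d * f d) * (2 * (Ts L n).card * G.card)| ≤
      (n * (4 * η) + (1 / 2) ^ n * (2 * (C0 + 3))) * (2 * (Ts L n).card * G.card) := by
  classical
  have hg : (0 : ℝ) < G.card := by exact_mod_cast hG
  -- the averages
  let Lf : ℕ → (ℕ → ℝ) → ℝ := fun j f =>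
    (∑ T ∈ Ts L j, ∑ σ ∈ ({1, -1} : Finset ℤ), ∑ q ∈ G, f (s q σ T)) /
      (2 * (Ts L j).card * G.card)
  have hsum : ∀ F : ℤ → ℝ, ∑ σ ∈ ({1, -1} : Finset ℤ), F σ = F 1 + F (-1) := by
    intro F
    rw [Finset.sum_pair (by decide)]
  have hMpos : ∀ j ≤ n, (0 : ℝ) < (Ts L j).card := fun j hj => by
    exact_mod_cast (hTSF.pos hL j hj).card_pos
  -- the population
  let Ω := {x : κ × Bool // x ∈ G ×ˢ (Finset.univ : Finset Bool)}
  have hΩ : Fintype.card Ω = 2 * G.card := by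
    rw [Fintype.card_coe, Finset.card_product]
    simp [mul_comm]
  let sg : Bool → ℤ := fun b => if b then 1 else -1
  have hsumΩ : ∀ F : ℕ → ℝ, ∑ ω : Ω, F (s ω.1.1 (sg ω.1.2) ∅) =
      ∑ q ∈ G, (F (s q 1 ∅) + F (s q (-1) ∅)) := by
    intro F
    rw [Finset.sum_coe_sort (G ×ˢ (Finset.univ : Finset Bool))
      (fun x => F (s x.1 (sg x.2) ∅)), Finset.sum_product]
    refine Finset.sum_congr rfl fun q _ => ?_
    rw [Fintype.sum_bool]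
    rfl
  have h0 : ∀ f, Lf 0 f = (∑ ω : Ω, f (s ω.1.1 (sg ω.1.2) ∅)) / Fintype.card Ω := by
    intro f
    rw [hsumΩ, hΩ]
    show (∑ T ∈ Ts L 0, ∑ σ ∈ ({1, -1} : Finset ℤ), ∑ q ∈ G, f (s q σ T)) /
      (2 * (Ts L 0).card * G.card) = _
    have e : Ts L 0 = {∅} := rfl
    rw [e, Finset.sum_singleton, Finset.card_singleton, hsum, ← Finset.sum_add_distrib]
    push_cast
    ring
  have hstep' : ∀ j < n, ∀ f : ℕ → ℝ, (∀ k, |f k| ≤ 1) →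
      |Lf (j + 1) f - Lf j (Mop f)| ≤ 4 * η := by
    intro j hj f hf
    have hN : (0 : ℝ) < (L j).card := by exact_mod_cast (hL.ne j hj).card_pos
    have hM := hMpos j hj.le
    have e1 : Lf (j + 1) f - Lf j (Mop f) =
        (∑ T ∈ Ts L j, ∑ σ ∈ ({1, -1} : Finset ℤ), ∑ q ∈ G,
          (∑ p ∈ L j, f (s q σ (insert p T)) - (L j).card * Mop f (s q σ T))) /
          (2 * (Ts L j).card * G.card * (L j).card) := by
      show (∑ T ∈ Ts L (j + 1), ∑ σ ∈ ({1, -1} : Finset ℤ), ∑ q ∈ G, f (s q σ T)) /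
        (2 * (Ts L (j + 1)).card * G.card) -
        (∑ T ∈ Ts L j, ∑ σ ∈ ({1, -1} : Finset ℤ), ∑ q ∈ G, Mop f (s q σ T)) /
        (2 * (Ts L j).card * G.card) = _
      rw [hTSF.sum hL j hj, hTSF.card hL j hj]
      have e2 : ∀ T, ∑ p ∈ L j, ∑ σ ∈ ({1, -1} : Finset ℤ), ∑ q ∈ G, f (s q σ (insert p T)) =
          ∑ σ ∈ ({1, -1} : Finset ℤ), ∑ q ∈ G, ∑ p ∈ L j, f (s q σ (insert p T)) := by
        intro T
        rw [Finset.sum_comm]
        refine Finset.sum_congr rfl fun σ _ => ?_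
        rw [Finset.sum_comm]
      simp_rw [e2, Finset.sum_sub_distrib, ← Finset.mul_sum]
      push_cast
      field_simp
    rw [e1, abs_div, abs_of_pos (show (0 : ℝ) < 2 * (Ts L j).card * G.card * (L j).card by
      positivity), div_le_iff₀ (by positivity)]
    have hT : ∀ T ∈ Ts L j, ∀ σ ∈ ({1, -1} : Finset ℤ),
        |∑ q ∈ G, (∑ p ∈ L j, f (s q σ (insert p T)) - (L j).card * Mop f (s q σ T))| ≤
          4 * η * (G.card * (L j).card) := by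
      intro T hT σ hσ
      obtain ⟨B, hB, hBc⟩ := hunb j hj T hT σ hσ
      have h1 : ∀ q ∈ G, |∑ p ∈ L j, f (s q σ (insert p T)) - (L j).card * Mop f (s q σ T)| ≤
          2 * η * (L j).card + if q ∈ B then 2 * ((L j).card : ℝ) else 0 := by
        intro q hq
        by_cases hu : unb j T σ q
        · rw [if_pos (hB q hq hu)]
          have a : |∑ p ∈ L j, f (s q σ (insert p T))| ≤ (L j).card := by
            refine (Finset.abs_sum_le_sum_abs _ _).trans ?_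
            refine (Finset.sum_le_sum fun p _ => hf _).trans ?_
            simp
          have b : |((L j).card : ℝ) * Mop f (s q σ T)| ≤ (L j).card := by
            rw [abs_mul, abs_of_pos hN]
            have := MKM.Mop_bdd hf (s q σ T)
            nlinarith
          have c := abs_sub (∑ p ∈ L j, f (s q σ (insert p T)))
            (((L j).card : ℝ) * Mop f (s q σ T))
          have d : 0 ≤ 2 * η * (L j).card := by positivity
          linarith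
        · have a := hstep j hj T hT σ hσ q hq hu f hf
          split_ifs
          · linarith
          · linarith
      calc |∑ q ∈ G, (∑ p ∈ L j, f (s q σ (insert p T)) - (L j).card * Mop f (s q σ T))|
          ≤ ∑ q ∈ G, (2 * η * (L j).card + if q ∈ B then 2 * ((L j).card : ℝ) else 0) :=
            (Finset.abs_sum_le_sum_abs _ _).trans (Finset.sum_le_sum h1)
        _ = G.card * (2 * η * (L j).card) + (G.filter (· ∈ B)).card * (2 * (L j).card) := by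
            rw [Finset.sum_add_distrib, Finset.sum_const, nsmul_eq_mul, ← Finset.sum_filter,
              Finset.sum_const, nsmul_eq_mul]
        _ ≤ G.card * (2 * η * (L j).card) + (η * G.card) * (2 * (L j).card) := by
            have : ((G.filter (· ∈ B)).card : ℝ) ≤ B.card := by
              exact_mod_cast Finset.card_le_card fun x hx => (Finset.mem_filter.1 hx).2
            have h3 := this.trans hBc
            gcongr
        _ = 4 * η * (G.card * (L j).card) := by ring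
    calc |∑ T ∈ Ts L j, ∑ σ ∈ ({1, -1} : Finset ℤ), ∑ q ∈ G,
          (∑ p ∈ L j, f (s q σ (insert p T)) - (L j).card * Mop f (s q σ T))|
        ≤ ∑ T ∈ Ts L j, ∑ σ ∈ ({1, -1} : Finset ℤ), 4 * η * (G.card * (L j).card) := by
          refine (Finset.abs_sum_le_sum_abs _ _).trans (Finset.sum_le_sum fun T hT' => ?_)
          exact (Finset.abs_sum_le_sum_abs _ _).trans (Finset.sum_le_sum fun σ hσ => hT T hT' σ hσ)
      _ = 4 * η * (2 * (Ts L j).card * G.card * (L j).card) := by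
          rw [Finset.sum_const, hsum, nsmul_eq_mul]
          ring
  have hmk := mk_main (Ω := Ω) (fun ω => s ω.1.1 (sg ω.1.2) ∅) (C0 := C0) (δ := 4 * η) n Lf h0
    (by rw [hΩ]; omega)
    (by
      have := hsumΩ (fun k => (-1 : ℝ) ^ k)
      rw [this]
      exact Finset.sum_eq_zero hpar)
    (by
      have := hsumΩ (fun k => (2 : ℝ) ^ k)
      rw [this, hΩ]
      push_cast
      exact hmom)
    hstep' f hf
  have hpos : (0 : ℝ) < 2 * (Ts L n).card * G.card := by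
    have := hMpos n le_rfl
    positivity
  have e3 : ∑ T ∈ Ts L n, ∑ σ ∈ ({1, -1} : Finset ℤ), ∑ q ∈ G, f (s q σ T) =
      Lf n f * (2 * (Ts L n).card * G.card) := by
    show _ = (∑ T ∈ Ts L n, ∑ σ ∈ ({1, -1} : Finset ℤ), ∑ q ∈ G, f (s q σ T)) /
      (2 * (Ts L n).card * G.card) * (2 * (Ts L n).card * G.card)
    rw [div_mul_cancel₀ _ hpos.ne']
  rw [e3, ← sub_mul, abs_mul, abs_of_pos hpos]
  exact mul_le_mul_of_nonneg_right hmk hpos.le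

end POPM

end Pool.Agent.Lib.MP_8cb858_nt.PR
end

section
/-!
# POPB: finite counting lemmas
-/
set_option autoImplicit false

namespace Pool.Agent.Lib.MP_8cb858_nt.PR

open Module

namespace POPM

/-- a finite group killed by 2 has a power of 2 elements -/
theorem card_two {G : Type} [AddCommGroup G] [Finite G] (h : ∀ z : G, z + z = 0) :
    ∃ s, Nat.card G = 2 ^ s := by
  let _ : Module (ZMod 2) G := AddCommGroup.zmodModule fun x => by rw [two_nsmul]; exact h x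
  exact ⟨finrank (ZMod 2) G, by rw [Module.natCard_eq_pow_finrank (K := ZMod 2)]; simp⟩

theorem card_log {G : Type} [AddCommGroup G] [Finite G] (h : ∀ z : G, z + z = 0) :
    Nat.card G = 2 ^ Nat.log 2 (Nat.card G) := by
  obtain ⟨s, hs⟩ := card_two h
  rw [hs, Nat.log_pow (by norm_num)]

/-- counting the members which carry an element with a property -/
theorem count_ex {κ : Type} {S : κ → Type} (F : Finset κ) (P : (Σ q, S q) → Prop)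
    (hfin : {z : Σ q, S q | z.1 ∈ (F : Set κ) ∧ P z}.Finite) :
    ∃ B : Finset κ, (∀ q ∈ F, (∃ z : S q, P ⟨q, z⟩) → q ∈ B) ∧ B ⊆ F ∧
      B.card ≤ {z : Σ q, S q | z.1 ∈ (F : Set κ) ∧ P z}.ncard := by
  classical
  refine ⟨F.filter (fun q => ∃ z : S q, P ⟨q, z⟩), fun q hq h => Finset.mem_filter.2 ⟨hq, h⟩,
    Finset.filter_subset _ _, ?_⟩
  rw [← Set.ncard_coe_finset]
  refine (Set.ncard_le_ncard ?_ (hfin.image Sigma.fst)).trans (Set.ncard_image_le hfin)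
  intro q hq
  obtain ⟨hq1, z, hz⟩ := Finset.mem_filter.1 (Finset.mem_coe.1 hq)
  exact ⟨⟨q, z⟩, ⟨Finset.mem_coe.2 hq1, hz⟩, rfl⟩

/-- the number of nonzero elements -/
theorem count_sum {κ : Type} {S : κ → Type} (F : Finset κ) (o : ∀ q, S q)
    (hf : ∀ q ∈ F, Finite (S q))
    (hfin : {z : Σ q, S q | z.1 ∈ (F : Set κ) ∧ z.2 ≠ o z.1}.Finite) :
    ∑ q ∈ F, (Nat.card (S q) - 1) ≤ {z : Σ q, S q | z.1 ∈ (F : Set κ) ∧ z.2 ≠ o z.1}.ncard := by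
  classical
  rw [Set.ncard_eq_toFinset_card _ hfin]
  rw [Finset.card_eq_sum_card_fiberwise (f := fun z : Σ q, S q => z.1) (t := F)]
  · refine Finset.sum_le_sum fun q hq => ?_
    have := hf q hq
    have h1 : Nat.card (S q) - 1 = {z : S q | z ≠ o q}.ncard := by
      have h2 : {z : S q | z ≠ o q} = {o q}ᶜ := by ext; simp
      rw [h2, Set.ncard_compl, Set.ncard_singleton]
    rw [h1, ← Set.ncard_coe_finset,
      ← Set.ncard_image_of_injective _ (sigma_mk_injective (i := q))]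
    refine Set.ncard_le_ncard ?_ (Finset.finite_toSet _)
    rintro _ ⟨z, hz, rfl⟩
    rw [Finset.mem_coe, Finset.mem_filter, Set.Finite.mem_toFinset]
    exact ⟨⟨Finset.mem_coe.2 hq, hz⟩, rfl⟩
  · intro z hz
    exact (hfin.mem_toFinset.1 hz).1

end POPM

end Pool.Agent.Lib.MP_8cb858_nt.PR
end

section
/-!
# POP: the distribution in the population of all twists
-/
set_option autoImplicit false

namespace Pool.Agent.Lib.MP_8cb858_nt.PR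

open Pool.Agent.Lib.MP_8cb858_nt.SEL Filter
open scoped Classical

namespace POPM

/-- the set of FMQ -/
def FS (Q Q' T : Finset ℕ) (σ : ℤ) (Z : Finset (Finset ℕ)) (Y : ℝ) :
    Set (Σ q : ℤ × ℤ, Sel 2 (cur q.1 q.2 (σ * pr T))) :=
  {z | z.1 ∈ Fam Q ∩ Ht Y ∧ z.2 ≠ 0 ∧ Q'.filter (fun p => ¬ Triv (σ * pr T) p z.2) ∈ Z}

theorem pr_empty : pr ∅ = 1 := by simp [pr]

/-- the unbalanced subsets -/
noncomputable def Zs (P : Finset ℕ) (η : ℝ) : Finset (Finset ℕ) :=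
  P.powerset.filter (fun z => η * P.card < |(P.card : ℝ) - 2 * z.card|)

/-- the members with an unbalanced element -/
def Unb (L : ℕ → Finset ℕ) (η : ℝ) (j : ℕ) (T : Finset ℕ) (σ : ℤ) (q : ℤ × ℤ) : Prop :=
  ∃ z : Sel 2 (cur q.1 q.2 (σ * pr T)), z ≠ 0 ∧
    (L j).filter (fun p => ¬ Triv (σ * pr T) p z) ∈ Zs (L j) η

theorem dl_pos {p : ℕ} (hp : 1 < p) : 0 < dl p := by
  unfold dl
  have : (1 : ℝ) < p := by exact_mod_cast hp
  have h1 : 1 / (p : ℝ) < 1 := by rw [div_lt_one (by linarith)]; exact this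
  linarith

/-- structure of the Selmer groups -/
theorem sel_card (hTRA : SpecTRA) {Q T : Finset ℕ} {q : ℤ × ℤ} {σ : ℤ}
    (hQ : ∀ p ∈ Q, p.Prime ∧ p % 8 = 1) (hq : q ∈ Fam Q) (hT : T ⊆ Q) (hσ : σ = 1 ∨ σ = -1) :
    Nat.card (Sel 2 (cur q.1 q.2 (σ * pr T))) = 2 ^ sd q (σ * pr T) := by
  obtain ⟨h1, h2, _⟩ := hTRA Q T q.1 q.2 σ hQ hq hT hσ
  exact card_log h2

theorem pow_inj {a b : ℕ} (h : 2 ^ a = 2 ^ b) : a = b := Nat.pow_right_injective le_rfl h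

/-- the step of the chain -/
theorem step (hTRA : SpecTRA) (hSTP : SpecSTP) (hSGL : SpecSGL) {Q T P : Finset ℕ} {q : ℤ × ℤ}
    {σ : ℤ} (hQ : ∀ p ∈ Q, p.Prime ∧ p % 8 = 1) (hq : q ∈ Fam Q) (hT : T ⊆ Q) (hP : P ⊆ Q)
    (hPT : Disjoint P T) (hσ : σ = 1 ∨ σ = -1)
    (hgood : ∀ z : Sel 2 (cur q.1 q.2 1), (∀ p ∈ Q, Triv 1 p z) → z = 0) {η : ℝ} (hη : 0 ≤ η)
    (hbal : ∀ z : Sel 2 (cur q.1 q.2 (σ * pr T)), z ≠ 0 → |(P.card : ℝ) -
      2 * ((P.filter (fun p => ¬ Triv (σ * pr T) p z)).card : ℝ)| ≤ η * P.card)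
    (f : ℕ → ℝ) (hf : ∀ k, |f k| ≤ 1) :
    |∑ p ∈ P, f (sd q (σ * pr (insert p T))) - P.card * Mop f (sd q (σ * pr T))| ≤
      2 * η * P.card := by

  obtain ⟨h1, h2, h3⟩ := hTRA Q T q.1 q.2 σ hQ hq hT hσ
  have hcard := sel_card hTRA hQ hq hT hσ
  have hstp := (hSTP Q q.1 q.2 hQ hq hgood).1 T hT
  have hins : ∀ p ∈ P, Nat.card (Sel 2 (cur q.1 q.2 (σ * pr (insert p T)))) =
      2 ^ sd q (σ * pr (insert p T)) := fun p hp =>
    sel_card hTRA hQ hq (Finset.insert_subset (hP hp) hT) hσ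
  have hnot : ∀ p ∈ P, p ∉ T := fun p hp => Finset.disjoint_left.1 hPT hp
  refine hSGL (Sel 2 (cur q.1 q.2 (σ * pr T))) P (fun p z => Triv (σ * pr T) p z)
    (sd q (σ * pr T)) (fun p => sd q (σ * pr (insert p T))) η f hη h2 hcard ?_ ?_ ?_ ?_ hf
  · intro p hp z w
    exact h3 p (hP hp) (hnot p hp) z w
  · intro p hp h
    have := (hstp p (hP hp) (hnot p hp) σ hσ).1 h
    rw [hins p hp, hcard] at this
    exact this
  · intro p hp h
    have := (hstp p (hP hp) (hnot p hp) σ hσ).2 h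
    rw [hins p hp, hcard] at this
    exact this
  · intro z hz
    convert hbal z hz

/-- parity -/
theorem parity (hTRA : SpecTRA) (hSTP : SpecSTP) {Q : Finset ℕ} {q : ℤ × ℤ}
    (hQ : ∀ p ∈ Q, p.Prime ∧ p % 8 = 1) (hq : q ∈ Fam Q)
    (hgood : ∀ z : Sel 2 (cur q.1 q.2 1), (∀ p ∈ Q, Triv 1 p z) → z = 0) :
    (-1 : ℝ) ^ sd q (1 * pr ∅) + (-1 : ℝ) ^ sd q (-1 * pr ∅) = 0 := by
  have h1 := sel_card hTRA hQ hq (Finset.empty_subset Q) (σ := 1) (Or.inl rfl)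
  have h2 := sel_card hTRA hQ hq (Finset.empty_subset Q) (σ := -1) (Or.inr rfl)
  have h3 := (hSTP Q q.1 q.2 hQ hq hgood).2
  rw [pr_empty, mul_one] at h1 h2
  rw [pr_empty, mul_one, mul_one]
  rw [h1, h2] at h3
  rcases h3 with h | h
  · have : sd q (-1) = sd q 1 + 1 := pow_inj (by rw [h, pow_succ, mul_comm])
    rw [this, pow_succ]
    ring
  · have : sd q 1 = sd q (-1) + 1 := pow_inj (by rw [← h, pow_succ, mul_comm])
    rw [this, pow_succ]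
    ring

theorem num_unb {C c η N K x : ℝ} (hc : 0 < c) (hη : 0 < η) (hN : 0 < N)
    (h : 2 * C * K / (c * η ^ 2) * x ≤ η * N) : C * K * x * (1 / (η ^ 2 * N)) ≤ η / 2 * c := by
  rw [mul_one_div, div_le_iff₀ (by positivity)]
  rw [div_mul_eq_mul_div, div_le_iff₀ (by positivity)] at h
  linarith

theorem num_ngd {C c η N M K : ℝ} (hC : 0 < C) (hc : 0 < c) (hη : 0 < η) (hη1 : η ≤ 1)
    (hK : 1 ≤ K) (hNM : N ≤ M) (hM : 0 < M)
    (h : 2 * C * K / (c * η ^ 2) ≤ η * N) : C / M ≤ η / 2 * c := by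
  rw [div_le_iff₀ hM]
  rw [div_le_iff₀ (by positivity)] at h
  have h1 : 2 * C ≤ 2 * C * K := by
    have : 0 < 2 * C := by positivity
    nlinarith
  have h2 : η * N * (c * η ^ 2) ≤ η * M * (c * 1) := by
    have : η ^ 2 ≤ 1 := pow_le_one₀ hη.le hη1
    gcongr
  linarith

theorem num_mom {C c W g : ℝ} (hC : 0 < C) (hc : 0 < c) (h : c * W ≤ 2 * g) :
    C * W ≤ 2 * C / c * g := by
  rw [div_mul_eq_mul_div, le_div_iff₀ hc]
  nlinarith

theorem cnt {κ : Type} [DecidableEq κ] {F B G : Finset κ} (hG : G = F \ B) (hB : B ⊆ F)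
    (P : κ → Prop) [DecidablePred P] (s : κ → ℕ) {d : ℕ} (hP : ∀ q ∈ G, (P q ↔ s q = d)) :
    |((F.filter P).card : ℝ) - ∑ q ∈ G, (if s q = d then (1 : ℝ) else 0)| ≤ B.card := by
  have h1 : ∑ q ∈ G, (if s q = d then (1 : ℝ) else 0) = (G.filter P).card := by
    rw [Finset.card_filter]
    push_cast
    refine Finset.sum_congr rfl fun q hq => ?_
    by_cases h : s q = d
    · rw [if_pos h, if_pos ((hP q hq).2 h)]
    · rw [if_neg h, if_neg fun h' => h ((hP q hq).1 h')]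
  have h2 : F.filter P = G.filter P ∪ B.filter P := by
    rw [← Finset.filter_union, hG, Finset.sdiff_union_of_subset hB]
  have h3 : Disjoint (G.filter P) (B.filter P) := by
    rw [hG]
    exact Finset.disjoint_filter_filter Finset.sdiff_disjoint
  rw [h1, h2, Finset.card_union_of_disjoint h3]
  push_cast
  rw [add_sub_cancel_left, abs_of_nonneg (Nat.cast_nonneg _)]
  exact_mod_cast Finset.card_filter_le _ _

theorem num_fin {SF SG lw M F B g κ η ε : ℝ} (hM : 0 ≤ M) (hF : 0 ≤ F) (hB0 : 0 ≤ B)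
    (hl0 : 0 ≤ lw) (hl1 : lw ≤ 1) (h1 : |SF - SG| ≤ 2 * M * B)
    (h2 : |SG - lw * (2 * M * g)| ≤ κ * (2 * M * g)) (hg : g = F - B) (hB : B ≤ η / 2 * F)
    (hκ0 : 0 ≤ κ) (hκ : η + κ ≤ ε) : |SF - lw * (2 * M * F)| ≤ ε * (2 * M * F) := by
  have h3 : |lw * (2 * M * g) - lw * (2 * M * F)| ≤ 2 * M * B := by
    have e : lw * (2 * M * g) - lw * (2 * M * F) = -(lw * (2 * M * B)) := by rw [hg]; ring
    have h0 : 0 ≤ 2 * M * B := by positivity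
    rw [e, abs_neg, abs_of_nonneg (by positivity)]
    nlinarith
  have h4 : κ * (2 * M * g) ≤ κ * (2 * M * F) := by
    have : g ≤ F := by linarith
    gcongr
  have h5 : 2 * M * B ≤ η / 2 * (2 * M * F) := by
    calc 2 * M * B ≤ 2 * M * (η / 2 * F) := by gcongr
      _ = η / 2 * (2 * M * F) := by ring
  have h6 : (η + κ) * (2 * M * F) ≤ ε * (2 * M * F) := by gcongr
  have a := abs_sub_le SF SG (lw * (2 * M * F))
  have b := abs_sub_le SG (lw * (2 * M * g)) (lw * (2 * M * F))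
  calc |SF - lw * (2 * M * F)| ≤ 2 * M * B + κ * (2 * M * g) + 2 * M * B := by linarith
    _ ≤ (η + κ) * (2 * M * F) := by
        have e : (η + κ) * (2 * M * F) = η / 2 * (2 * M * F) + κ * (2 * M * F) +
          η / 2 * (2 * M * F) := by ring
        rw [e]
        linarith
    _ ≤ ε * (2 * M * F) := h6

theorem good_tr {q : ℤ × ℤ} {Q Q' : Finset ℕ} (hQ' : Q' ⊆ Q)
    (h : ¬ ∃ z : Sel 2 (cur q.1 q.2 (1 * pr ∅)), z ≠ 0 ∧
      Q'.filter (fun p => ¬ Triv (1 * pr ∅) p z) ∈ ({∅} : Finset (Finset ℕ))) :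
    ∀ z : Sel 2 (cur q.1 q.2 1), (∀ p ∈ Q, Triv 1 p z) → z = 0 := by
  have e : (1 : ℤ) * pr ∅ = 1 := by rw [pr_empty, mul_one]
  rw [e] at h
  intro z hz
  by_contra hne
  refine h ⟨z, hne, ?_⟩
  rw [Finset.mem_singleton, Finset.filter_eq_empty_iff]
  intro p hp
  rw [not_not]
  exact hz p (hQ' hp)

/-- the moment -/
theorem moment (hTRA : SpecTRA) {Q : Finset ℕ} (hQ : ∀ p ∈ Q, p.Prime ∧ p % 8 = 1) {Y b : ℝ}
    {F G : Finset (ℤ × ℤ)} (hF : (F : Set (ℤ × ℤ)) = Fam Q ∩ Ht Y) (hGF : G ⊆ F) {σ : ℤ}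
    (hσ : σ = 1 ∨ σ = -1) (hfin : (FS Q ∅ ∅ σ {∅} Y).Finite)
    (hb : ((FS Q ∅ ∅ σ {∅} Y).ncard : ℝ) ≤ b) :
    ∑ q ∈ G, (2 : ℝ) ^ sd q (σ * pr ∅) ≤ G.card + b := by
  have hFm : ∀ q ∈ F, q ∈ Fam Q := fun q hq => by
    have : q ∈ (F : Set (ℤ × ℤ)) := hq
    rw [hF] at this
    exact this.1
  have hset : FS Q ∅ ∅ σ {∅} Y =
      {z : Σ q : ℤ × ℤ, Sel 2 (cur q.1 q.2 (σ * pr ∅)) | z.1 ∈ (F : Set (ℤ × ℤ)) ∧ z.2 ≠ 0} := by
    ext z
    rw [hF]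
    simp [FS]
  rw [hset] at hfin hb
  have h1 := count_sum (S := fun q : ℤ × ℤ => Sel 2 (cur q.1 q.2 (σ * pr ∅))) F (fun q => 0)
    (fun q hq => (hTRA Q ∅ q.1 q.2 σ hQ (hFm q hq) (Finset.empty_subset _) hσ).1) hfin
  have h2 : ∑ q ∈ G, (Nat.card (Sel 2 (cur q.1 q.2 (σ * pr ∅))) - 1) ≤
      ∑ q ∈ F, (Nat.card (Sel 2 (cur q.1 q.2 (σ * pr ∅))) - 1) :=
    Finset.sum_le_sum_of_subset hGF
  have h3 : ∀ q ∈ G, (2 : ℝ) ^ sd q (σ * pr ∅) =
      1 + ((Nat.card (Sel 2 (cur q.1 q.2 (σ * pr ∅))) - 1 : ℕ) : ℝ) := by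
    intro q hq
    rw [sel_card hTRA hQ (hFm q (hGF hq)) (Finset.empty_subset _) hσ]
    have h4 : 1 ≤ 2 ^ sd q (σ * pr ∅) := Nat.one_le_two_pow
    rw [Nat.cast_sub h4]
    push_cast
    ring
  rw [Finset.sum_congr rfl h3, Finset.sum_add_distrib, Finset.sum_const, nsmul_eq_mul, mul_one]
  have h5 : ((∑ q ∈ G, (Nat.card (Sel 2 (cur q.1 q.2 (σ * pr ∅))) - 1) : ℕ) : ℝ) ≤ b :=
    le_trans (by exact_mod_cast h2.trans h1) hb
  push_cast at h5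
  linarith


theorem sum_diff {ι : Type} (U : Finset ι) (N s : ι → ℤ → ℝ) (b : ℝ)
    (h : ∀ T ∈ U, ∀ σ ∈ ({1, -1} : Finset ℤ), |N T σ - s T σ| ≤ b) :
    |∑ T ∈ U, ∑ σ ∈ ({1, -1} : Finset ℤ), N T σ - ∑ T ∈ U, ∑ σ ∈ ({1, -1} : Finset ℤ), s T σ| ≤
      2 * U.card * b := by
  rw [← Finset.sum_sub_distrib]
  calc |∑ T ∈ U, (∑ σ ∈ ({1, -1} : Finset ℤ), N T σ - ∑ σ ∈ ({1, -1} : Finset ℤ), s T σ)|
      ≤ ∑ T ∈ U, ∑ σ ∈ ({1, -1} : Finset ℤ), b := by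
        refine (Finset.abs_sum_le_sum_abs _ _).trans (Finset.sum_le_sum fun T hT => ?_)
        rw [← Finset.sum_sub_distrib]
        exact (Finset.abs_sum_le_sum_abs _ _).trans
          (Finset.sum_le_sum fun σ hσ' => h T hT σ hσ')
    _ = 2 * U.card * b := by
        rw [Finset.sum_const, Finset.sum_const, nsmul_eq_mul, nsmul_eq_mul,
          Finset.card_pair (by decide)]
        push_cast
        ring

/-- the average in the population of the good members -/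
theorem mainav (hTRA : SpecTRA) (hSTP : SpecSTP) (hSGL : SpecSGL) (hTSF : SpecTSF)
    (hLAW : SpecLAW) {P0 : ℕ} {δ : ℝ} {n : ℕ} {L : ℕ → Finset ℕ} (hL : Lay P0 δ n L)
    (hQ : ∀ p ∈ Un L n, p.Prime ∧ p % 8 = 1) {G : Finset (ℤ × ℤ)} (hGpos : 0 < G.card)
    (hFm : ∀ q ∈ G, q ∈ Fam (Un L n))
    (hgood : ∀ q ∈ G, ∀ z : Sel 2 (cur q.1 q.2 1), (∀ p ∈ Un L n, Triv 1 p z) → z = 0)
    {η C1 : ℝ} (hη : 0 ≤ η)
    (hm1 : ∑ q ∈ G, (2 : ℝ) ^ sd q (1 * pr ∅) ≤ G.card + C1 * G.card)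
    (hm2 : ∑ q ∈ G, (2 : ℝ) ^ sd q (-1 * pr ∅) ≤ G.card + C1 * G.card)
    (hunb : ∀ j < n, ∀ T ∈ Ts L j, ∀ σ ∈ ({1, -1} : Finset ℤ),
      ∃ B : Finset (ℤ × ℤ), (∀ q ∈ G, Unb L η j T σ q → q ∈ B) ∧ (B.card : ℝ) ≤ η * G.card)
    (d : ℕ) :
    |∑ T ∈ Ts L n, ∑ σ ∈ ({1, -1} : Finset ℤ), ∑ q ∈ G,
        (if sd q (σ * pr T) = d then (1 : ℝ) else 0) - law d * (2 * (Ts L n).card * G.card)| ≤
      (n * (4 * η) + (1 / 2) ^ n * (2 * (1 + C1 + 3))) * (2 * (Ts L n).card * G.card) := by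
  have hσ : ∀ σ ∈ ({1, -1} : Finset ℤ), σ = 1 ∨ σ = -1 := fun σ h => by simpa using h
  have hLQ : ∀ j < n, L j ⊆ Un L n := fun j hj => by
    unfold Un
    exact Finset.subset_biUnion_of_mem L (Finset.mem_range.2 hj)
  have hav := average hTSF hL G hGpos (fun q σ T => sd q (σ * pr T))
    (η := η) (C0 := 1 + C1) hη
    (fun q hq => parity hTRA hSTP hQ (hFm q hq) (hgood q hq))
    (by
      rw [Finset.sum_add_distrib]
      linarith)
    (Unb L η)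
    (by
      intro j hj T hT σ hσ' q hq hnu f hf
      have hTs := hTSF.sub hL j hj.le T hT
      refine step hTRA hSTP hSGL hQ (hFm q hq) hTs.2.2.1 (hLQ j hj)
        (hTs.2.2.2 j le_rfl hj) (hσ σ hσ') (hgood q hq) hη ?_ f hf
      intro z hz
      by_contra hcon
      refine hnu ⟨z, hz, ?_⟩
      unfold Zs
      rw [Finset.mem_filter, Finset.mem_powerset]
      exact ⟨Finset.filter_subset _ _, not_le.1 hcon⟩)
    hunb
    (fun k => if k = d then 1 else 0) (by intro k; split_ifs <;> simp)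
  have hlaw : ∑' k, C2 k * (if k = d then (1 : ℝ) else 0) = law d := by
    rw [hLAW]
    simp [tsum_ite_eq]
  rw [hlaw] at hav
  exact hav

/-- the members with an unbalanced element are few -/
theorem unbcount {Q : Finset ℕ} {L : ℕ → Finset ℕ} {η Y : ℝ} {F : Finset (ℤ × ℤ)}
    (hF : (F : Set (ℤ × ℤ)) = Fam Q ∩ Ht Y) {j : ℕ} {T : Finset ℕ} {σ : ℤ}
    (hfin : (FS Q (L j) T σ (Zs (L j) η) Y).Finite) :
    ∃ B : Finset (ℤ × ℤ), (∀ q ∈ F, Unb L η j T σ q → q ∈ B) ∧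
      B.card ≤ (FS Q (L j) T σ (Zs (L j) η) Y).ncard := by
  obtain ⟨B', hB1', _, hB3'⟩ := count_ex
    (S := fun q : ℤ × ℤ => Sel 2 (cur q.1 q.2 (σ * pr T))) F
    (fun z => z.2 ≠ 0 ∧ (L j).filter (fun p => ¬ Triv (σ * pr T) p z.2) ∈ Zs (L j) η)
    (by rw [hF]; exact hfin)
  rw [hF] at hB3'
  exact ⟨B', fun q hq h => hB1' q hq h, hB3'⟩

theorem badcount {Q Q' : Finset ℕ} {Y : ℝ} {F : Finset (ℤ × ℤ)}
    (hF : (F : Set (ℤ × ℤ)) = Fam Q ∩ Ht Y) (hfin : (FS Q Q' ∅ 1 {∅} Y).Finite) :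
    ∃ B : Finset (ℤ × ℤ), (∀ q ∈ F, (∃ z : Sel 2 (cur q.1 q.2 (1 * pr ∅)), z ≠ 0 ∧
      Q'.filter (fun p => ¬ Triv (1 * pr ∅) p z) ∈ ({∅} : Finset (Finset ℕ))) → q ∈ B) ∧ B ⊆ F ∧
      B.card ≤ (FS Q Q' ∅ 1 {∅} Y).ncard := by
  obtain ⟨B, hB1, hB2, hB3⟩ := count_ex
    (S := fun q : ℤ × ℤ => Sel 2 (cur q.1 q.2 (1 * pr ∅))) F
    (fun z => z.2 ≠ 0 ∧ Q'.filter (fun p => ¬ Triv (1 * pr ∅) p z.2) ∈
      ({∅} : Finset (Finset ℕ))) (by rw [hF]; exact hfin)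
  rw [hF] at hB3
  exact ⟨B, hB1, hB2, hB3⟩

/-- counting one term -/
theorem cntterm (hTRA : SpecTRA) {Q T : Finset ℕ} (hQ : ∀ p ∈ Q, p.Prime ∧ p % 8 = 1) {Y : ℝ}
    {F B G : Finset (ℤ × ℤ)} (hF : (F : Set (ℤ × ℤ)) = Fam Q ∩ Ht Y) (hG : G = F \ B)
    (hB : B ⊆ F) (hFm : ∀ q ∈ F, q ∈ Fam Q) (hT : T ⊆ Q) {σ : ℤ} (hσ : σ = 1 ∨ σ = -1) (d : ℕ) :
    |({q ∈ Fam Q ∩ Ht Y | Nat.card (Sel 2 (cur q.1 q.2 (σ * pr T))) = 2 ^ d}.ncard : ℝ) -
        ∑ q ∈ G, (if sd q (σ * pr T) = d then (1 : ℝ) else 0)| ≤ B.card := by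
  have e : {q ∈ Fam Q ∩ Ht Y | Nat.card (Sel 2 (cur q.1 q.2 (σ * pr T))) = 2 ^ d} =
      (F.filter (fun q => Nat.card (Sel 2 (cur q.1 q.2 (σ * pr T))) = 2 ^ d) : Set (ℤ × ℤ)) := by
    rw [Finset.coe_filter, ← hF]
    rfl
  rw [e, Set.ncard_coe_finset]
  refine cnt hG hB (fun q => Nat.card (Sel 2 (cur q.1 q.2 (σ * pr T))) = 2 ^ d)
    (fun q => sd q (σ * pr T)) fun q hq => ?_
  have hqF : q ∈ F := by
    rw [hG] at hq
    exact (Finset.mem_sdiff.1 hq).1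
  rw [sel_card hTRA hQ (hFm q hqF) hT hσ]
  exact ⟨fun h => pow_inj h, fun h => by rw [h]⟩

theorem partB {m C c η N W f : ℝ} (hC : 0 < C) (hc : 0 < c) (hη : 0 < η) (hη1 : η ≤ 1)
    {n k : ℕ} (hN : N = k) (h : m ≤ C * (1 / 2 ^ k) * W) (hW : 0 < W) (hf : c * W ≤ f)
    (h2 : 2 * C * 3 ^ n / (c * η ^ 2) ≤ η * N) : m ≤ η / 2 * f := by
  have h3 : N ≤ 2 ^ k := by
    rw [hN]
    exact_mod_cast (Nat.lt_two_pow_self (n := k)).le
  have h4 : (1 : ℝ) ≤ 3 ^ n := one_le_pow₀ (by norm_num)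
  have h5 : (0 : ℝ) < 2 ^ k := by positivity
  have h6 : C / 2 ^ k ≤ η / 2 * c := num_ngd hC hc hη hη1 h4 h3 h5 h2
  calc m ≤ C * (1 / 2 ^ k) * W := h
    _ = C / 2 ^ k * W := by ring
    _ ≤ η / 2 * c * W := by gcongr
    _ = η / 2 * (c * W) := by ring
    _ ≤ η / 2 * f := by gcongr

theorem partU {m C c η N W g x z : ℝ} {t n k : ℕ} (hC : 0 < C) (hc : 0 < c) (hη : 0 < η)
    (hN : 0 < N) (hx : 0 ≤ x) (ht : t ≤ n) (hW : 0 < W) (hg : c * W ≤ 2 * g)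
    (h : m ≤ C * 3 ^ t * x ^ 5 * (z / 2 ^ k) * W) (h2 : z / 2 ^ k ≤ 1 / (η ^ 2 * N))
    (h3 : 2 * C * 3 ^ n / (c * η ^ 2) * x ^ 5 ≤ η * N) : m ≤ η * g := by
  have h4 : (3 : ℝ) ^ t ≤ 3 ^ n := pow_le_pow_right₀ (by norm_num) ht
  have h5 : C * 3 ^ n * x ^ 5 * (1 / (η ^ 2 * N)) ≤ η / 2 * c := num_unb hc hη hN h3
  calc m ≤ C * 3 ^ t * x ^ 5 * (z / 2 ^ k) * W := h
    _ ≤ C * 3 ^ t * x ^ 5 * (1 / (η ^ 2 * N)) * W := by gcongr
    _ ≤ C * 3 ^ n * x ^ 5 * (1 / (η ^ 2 * N)) * W := by gcongr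
    _ ≤ η / 2 * c * W := by gcongr
    _ = η / 2 * (c * W) := by ring
    _ ≤ η / 2 * (2 * g) := by gcongr
    _ = η * g := by ring

/-- everything for one `Y` -/
theorem fixedY (hTRA : SpecTRA) (hSTP : SpecSTP) (hSGL : SpecSGL) (hCHB : SpecCHB)
    (hTSF : SpecTSF) (hLAW : SpecLAW) {P0 : ℕ} {δ : ℝ} {n : ℕ} {L : ℕ → Finset ℕ}
    (hL : Lay P0 δ n L) (hn1 : 1 ≤ n) (hQ : ∀ p ∈ Un L n, p.Prime ∧ p % 8 = 1)
    {C c η ε Y W : ℝ} (hC : 0 < C) (hc : 0 < c) (hη0 : 0 < η) (hη1 : η ≤ 1)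
    (hηε : η * (8 * (n + 1)) ≤ ε) (hn : (1 / 2 : ℝ) ^ n * (2 * (1 + 2 * C / c + 3)) ≤ ε / 4)
    (hLA : ∀ j < n, ∀ T ∈ Ts L j,
      2 * C * 3 ^ n / (c * η ^ 2) * (pr T : ℝ) ^ 5 ≤ η * (L j).card)
    (hfin : (Fam (Un L n) ∩ Ht Y).Finite) (hW : 0 < W)
    (hE0 : c * W ≤ (Fam (Un L n) ∩ Ht Y).ncard)
    (hE1 : (FS (Un L n) (L 0) ∅ 1 {∅} Y).Finite ∧
      ((FS (Un L n) (L 0) ∅ 1 {∅} Y).ncard : ℝ) ≤ C * (1 / 2 ^ (L 0).card) * W)
    (hE2 : ∀ σ ∈ ({1, -1} : Finset ℤ), (FS (Un L n) ∅ ∅ σ {∅} Y).Finite ∧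
      ((FS (Un L n) ∅ ∅ σ {∅} Y).ncard : ℝ) ≤ C * W)
    (hE3 : ∀ j < n, ∀ T ∈ Ts L j, ∀ σ ∈ ({1, -1} : Finset ℤ),
      (FS (Un L n) (L j) T σ (Zs (L j) η) Y).Finite ∧
      ((FS (Un L n) (L j) T σ (Zs (L j) η) Y).ncard : ℝ) ≤
        C * 3 ^ T.card * (pr T : ℝ) ^ 5 * ((Zs (L j) η).card / 2 ^ (L j).card) * W)
    (d : ℕ) :
    |∑ T ∈ Ts L n, ∑ σ ∈ ({1, -1} : Finset ℤ), ({q ∈ Fam (Un L n) ∩ Ht Y |
          Nat.card (Sel 2 (cur q.1 q.2 (σ * pr T))) = 2 ^ d}.ncard : ℝ) -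
        law d * (2 * (Ts L n).card * (Fam (Un L n) ∩ Ht Y).ncard)| ≤
      ε * (2 * (Ts L n).card * (Fam (Un L n) ∩ Ht Y).ncard) := by
  obtain ⟨F, hF⟩ : ∃ F : Finset (ℤ × ℤ), (F : Set (ℤ × ℤ)) = Fam (Un L n) ∩ Ht Y :=
    ⟨hfin.toFinset, hfin.coe_toFinset⟩
  have hFm : ∀ q ∈ F, q ∈ Fam (Un L n) := fun q hq => by
    have : q ∈ (F : Set (ℤ × ℤ)) := hq
    rw [hF] at this
    exact this.1
  have hcardF : ((Fam (Un L n) ∩ Ht Y).ncard : ℝ) = F.card := by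
    rw [← hF, Set.ncard_coe_finset]
  have hFW : c * W ≤ F.card := by rw [← hcardF]; exact hE0
  have hLQ : ∀ j < n, L j ⊆ Un L n := fun j hj => by
    unfold Un
    exact Finset.subset_biUnion_of_mem L (Finset.mem_range.2 hj)
  -- the members which are not good
  obtain ⟨B, hB1, hB2, hB3⟩ := badcount hF hE1.1
  have hB4 : (B.card : ℝ) ≤ η / 2 * F.card := by
    have h2 := hLA 0 (by omega) ∅ (Finset.mem_singleton_self ∅)
    rw [pr_empty] at h2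
    push_cast at h2
    rw [one_pow, mul_one] at h2
    exact partB hC hc hη0 hη1 rfl (le_trans (by exact_mod_cast hB3) hE1.2) hW hFW h2
  -- the good ones
  obtain ⟨G, hG⟩ : ∃ G : Finset (ℤ × ℤ), G = F \ B := ⟨_, rfl⟩
  have hGF : G ⊆ F := hG ▸ Finset.sdiff_subset
  have hGc : (G.card : ℝ) = F.card - B.card := by
    rw [hG, Finset.card_sdiff_of_subset hB2, Nat.cast_sub (Finset.card_le_card hB2)]
  have hFpos : (0 : ℝ) < F.card := lt_of_lt_of_le (by positivity) hFW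
  have hGhalf : (F.card : ℝ) ≤ 2 * G.card := by
    rw [hGc]
    nlinarith
  have hGpos : (0 : ℝ) < G.card := by linarith
  have hgood : ∀ q ∈ G, ∀ z : Sel 2 (cur q.1 q.2 1), (∀ p ∈ Un L n, Triv 1 p z) → z = 0 := by
    intro q hq
    rw [hG, Finset.mem_sdiff] at hq
    refine good_tr (Q' := L 0) (hLQ 0 (by omega)) fun hex => hq.2 (hB1 q hq.1 hex)
  have hσ : ∀ σ ∈ ({1, -1} : Finset ℤ), σ = 1 ∨ σ = -1 := fun σ h => by simpa using h
  have hb : ∀ σ ∈ ({1, -1} : Finset ℤ), ((FS (Un L n) ∅ ∅ σ {∅} Y).ncard : ℝ) ≤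
      2 * C / c * G.card := fun σ hσ' =>
    (hE2 σ hσ').2.trans (num_mom hC hc (hFW.trans hGhalf))
  have hav := mainav hTRA hSTP hSGL hTSF hLAW hL hQ (by exact_mod_cast hGpos)
    (fun q hq => hFm q (hGF hq)) hgood (C1 := 2 * C / c) hη0.le
    (moment hTRA hQ hF hGF (σ := 1) (Or.inl rfl) (hE2 1 (by simp)).1 (hb 1 (by simp)))
    (moment hTRA hQ hF hGF (σ := -1) (Or.inr rfl) (hE2 (-1) (by simp)).1 (hb (-1) (by simp)))
    (by
      intro j hj T hT σ hσ'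
      have hTs := hTSF.sub hL j hj.le T hT
      obtain ⟨hE4, hE5⟩ := hE3 j hj T hT σ hσ'
      obtain ⟨B', hB1', hB3'⟩ := unbcount hF hE4
      refine ⟨B', fun q hq h => hB1' q (hGF hq) h, ?_⟩
      have hN : (0 : ℝ) < (L j).card := by exact_mod_cast (hL.ne j hj).card_pos
      have hpr : (0 : ℝ) ≤ pr T := by
        unfold pr
        push_cast
        positivity
      exact partU (n := n) hC hc hη0 hN hpr (by rw [hTs.2.1]; exact hj.le) hW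
        (hFW.trans hGhalf) (le_trans (by exact_mod_cast hB3') hE5)
        (hCHB (L j) η hη0 (hL.ne j hj)) (hLA j hj T hT))
    d
  have hl0 : 0 ≤ law d := by rw [hLAW]; exact (MKM.C2_pos d).le
  have hl1 : law d ≤ 1 := by
    rw [hLAW]
    exact le_hasSum C2_sum d fun k _ => (MKM.C2_pos k).le
  rw [hcardF]
  have hdiff := sum_diff (Ts L n) (fun T σ => ({q ∈ Fam (Un L n) ∩ Ht Y |
          Nat.card (Sel 2 (cur q.1 q.2 (σ * pr T))) = 2 ^ d}.ncard : ℝ))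
    (fun T σ => ∑ q ∈ G, (if sd q (σ * pr T) = d then (1 : ℝ) else 0)) B.card
    (fun T hT σ hσ' => cntterm hTRA hQ hF hG hB2 hFm (hTSF.sub hL n le_rfl T hT).1
      (hσ σ hσ') d)
  have hfinal : η + (n * (4 * η) + (1 / 2) ^ n * (2 * (1 + 2 * C / c + 3))) ≤ ε := by
    have h1 : (n : ℝ) * (4 * η) + η ≤ ε / 2 := by nlinarith
    have hε : 0 ≤ ε := le_trans (by positivity) hηε
    linarith
  exact num_fin (Nat.cast_nonneg _) (Nat.cast_nonneg _) (Nat.cast_nonneg _) hl0 hl1 hdiff hav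
    hGc hB4 (by positivity) hfinal

end POPM

open POPM

/-- POP -/
theorem specPOP (hTRA : SpecTRA) (hSTP : SpecSTP) (hFMQ : SpecFMQ) (hDEN : SpecDEN)
    (hSGL : SpecSGL) (hCHB : SpecCHB) (hTSF : SpecTSF) (hLYR : SpecLYR) (hLAW : SpecLAW) :
    SpecPOP := by
  obtain ⟨C, P0, hC, hFM⟩ := hFMQ
  obtain ⟨hHfin, _, ⟨c, hc, hlow⟩, _⟩ := hDEN
  intro ε hε
  -- the number of layers
  obtain ⟨n, hn1, hn⟩ : ∃ n : ℕ, 1 ≤ n ∧ (1 / 2 : ℝ) ^ n * (2 * (1 + 2 * C / c + 3)) ≤ ε / 4 := by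
    have hK : 0 < 2 * (1 + 2 * C / c + 3) := by positivity
    obtain ⟨m, hm⟩ := exists_pow_lt_of_lt_one (show 0 < ε / 4 / (2 * (1 + 2 * C / c + 3)) by
      positivity) (show (1 / 2 : ℝ) < 1 by norm_num)
    refine ⟨m + 1, by omega, ?_⟩
    rw [lt_div_iff₀ hK] at hm
    have h1 : (1 / 2 : ℝ) ^ (m + 1) ≤ (1 / 2) ^ m :=
      pow_le_pow_of_le_one (by norm_num) (by norm_num) (by omega)
    nlinarith
  refine ⟨n, fun δ hδ => ?_⟩
  obtain ⟨η, hη0, hη1, hηε⟩ : ∃ η : ℝ, 0 < η ∧ η ≤ 1 ∧ η * (8 * (n + 1)) ≤ ε := by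
    refine ⟨min 1 (ε / (8 * (n + 1))), by positivity, min_le_left _ _, ?_⟩
    have h1 : min 1 (ε / (8 * ((n : ℝ) + 1))) ≤ ε / (8 * (n + 1)) := min_le_right _ _
    have h2 : (0 : ℝ) < 8 * (n + 1) := by positivity
    rwa [le_div_iff₀ h2] at h1
  obtain ⟨L, hL, hLA⟩ := hLYR (max P0 3) n δ (2 * C * 3 ^ n / (c * η ^ 2)) η hδ hη0
    (by positivity)
  refine ⟨L, ⟨fun j hj p hp => ⟨(hL.pri j hj p hp).1, (hL.pri j hj p hp).2.1,
    (le_max_right _ _).trans_lt (hL.pri j hj p hp).2.2⟩, hL.ne, hL.dis, hL.sht, hL.sum⟩, ?_⟩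
  have hQ3 : ∀ p ∈ Un L n, p.Prime ∧ p % 8 = 1 ∧ max P0 3 < p := by
    intro p hp
    unfold Un at hp
    obtain ⟨j, hj, hpj⟩ := Finset.mem_biUnion.1 hp
    exact hL.pri j (Finset.mem_range.1 hj) p hpj
  have hQ : ∀ p ∈ Un L n, p.Prime ∧ p % 8 = 1 := fun p hp => ⟨(hQ3 p hp).1, (hQ3 p hp).2.1⟩
  have hQP : ∀ p ∈ Un L n, p.Prime ∧ p % 8 = 1 ∧ P0 < p := fun p hp =>
    ⟨(hQ3 p hp).1, (hQ3 p hp).2.1, (le_max_left _ _).trans_lt (hQ3 p hp).2.2⟩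
  have hQ5 : ∀ p ∈ Un L n, p.Prime ∧ 5 ≤ p := by
    intro p hp
    refine ⟨(hQ3 p hp).1, ?_⟩
    have h1 := (hQ3 p hp).2.1
    have h2 := (le_max_right P0 3).trans_lt (hQ3 p hp).2.2
    omega
  have hLQ : ∀ j < n, L j ⊆ Un L n := fun j hj => by
    unfold Un
    exact Finset.subset_biUnion_of_mem L (Finset.mem_range.2 hj)
  have hdl : 0 < ∏ p ∈ Un L n, dl p := Finset.prod_pos fun p hp => dl_pos (hQ3 p hp).1.one_lt
  -- the events
  have ev0 : ∀ᶠ Y : ℝ in atTop, c * (∏ p ∈ Un L n, dl p) * Y ^ (5 / 6 : ℝ) ≤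
      ((Fam (Un L n) ∩ Ht Y).ncard : ℝ) := by
    obtain ⟨X0, hX0⟩ := hlow (Un L n) hQ5
    exact eventually_atTop.2 ⟨X0, hX0⟩
  have evF : ∀ (Q' T : Finset ℕ) (σ : ℤ) (Z : Finset (Finset ℕ)), (σ = 1 ∨ σ = -1) →
      T ⊆ Un L n → Q' ⊆ Un L n → Disjoint Q' T → (∀ z ∈ Z, z ⊆ Q') →
      ∀ᶠ Y : ℝ in atTop, (FS (Un L n) Q' T σ Z Y).Finite ∧
        ((FS (Un L n) Q' T σ Z Y).ncard : ℝ) ≤
        C * 3 ^ T.card * (pr T : ℝ) ^ 5 * ((Z.card : ℝ) / 2 ^ Q'.card) *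
          (∏ p ∈ Un L n, dl p) * Y ^ (5 / 6 : ℝ) := by
    intro Q' T σ Z hσ hT hQ' hd hZ
    obtain ⟨Y0, hY0⟩ := hFM (Un L n) Q' T σ Z hσ hQP hL.sum hT hQ' hd hZ
    exact eventually_atTop.2 ⟨Y0, hY0⟩
  have ev1 := evF (L 0) ∅ 1 {∅} (Or.inl rfl) (Finset.empty_subset _) (hLQ 0 (by omega))
    (Finset.disjoint_empty_right _) (by simp)
  have ev2 : ∀ᶠ Y : ℝ in atTop, ∀ σ ∈ ({1, -1} : Finset ℤ), (FS (Un L n) ∅ ∅ σ {∅} Y).Finite ∧
        ((FS (Un L n) ∅ ∅ σ {∅} Y).ncard : ℝ) ≤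
        C * 3 ^ (∅ : Finset ℕ).card * (pr ∅ : ℝ) ^ 5 *
          ((({∅} : Finset (Finset ℕ)).card : ℝ) / 2 ^ (∅ : Finset ℕ).card) *
          (∏ p ∈ Un L n, dl p) * Y ^ (5 / 6 : ℝ) := by
    rw [Filter.eventually_all_finset]
    intro σ hσ
    exact evF ∅ ∅ σ {∅} (by simpa using hσ) (Finset.empty_subset _) (Finset.empty_subset _)
      (Finset.disjoint_empty_right _) (by simp)
  have ev3 : ∀ᶠ Y : ℝ in atTop, ∀ j ∈ Finset.range n, ∀ T ∈ Ts L j, ∀ σ ∈ ({1, -1} : Finset ℤ),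
      (FS (Un L n) (L j) T σ (Zs (L j) η) Y).Finite ∧
      ((FS (Un L n) (L j) T σ (Zs (L j) η) Y).ncard : ℝ) ≤
        C * 3 ^ T.card * (pr T : ℝ) ^ 5 * (((Zs (L j) η).card : ℝ) /
          2 ^ (L j).card) * (∏ p ∈ Un L n, dl p) * Y ^ (5 / 6 : ℝ) := by
    rw [Filter.eventually_all_finset]
    intro j hj
    rw [Filter.eventually_all_finset]
    intro T hT
    rw [Filter.eventually_all_finset]
    intro σ hσ
    have hj' := Finset.mem_range.1 hj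
    have hTs := hTSF.sub hL j hj'.le T hT
    refine evF (L j) T σ _ (by simpa using hσ) hTs.2.2.1 (hLQ j hj') (hTs.2.2.2 j le_rfl hj') ?_
    intro z hz
    unfold Zs at hz
    exact Finset.mem_powerset.1 (Finset.mem_filter.1 hz).1
  obtain ⟨Y0, hY0⟩ := eventually_atTop.1 (ev0.and (ev1.and (ev2.and (ev3.and
    (eventually_ge_atTop (1 : ℝ))))))
  refine ⟨Y0, fun Y hY d => ?_⟩
  obtain ⟨hE0, hE1, hE2, hE3, hY1⟩ := hY0 Y hY
  refine fixedY hTRA hSTP hSGL hCHB hTSF hLAW hL hn1 hQ hC hc hη0 hη1 hηε hn hLA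
    ((hHfin Y).inter_of_right _) (W := (∏ p ∈ Un L n, dl p) * Y ^ (5 / 6 : ℝ))
    (mul_pos hdl (Real.rpow_pos_of_pos (by linarith) _)) ?_ ?_ ?_ ?_ d
  · rw [← mul_assoc]
    exact hE0
  · refine ⟨hE1.1, hE1.2.trans_eq ?_⟩
    rw [pr_empty, Finset.card_empty, Finset.card_singleton]
    push_cast
    ring
  · intro σ hσ
    refine ⟨(hE2 σ hσ).1, (hE2 σ hσ).2.trans_eq ?_⟩
    rw [pr_empty, Finset.card_empty, Finset.card_singleton]
    push_cast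
    ring
  · intro j hj T hT σ hσ
    obtain ⟨h1, h2⟩ := hE3 j (Finset.mem_range.2 hj) T hT σ hσ
    rw [← mul_assoc]
    exact ⟨h1, h2⟩

end Pool.Agent.Lib.MP_8cb858_nt.PR
end

section
/-!
# LAW: `law` is the constant `C2`
-/
set_option autoImplicit false

namespace Pool.Agent.Lib.MP_8cb858_nt.PR

/-- **LAW.** -/
theorem specLAW : SpecLAW := by
  unfold SpecLAW
  funext d
  unfold law C2
  have h1 : ∀ j : ℕ, (1 + (2 : ℝ)⁻¹ ^ j) = 1 + (1 / 2) ^ j := by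
    intro j
    rw [one_div]
  have hne : (∏' j : ℕ, (1 + (1 / 2 : ℝ) ^ j)) ≠ 0 := by
    rw [← MKM.FF_one]
    exact MKM.FF_one_pos.ne'
  simp only [h1]
  rw [MKM.multip.tprod_inv₀ hne]

end Pool.Agent.Lib.MP_8cb858_nt.PR
end
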