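import Pool.Agent.Lib.MP_8cb858_nt.PR.SpecDN

/-! Module DNP (helper14): discriminants divisible by `p^2`. -/

namespace Pool.Agent.Lib.MP_8cb858_nt.PR

namespace DNPM

theorem ndvd {p : ℕ} [hp : Fact p.Prime] (h5 : 5 ≤ p) : ¬ (p : ℤ) ∣ 27 := by
  intro h
  have h1 : (p : ℤ) ∣ 3 ^ 3 := by norm_num; exact h
  have h2 := (Nat.prime_iff_prime_int.1 hp.out).dvd_of_dvd_pow h1
  have h3 := Int.le_of_dvd (by norm_num) h2
  omega

theorem ndvd2 {p : ℕ} (h5 : 5 ≤ p) : ¬ (p : ℤ) ∣ 2 := by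
  intro h
  have h3 := Int.le_of_dvd (by norm_num) h
  omega

theorem one {p : ℕ} [hp : Fact p.Prime] (h5 : 5 ≤ p) (a b : ℤ) (h1 : (p : ℤ) ∣ a)
    (h2 : (p : ℤ) ^ 2 ∣ dsc a b) : (p : ℤ) ∣ b := by
  have hP := Nat.prime_iff_prime_int.1 hp.out
  have h3 : (p : ℤ) ∣ dsc a b := (dvd_pow_self _ (by norm_num)).trans h2
  have h4 : (p : ℤ) ∣ 4 * a ^ 3 := (h1.trans (dvd_pow_self _ (by norm_num))).mul_left _
  have h6 : (p : ℤ) ∣ 27 * b ^ 2 := by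
    have := dvd_sub h3 h4
    unfold dsc at this
    rwa [add_sub_cancel_left] at this
  exact hP.dvd_of_dvd_pow ((hP.dvd_or_dvd h6).resolve_left (ndvd h5))

theorem two {p : ℕ} [hp : Fact p.Prime] (h5 : 5 ≤ p) (a b c : ℤ) (ha : ¬ (p : ℤ) ∣ a)
    (hb : (p : ℤ) ^ 2 ∣ dsc a b) (hc : (p : ℤ) ^ 2 ∣ dsc a c) :
    (p : ℤ) ^ 2 ∣ c - b ∨ (p : ℤ) ^ 2 ∣ c - -b := by
  have hP := Nat.prime_iff_prime_int.1 hp.out
  have h1 : (p : ℤ) ^ 2 ∣ 27 * ((c - b) * (c - -b)) := by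
    have e : 27 * ((c - b) * (c - -b)) = (4 * a ^ 3 + 27 * c ^ 2) - (4 * a ^ 3 + 27 * b ^ 2) := by ring
    rw [e]
    exact dvd_sub hc hb
  have hco : IsCoprime ((p : ℤ) ^ 2) 27 := by
    refine IsCoprime.pow_left ?_
    exact (hP.coprime_iff_not_dvd).2 (ndvd h5)
  have h2 := hco.dvd_of_dvd_mul_left h1
  have hpb : ¬ (p : ℤ) ∣ b := by
    intro h
    have h3 : (p : ℤ) ∣ dsc a b := (dvd_pow_self _ (by norm_num)).trans hb
    have h4 : (p : ℤ) ∣ 27 * b ^ 2 := (h.trans (dvd_pow_self _ (by norm_num))).mul_left _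
    have h6 : (p : ℤ) ∣ 4 * a ^ 3 := by
      have := dvd_sub h3 h4
      unfold dsc at this
      rwa [add_sub_cancel_right] at this
    rcases hP.dvd_or_dvd h6 with h7 | h7
    · have h8 : (p : ℤ) ∣ 2 ^ 2 := by norm_num; exact h7
      exact ndvd2 h5 (hP.dvd_of_dvd_pow h8)
    · exact ha (hP.dvd_of_dvd_pow h7)
  by_cases h3 : (p : ℤ) ∣ c - -b
  · right
    have h4 : ¬ (p : ℤ) ∣ c - b := by
      intro h4
      have h6 : (p : ℤ) ∣ 2 * b := by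
        have e : 2 * b = (c - -b) - (c - b) := by ring
        rw [e]
        exact dvd_sub h3 h4
      rcases hP.dvd_or_dvd h6 with h7 | h7
      · exact ndvd2 h5 h7
      · exact hpb h7
    have h6 : IsCoprime ((p : ℤ) ^ 2) (c - b) := IsCoprime.pow_left ((hP.coprime_iff_not_dvd).2 h4)
    exact h6.dvd_of_dvd_mul_left h2
  · left
    have h4 : IsCoprime ((p : ℤ) ^ 2) (c - -b) := IsCoprime.pow_left ((hP.coprime_iff_not_dvd).2 h3)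
    exact h4.dvd_of_dvd_mul_right h2

theorem ex {p : ℕ} [hp : Fact p.Prime] (h5 : 5 ≤ p) (a : ℤ) (ha : ¬ (p : ℤ) ∣ a) :
    ∃ r s : ℤ, ∀ b : ℤ, (p : ℤ) ^ 2 ∣ dsc a b → (p : ℤ) ^ 2 ∣ b - r ∨ (p : ℤ) ^ 2 ∣ b - s := by
  by_cases h : ∃ b : ℤ, (p : ℤ) ^ 2 ∣ dsc a b
  · obtain ⟨b, hb⟩ := h
    exact ⟨b, -b, fun c hc => two h5 a b c ha hb hc⟩
  · exact ⟨0, 0, fun b hb => (h ⟨b, hb⟩).elim⟩

/-- the parametrisation -/
def F (p : ℕ) (r s : ℤ → ℤ) : (ZMod (p ^ 2) × Bool) ⊕ (Fin p × Fin p) → ZMod (p ^ 2) × ZMod (p ^ 2)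
  | Sum.inl (a, i) => (a, if i then (r a.val : ZMod (p ^ 2)) else (s a.val : ZMod (p ^ 2)))
  | Sum.inr (i, j) => ((p * i.val : ℕ), (p * j.val : ℕ))

theorem val_mul {p : ℕ} [hp : Fact p.Prime] (x : ZMod (p ^ 2)) (h : (p : ℤ) ∣ x.val) :
    ∃ i : Fin p, x = ((p * i.val : ℕ) : ZMod (p ^ 2)) := by
  have : NeZero (p ^ 2) := ⟨pow_ne_zero _ hp.out.ne_zero⟩
  have h1 : p ∣ x.val := by exact_mod_cast h
  obtain ⟨k, hk⟩ := h1
  have h2 := x.val_lt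
  rw [hk, pow_two] at h2
  have h3 : k < p := lt_of_mul_lt_mul_left h2 (Nat.zero_le _)
  refine ⟨⟨k, h3⟩, ?_⟩
  rw [← ZMod.natCast_zmod_val x, hk]

end DNPM

theorem specDNP : SpecDNP := by
  intro p hp h5
  have : NeZero (p ^ 2) := ⟨pow_ne_zero _ hp.out.ne_zero⟩
  refine ⟨DNPM.one h5, DNPM.ex h5, ?_⟩
  have hex : ∀ a : ℤ, ∃ r s : ℤ, ¬ (p : ℤ) ∣ a → ∀ b : ℤ, (p : ℤ) ^ 2 ∣ dsc a b →
      (p : ℤ) ^ 2 ∣ b - r ∨ (p : ℤ) ^ 2 ∣ b - s := by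
    intro a
    by_cases ha : (p : ℤ) ∣ a
    · exact ⟨0, 0, fun h => (h ha).elim⟩
    · obtain ⟨r, s, h⟩ := DNPM.ex h5 a ha
      exact ⟨r, s, fun _ => h⟩
  choose r s hrs using hex
  have hsub : {q : ZMod (p ^ 2) × ZMod (p ^ 2) | 4 * q.1 ^ 3 + 27 * q.2 ^ 2 = 0} ⊆
      DNPM.F p r s '' Set.univ := by
    rintro ⟨a, b⟩ hq
    have hq' : 4 * a ^ 3 + 27 * b ^ 2 = 0 := hq
    have hd : (p : ℤ) ^ 2 ∣ dsc a.val b.val := by
      have h1 : ((dsc a.val b.val : ℤ) : ZMod (p ^ 2)) = 0 := by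
        unfold dsc
        push_cast
        rw [ZMod.natCast_zmod_val, ZMod.natCast_zmod_val]
        exact hq'
      have h2 := (ZMod.intCast_zmod_eq_zero_iff_dvd (dsc a.val b.val) (p ^ 2)).1 h1
      exact_mod_cast h2
    have hcast : ∀ t : ℤ, (p : ℤ) ^ 2 ∣ (b.val : ℤ) - t → b = ((t : ℤ) : ZMod (p ^ 2)) := by
      intro t ht
      have h2 : ((p ^ 2 : ℕ) : ℤ) ∣ (b.val : ℤ) - t := by exact_mod_cast ht
      have h3 := (ZMod.intCast_zmod_eq_zero_iff_dvd ((b.val : ℤ) - t) (p ^ 2)).2 h2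
      push_cast at h3
      rw [ZMod.natCast_zmod_val] at h3
      exact sub_eq_zero.1 h3
    by_cases ha : (p : ℤ) ∣ (a.val : ℤ)
    · have hb := DNPM.one h5 _ _ ha hd
      obtain ⟨i, hi⟩ := DNPM.val_mul a ha
      obtain ⟨j, hj⟩ := DNPM.val_mul b hb
      refine ⟨Sum.inr (i, j), Set.mem_univ _, ?_⟩
      unfold DNPM.F
      rw [Prod.mk.injEq]
      exact ⟨hi.symm, hj.symm⟩
    · rcases hrs a.val ha b.val hd with h | h
      · refine ⟨Sum.inl (a, true), Set.mem_univ _, ?_⟩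
        unfold DNPM.F
        rw [Prod.mk.injEq]
        exact ⟨rfl, by rw [if_pos rfl]; exact (hcast _ h).symm⟩
      · refine ⟨Sum.inl (a, false), Set.mem_univ _, ?_⟩
        unfold DNPM.F
        rw [Prod.mk.injEq]
        exact ⟨rfl, by rw [if_neg (by simp)]; exact (hcast _ h).symm⟩
  refine (Set.ncard_le_ncard hsub (Set.toFinite _)).trans ?_
  refine (Set.ncard_image_le (Set.toFinite _)).trans ?_
  rw [Set.ncard_univ, Nat.card_eq_fintype_card, Fintype.card_sum, Fintype.card_prod, Fintype.card_prod,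
    ZMod.card, Fintype.card_bool, Fintype.card_fin]
  nlinarith

end Pool.Agent.Lib.MP_8cb858_nt.PR
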