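import Pool.Agent.Lib.MP_8cb858_nt.SEL.Alg

/-!
# Poonen-Rains up to epsilon (p = 2, F = ℚ): auxiliary definitions

None of these occurs in the statement of the final theorem, except `law`.
-/

namespace Pool.Agent.Lib.MP_8cb858_nt.PR

open Polynomial NumberField Pool.Agent.Lib.MP_8cb858_nt.SEL
open scoped Classical

/-! ## The cubic algebra -/

/-- The polynomial `X^3 + A X + B` over `R`. -/
noncomputable def fpol (R : Type) [CommRing R] (A B : ℤ) : R[X] :=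
  X ^ 3 + C (A : R) * X + C (B : R)

theorem fpol_monic (R : Type) [CommRing R] (A B : ℤ) : (fpol R A B).Monic := by
  unfold fpol
  have h : (C (A : R) * X + C (B : R)).degree < ((3 : ℕ) : WithBot ℕ) :=
    lt_of_le_of_lt degree_linear_le (by norm_num)
  rw [add_assoc]
  exact monic_X_pow_add h

theorem eval₂_fpol {R T : Type} [CommRing R] [CommRing T] (A B : ℤ) (ψ : R →+* T) (t : T) :
    eval₂ ψ t (fpol R A B) = t ^ 3 + A * t + B := by
  rw [fpol, eval₂_add, eval₂_add, eval₂_mul, eval₂_pow, eval₂_X, eval₂_C, eval₂_C, map_intCast,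
    map_intCast]

/-- The algebra `R[X]/(X^3 + A X + B)`. -/
abbrev Lk (R : Type) [CommRing R] (A B : ℤ) : Type := AdjoinRoot (fpol R A B)

variable {R S : Type} [CommRing R] [CommRing S] {A B : ℤ}

/-- The class of `X`. -/
noncomputable def th (R : Type) [CommRing R] (A B : ℤ) : Lk R A B := AdjoinRoot.root _

/-- The element `x + y θ + z θ^2`. -/
noncomputable def el (A B : ℤ) (x y z : R) : Lk R A B :=
  AdjoinRoot.of _ x + AdjoinRoot.of _ y * th R A B + AdjoinRoot.of _ z * th R A B ^ 2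

/-- The `i`-th coordinate, `i = 0, 1, 2`, of an element of `R[X]/(X^3 + A X + B)`. -/
noncomputable def cf (i : ℕ) (α : Lk R A B) : R :=
  (AdjoinRoot.modByMonicHom (fpol_monic R A B) α).coeff i

/-- The value at `t` (meaningful if `t` is a root) of an element of `R[X]/(X^3 + A X + B)`. -/
noncomputable def ev (φ : R →+* S) (t : S) (α : Lk R A B) : S :=
  φ (cf 0 α) + φ (cf 1 α) * t + φ (cf 2 α) * t ^ 2

/-- Change of the base ring. -/
noncomputable def upr (A B : ℤ) (φ : R →+* S) : Lk R A B →+* Lk S A B :=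
  AdjoinRoot.lift ((AdjoinRoot.of (fpol S A B)).comp φ) (AdjoinRoot.root (fpol S A B)) (by
    have h := AdjoinRoot.eval₂_root (fpol S A B)
    rw [eval₂_fpol] at h ⊢
    exact h)

/-- From `ℚ` to a field of characteristic zero. -/
noncomputable def up (A B : ℤ) (K : Type) [Field K] [CharZero K] : Lk ℚ A B →+* Lk K A B :=
  upr A B (Rat.castHom K)

/-- Units of square norm: they represent the classes in `H^1(K, E[2])`. -/
def InV (α : Lk R A B) : Prop := IsUnit α ∧ IsSquare (Algebra.norm R α)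

/-- `4 A^3 + 27 B^2`. -/
def dsc (A B : ℤ) : ℤ := 4 * A ^ 3 + 27 * B ^ 2

section field

variable {K : Type} [Field K]

/-- The class of `α` is in the image of the Kummer map of `E^D : y^2 = x^3 + A D^2 x + B D^3`:
there is `x` with `D (x^3 + A x + B)` a nonzero square and `α D (x - θ)` a square. -/
def Aff (D : ℤ) (α : Lk K A B) : Prop :=
  ∃ x y : K, y ≠ 0 ∧ y ^ 2 = D * (x ^ 3 + A * x + B) ∧
    IsSquare (α * (AdjoinRoot.of _ (D : K) * (AdjoinRoot.of _ x - th K A B)))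

/-- The ternary form `ξ ↦ (coefficient of θ^2 in α ξ^2)` is isotropic. -/
def Iso (α : Lk K A B) : Prop := ∃ ξ : Lk K A B, ξ ≠ 0 ∧ cf 2 (α * ξ ^ 2) = 0

/-- The conic `z^2 = a x^2 + b y^2` has a point over `K`. -/
def Con (K : Type) [Field K] (a b : K) : Prop :=
  ∃ x y z : K, ¬ (x = 0 ∧ y = 0 ∧ z = 0) ∧ z ^ 2 = a * x ^ 2 + b * y ^ 2

end field

/-- `α` is a unit times a square at `p`. -/
def Ev (p : ℕ) [Fact p.Prime] (α : Lk ℚ_[p] A B) : Prop :=
  ∃ (g : Lk ℚ_[p] A B) (h : Lk ℤ_[p] A B), IsUnit g ∧ IsUnit h ∧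
    α * g ^ 2 = upr A B (algebraMap ℤ_[p] ℚ_[p]) h

/-- A hyperbolic plane: the classes of the elements of `V` modulo squares, `E` = an isotropic line,
`I` = the isotropic vectors. -/
structure Hyp {M : Type} [CommRing M] (V E I : M → Prop) : Prop where
  inv : ∀ α γ, V α → IsUnit γ → (E (α * γ ^ 2) ↔ E α) ∧ (I (α * γ ^ 2) ↔ I α)
  one : ∀ α, V α → IsSquare α → E α
  c0 : ∀ α β, V α → V β → E α → E β → E (α * β)
  c1 : ∀ α β, V α → V β → ¬ E α → ¬ E β → E (α * β)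
  c2 : ∀ α β, V α → V β → E α → E β → ¬ IsSquare α → ¬ IsSquare β → IsSquare (α * β)
  c3 : ∀ α, V α → E α → I α
  c4 : ∀ α β, V α → V β → ¬ E α → ¬ E β → ((I α ↔ I β) ↔ IsSquare (α * β))

/-! ## Relation with cocycles -/

/-- The curve `E^D : y^2 = x^3 + A D^2 x + B D^3` over `ℚ`. -/
noncomputable def cur (A B D : ℤ) : WeierstrassCurve ℚ :=
  curve ((A : ℚ) * (D : ℚ) ^ 2) ((B : ℚ) * (D : ℚ) ^ 3)

/-- The cocycle `c` with values in `E^D[2]` corresponds to `α`: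
`σ (√α_i) = e_2(c σ, T_{σ i}) √α_{σ i}`. -/
def Rel (D : ℤ) (α : Lk ℚ A B) (c : Gal ℚ → Pt (cur A B D) (AlgebraicClosure ℚ)) : Prop :=
  ∃ t s : Fin 3 → AlgebraicClosure ℚ,
    IsRoots (A : AlgebraicClosure ℚ) (B : AlgebraicClosure ℚ) t ∧
    (∀ i, s i ≠ 0 ∧ s i ^ 2 = ev (algebraMap ℚ (AlgebraicClosure ℚ)) (t i) α) ∧
    ∀ (σ : Gal ℚ) (i k : Fin 3), σ (t i) = t k →
      σ (s i) = (sg (fun j => (D : AlgebraicClosure ℚ) * t j) (c σ) k : AlgebraicClosure ℚ) * s k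

/-- `α` represents the Selmer class `z`. -/
def Rep (D : ℤ) (α : Lk ℚ A B) (z : Sel 2 (cur A B D)) : Prop :=
  InV α ∧ ∃ c : Cocycles 2 (cur A B D), Rel D α c.1 ∧ QuotientAddGroup.mk c = z

/-- The localisation of the Selmer class `z` at `p` is trivial, for `p` prime to `6 D`
such that `f` has exactly one root mod `p`. -/
def Triv (D : ℤ) (p : ℕ) (z : Sel 2 (cur A B D)) : Prop :=
  ∃ (_ : Fact p.Prime) (α : Lk ℚ A B) (t : ℤ_[p]), Rep D α z ∧ t ^ 3 + A * t + B = 0 ∧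
    IsSquare (ev (Rat.castHom ℚ_[p]) (t : ℚ_[p]) α)

/-! ## Families -/

/-- `(A, B)` of height at most `X`. -/
def Ht (X : ℝ) : Set (ℤ × ℤ) := {q | |(q.1 : ℝ)| ^ 3 ≤ X ∧ (q.2 : ℝ) ^ 2 ≤ X}

/-- The family `F⁺`, for a finite set `Q` of primes. -/
def Fam (Q : Finset ℕ) : Set (ℤ × ℤ) :=
  {q | 0 < q.1 ∧ q.1 % 4 = 3 ∧ q.2 % 8 = 1 ∧ q.1 % 3 = 2 ∧ q.2 % 3 ≠ 0 ∧
    (∀ p : ℕ, p.Prime → 5 ≤ p → ¬ ((p : ℤ) ^ 2 ∣ dsc q.1 q.2)) ∧
    ∀ p ∈ Q, ¬ IsSquare ((-dsc q.1 q.2 : ℤ) : ZMod p)}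

/-- Product of the primes of `T`. -/
def pr (T : Finset ℕ) : ℤ := ∏ p ∈ T, (p : ℤ)

/-- The relative density of the condition at `p`. -/
noncomputable def dl (p : ℕ) : ℝ := (1 - 1 / (p : ℝ)) / 2

/-- The Poonen-Rains distribution `C_{2,d}`. -/
noncomputable def law (d : ℕ) : ℝ :=
  (∏' j : ℕ, (1 + (2 : ℝ)⁻¹ ^ j)⁻¹) * ∏ i ∈ Finset.range d, 2 / ((2 : ℝ) ^ (i + 1) - 1)

end Pool.Agent.Lib.MP_8cb858_nt.PR
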