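import Pool.Agent.Lib.MP_8cb858_nt.PF.RF.All

/-!
# LAL: linear algebra over `F_2` for the twisting step
-/

set_option autoImplicit false

namespace Pool.Agent.Lib.MP_8cb858_nt.PR

open Module

namespace LALM

/-- orthogonal subspaces for the standard pairing -/
theorem perp {κ : Type} [Fintype κ] (U U' : Submodule (ZMod 2) (κ → ZMod 2))
    (h : ∀ x ∈ U, ∀ y ∈ U', ∑ u, x u * y u = 0) :
    finrank (ZMod 2) U + finrank (ZMod 2) U' ≤ Fintype.card κ := by
  classical
  let g : (κ → ZMod 2) →ₗ[ZMod 2] Dual (ZMod 2) (κ → ZMod 2) :=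
    LinearMap.mk₂ (ZMod 2) (fun y x => ∑ u, x u * y u)
      (by intro a b c; simp [mul_add, Finset.sum_add_distrib])
      (by intro a b c; simp [Finset.mul_sum, mul_left_comm])
      (by intro a b c; simp [add_mul, Finset.sum_add_distrib])
      (by intro a b c; simp [Finset.mul_sum, mul_assoc])
  have hg : ∀ y x, g y x = ∑ u, x u * y u := fun _ _ => rfl
  have hginj : Function.Injective g := by
    rw [injective_iff_map_eq_zero]
    intro y hy
    funext u
    have := LinearMap.congr_fun hy (Pi.single u 1)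
    rw [hg] at this
    simpa [Pi.single_apply] using this
  have h1 : U'.map g ≤ U.dualAnnihilator := by
    rintro _ ⟨y, hy, rfl⟩
    rw [Submodule.mem_dualAnnihilator]
    intro x hx
    rw [hg]
    exact h x hx y hy
  have h2 : finrank (ZMod 2) (U'.map g) = finrank (ZMod 2) U' :=
    (Submodule.equivMapOfInjective g hginj U').finrank_eq.symm
  have h3 := Submodule.finrank_mono h1
  have h4 := Subspace.finrank_add_finrank_dualAnnihilator_eq U
  rw [finrank_fintype_fun_eq_card] at h4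
  omega

variable {ι : Type} [Fintype ι] [DecidableEq ι]

/-- the coordinate which is required to vanish -/
def cc (S : Finset ι) (u : ι) (w : ι → ZMod 2 × ZMod 2) : ZMod 2 :=
  if u ∈ S then (w u).2 else (w u).1

/-- the other coordinate -/
def dd (S : Finset ι) (u : ι) (w : ι → ZMod 2 × ZMod 2) : ZMod 2 :=
  if u ∈ S then (w u).1 else (w u).2

theorem exists_ne (W : AddSubgroup (ι → ZMod 2 × ZMod 2))
    (hQ : ∀ w ∈ W, ∑ v, (w v).1 * (w v).2 = 0) (hc : 2 ^ Fintype.card ι ≤ Nat.card W)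
    (S : Finset ι) (v : ι) : ∃ w ∈ W, (∀ u, u ≠ v → cc S u w = 0) ∧ w v ≠ 0 := by
  classical
  by_contra hcon
  push Not at hcon
  let W' : Submodule (ZMod 2) (ι → ZMod 2 × ZMod 2) := AddSubgroup.toZModSubmodule 2 W
  have hW' : ∀ w, w ∈ W' ↔ w ∈ W := fun w => Iff.rfl
  have hfr : Fintype.card ι ≤ finrank (ZMod 2) W' := by
    have h1 : Nat.card W' = 2 ^ finrank (ZMod 2) W' := by
      rw [Module.natCard_eq_pow_finrank (K := ZMod 2)]
      simp
    have h2 : Nat.card W' = Nat.card W := rfl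
    rw [h2] at h1
    rw [h1] at hc
    exact (Nat.pow_le_pow_iff_right (by norm_num)).1 hc
  -- the two maps
  let c : (ι → ZMod 2 × ZMod 2) →ₗ[ZMod 2] ({u // u ≠ v} → ZMod 2) :=
    { toFun := fun w u => cc S u w
      map_add' := by
        intro a b
        funext u
        simp only [cc, Pi.add_apply]
        split_ifs <;> rfl
      map_smul' := by
        intro r a
        funext u
        simp only [cc, Pi.smul_apply, RingHom.id_apply]
        split_ifs <;> rfl }
  let d : (ι → ZMod 2 × ZMod 2) →ₗ[ZMod 2] ({u // u ≠ v} → ZMod 2) :=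
    { toFun := fun w u => dd S u w
      map_add' := by
        intro a b
        funext u
        simp only [dd, Pi.add_apply]
        split_ifs <;> rfl
      map_smul' := by
        intro r a
        funext u
        simp only [dd, Pi.smul_apply, RingHom.id_apply]
        split_ifs <;> rfl }
  let cW := c.domRestrict W'
  let K : Submodule (ZMod 2) (ι → ZMod 2 × ZMod 2) := W' ⊓ LinearMap.ker c
  have hK : ∀ w ∈ K, w ∈ W ∧ (∀ u, u ≠ v → cc S u w = 0) ∧ w v = 0 := by
    rintro w ⟨hw, hk⟩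
    have h1 : ∀ u, u ≠ v → cc S u w = 0 := fun u hu =>
      congrFun (LinearMap.mem_ker.1 hk) ⟨u, hu⟩
    exact ⟨hw, h1, hcon w hw h1⟩
  have hrn := LinearMap.finrank_range_add_finrank_ker cW
  have hker : finrank (ZMod 2) (LinearMap.ker cW) = finrank (ZMod 2) K := by
    have e1 : LinearMap.ker cW = (LinearMap.ker c).comap W'.subtype := LinearMap.ker_comp _ _
    have e2 : K = Submodule.map W'.subtype ((LinearMap.ker c).comap W'.subtype) := by
      rw [Submodule.map_comap_subtype]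
    rw [e1, e2]
    exact (Submodule.equivMapOfInjective W'.subtype W'.injective_subtype _).finrank_eq
  have hdinj : Set.InjOn d K := by
    intro a ha b hb hab
    have h1 := hK a ha
    have h2 := hK b hb
    funext u
    by_cases hu : u = v
    · rw [hu, h1.2.2, h2.2.2]
    · have e1 := h1.2.1 u hu
      have e2 := h2.2.1 u hu
      have e3 : dd S u a = dd S u b := congrFun hab ⟨u, hu⟩
      simp only [cc, dd] at e1 e2 e3
      split_ifs at e1 e2 e3
      · exact Prod.ext e3 (e1.trans e2.symm)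
      · exact Prod.ext (e1.trans e2.symm) e3
  have hdK : finrank (ZMod 2) (K.map d) = finrank (ZMod 2) K := by
    have h1 : Function.Injective (d.domRestrict K) := by
      intro a b hab
      exact Subtype.ext (hdinj a.2 b.2 hab)
    have h2 := LinearMap.finrank_range_of_inj h1
    rwa [LinearMap.range_domRestrict] at h2
  have hperp := perp (LinearMap.range cW) (K.map d) (by
    rintro _ ⟨⟨w, hw⟩, rfl⟩ _ ⟨k, hk, rfl⟩
    obtain ⟨hk1, hk2, hk3⟩ := hK k hk
    have hw : w ∈ W := hw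
    have h1 := hQ (w + k) (W.add_mem hw hk1)
    have h2 := hQ w hw
    have h3 := hQ k hk1
    have h4 : ∑ u, ((w u).1 * (k u).2 + (w u).2 * (k u).1) = 0 := by
      have e : ∑ u, ((w + k) u).1 * ((w + k) u).2 = ∑ u, (w u).1 * (w u).2 +
          ∑ u, (k u).1 * (k u).2 + ∑ u, ((w u).1 * (k u).2 + (w u).2 * (k u).1) := by
        rw [← Finset.sum_add_distrib, ← Finset.sum_add_distrib]
        refine Finset.sum_congr rfl fun u _ => ?_
        simp only [Pi.add_apply, Prod.fst_add, Prod.snd_add]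
        ring
      rw [e, h2, h3, zero_add, zero_add] at h1
      exact h1
    show ∑ u : {u // u ≠ v}, cc S u w * dd S u k = 0
    have e1 : ∑ u ∈ Finset.univ.filter (fun u => u ≠ v),
        ((w u).1 * (k u).2 + (w u).2 * (k u).1) = 0 := by
      rw [Finset.sum_filter_of_ne, h4]
      intro u _ hu huv
      apply hu
      rw [huv, hk3]
      simp
    rw [← e1, Finset.sum_subtype (p := fun u => u ≠ v) (Finset.univ.filter (fun u => u ≠ v))
      (by simp)]
    refine Finset.sum_congr rfl fun u _ => ?_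
    have e2 := hk2 u u.2
    simp only [cc, dd] at e2 ⊢
    split_ifs at e2 ⊢
    · rw [e2]; ring
    · rw [e2]; ring)
  rw [Fintype.card_subtype_compl, Fintype.card_subtype_eq] at hperp
  have hpos : 0 < Fintype.card ι := Fintype.card_pos_iff.2 ⟨v⟩
  omega

/-- a subgroup is twice as large as the kernel of a nonzero functional -/
theorem card_ker {V : Type} [AddCommGroup V] [Finite V] (K : Set V) (φ : V → ZMod 2)
    (hadd : ∀ a ∈ K, ∀ b ∈ K, a + b ∈ K) (hneg : ∀ a : V, a + a = 0)
    (hφ : ∀ a b, φ (a + b) = φ a + φ b) (k₀ : V) (hk₀ : k₀ ∈ K) (h1 : φ k₀ ≠ 0) :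
    K.ncard = 2 * {w ∈ K | φ w = 0}.ncard := by
  have hone : ∀ x : ZMod 2, x ≠ 0 → x = 1 := by decide
  have hφ0 : φ k₀ = 1 := hone _ h1
  have e1 : K = {w ∈ K | φ w = 0} ∪ (fun w => w + k₀) '' {w ∈ K | φ w = 0} := by
    ext w
    constructor
    · intro hw
      by_cases h : φ w = 0
      · exact Or.inl ⟨hw, h⟩
      · refine Or.inr ⟨w + k₀, ⟨hadd _ hw _ hk₀, ?_⟩, ?_⟩
        · rw [hφ, hone _ h, hφ0]; decide
        · show w + k₀ + k₀ = w
          rw [add_assoc, hneg, add_zero]
    · rintro (h | ⟨x, ⟨hx, _⟩, rfl⟩)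
      · exact h.1
      · exact hadd _ hx _ hk₀
  have e2 : Disjoint {w ∈ K | φ w = 0} ((fun w => w + k₀) '' {w ∈ K | φ w = 0}) := by
    rw [Set.disjoint_left]
    rintro _ ⟨_, h⟩ ⟨x, ⟨_, hx⟩, rfl⟩
    have h : φ (x + k₀) = 0 := h
    rw [hφ, hx, hφ0] at h
    exact absurd h (by decide)
  conv_lhs => rw [e1]
  rw [Set.ncard_union_eq e2 (Set.toFinite _) (Set.toFinite _),
    Set.ncard_image_of_injective _ (add_left_injective k₀)]
  ring

end LALM

open LALM

/-- LAL -/
theorem specLAL : SpecLAL := by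
  intro ι _ _ W hQ hc S v hv
  classical
  obtain ⟨k₀, hk₀, hk₀c, hk₀v⟩ := exists_ne W hQ hc S v
  let K : Set (ι → ZMod 2 × ZMod 2) := {w | w ∈ W ∧ ∀ u, u ≠ v → cc S u w = 0}
  have hKadd : ∀ a ∈ K, ∀ b ∈ K, a + b ∈ K := by
    rintro a ⟨ha, ha'⟩ b ⟨hb, hb'⟩
    refine ⟨W.add_mem ha hb, fun u hu => ?_⟩
    have h1 := ha' u hu
    have h2 := hb' u hu
    simp only [cc] at h1 h2 ⊢
    split_ifs at h1 h2 ⊢
    · rw [Pi.add_apply, Prod.snd_add, h1, h2, add_zero]
    · rw [Pi.add_apply, Prod.fst_add, h1, h2, add_zero]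
  have hneg : ∀ a : ι → ZMod 2 × ZMod 2, a + a = 0 := by
    intro a
    funext u
    have : ∀ x : ZMod 2 × ZMod 2, x + x = 0 := by decide
    exact this (a u)
  have hone : ∀ x : ZMod 2, x ≠ 0 → x = 1 := by decide
  -- isotropy at `v`
  have hiso : ∀ k ∈ K, (k v).1 * (k v).2 = 0 := by
    rintro k ⟨hk, hk'⟩
    have h1 := hQ k hk
    rw [Finset.sum_eq_single v] at h1
    · exact h1
    · intro u _ hu
      have h2 := hk' u hu
      simp only [cc] at h2
      split_ifs at h2 <;> rw [h2] <;> simp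
    · intro h
      exact absurd (Finset.mem_univ v) h
  have eS : {w ∈ (W : Set (ι → ZMod 2 × ZMod 2)) | (∀ u ∉ S, (w u).1 = 0) ∧
      ∀ u ∈ S, (w u).2 = 0} = {w ∈ K | (w v).1 = 0} := by
    ext w
    constructor
    · rintro ⟨hw, h1, h2⟩
      refine ⟨⟨hw, fun u _ => ?_⟩, h1 v hv⟩
      simp only [cc]
      split_ifs with h
      · exact h2 u h
      · exact h1 u h
    · rintro ⟨⟨hw, h1⟩, h2⟩
      refine ⟨hw, fun u hu => ?_, fun u hu => ?_⟩
      · by_cases huv : u = v
        · rw [huv]; exact h2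
        · have := h1 u huv
          simp only [cc, if_neg hu] at this
          exact this
      · have huv : u ≠ v := fun h => hv (h ▸ hu)
        have := h1 u huv
        simp only [cc, if_pos hu] at this
        exact this
  have eS' : {w ∈ (W : Set (ι → ZMod 2 × ZMod 2)) | (∀ u ∉ insert v S, (w u).1 = 0) ∧
      ∀ u ∈ insert v S, (w u).2 = 0} = {w ∈ K | (w v).2 = 0} := by
    ext w
    constructor
    · rintro ⟨hw, h1, h2⟩
      refine ⟨⟨hw, fun u huv => ?_⟩, h2 v (Finset.mem_insert_self v S)⟩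
      simp only [cc]
      split_ifs with h
      · exact h2 u (Finset.mem_insert_of_mem h)
      · exact h1 u (by simp [huv, h])
    · rintro ⟨⟨hw, h1⟩, h2⟩
      refine ⟨hw, fun u hu => ?_, fun u hu => ?_⟩
      · rw [Finset.mem_insert, not_or] at hu
        have := h1 u hu.1
        simp only [cc, if_neg hu.2] at this
        exact this
      · rcases Finset.mem_insert.1 hu with rfl | hu
        · exact h2
        · have huv : u ≠ v := fun h => hv (h ▸ hu)
          have := h1 u huv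
          simp only [cc, if_pos hu] at this
          exact this
  have hsel : (∀ w ∈ W, (∀ u ∉ S, (w u).1 = 0) → (∀ u ∈ S, (w u).2 = 0) → (w v).2 = 0) ↔
      ∀ w ∈ K, (w v).1 = 0 → (w v).2 = 0 := by
    constructor
    · intro h w hw hw1
      have h2 : w ∈ {w ∈ (W : Set (ι → ZMod 2 × ZMod 2)) | (∀ u ∉ S, (w u).1 = 0) ∧
        ∀ u ∈ S, (w u).2 = 0} := by rw [eS]; exact ⟨hw, hw1⟩
      exact h w h2.1 h2.2.1 h2.2.2
    · intro h w hw h1 h2
      have h3 : w ∈ {w ∈ K | (w v).1 = 0} := by rw [← eS]; exact ⟨hw, h1, h2⟩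
      exact h w h3.1 h3.2
  rw [hsel, eS, eS']
  have hpair : ∀ x : ZMod 2 × ZMod 2, x ≠ 0 → x.1 * x.2 = 0 → x.1 = 0 → x.2 ≠ 0 := by decide
  have hpair2 : ∀ x : ZMod 2 × ZMod 2, x.1 * x.2 = 0 → x.1 ≠ 0 → x.2 = 0 := by decide
  have hpair3 : ∀ x : ZMod 2 × ZMod 2, x.1 * x.2 = 0 → x.2 ≠ 0 → x.1 = 0 := by decide
  have hk₀K : k₀ ∈ K := ⟨hk₀, hk₀c⟩
  constructor
  · intro h
    have h1 : (k₀ v).1 ≠ 0 := fun h0 => hpair _ hk₀v (hiso _ hk₀K) h0 (h _ hk₀K h0)
    have h2 : {w ∈ K | (w v).2 = 0} = K := by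
      ext w
      refine ⟨fun hw => hw.1, fun hw => ⟨hw, ?_⟩⟩
      by_contra h3
      exact h3 (h w hw (hpair3 _ (hiso w hw) h3))
    rw [h2]
    exact card_ker K (fun w => (w v).1) hKadd hneg (fun _ _ => rfl) k₀ hk₀K h1
  · intro h
    push Not at h
    obtain ⟨w₁, hw₁, h1, h2⟩ := h
    have h3 : {w ∈ K | (w v).1 = 0} = K := by
      ext w
      refine ⟨fun hw => hw.1, fun hw => ⟨hw, ?_⟩⟩
      by_contra h4
      have h5 := hiso (w + w₁) (hKadd w hw w₁ hw₁)
      have h6 := hpair2 _ (hiso w hw) h4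
      rw [Pi.add_apply, Prod.fst_add, Prod.snd_add, h1, h6, add_zero, zero_add,
        hone _ h4, hone _ h2] at h5
      exact absurd h5 (by decide)
    rw [h3]
    exact (card_ker K (fun w => (w v).2) hKadd hneg (fun _ _ => rfl) w₁ hw₁ h2).symm

end Pool.Agent.Lib.MP_8cb858_nt.PR
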