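import Pool.Agent.Lib.MP_8cb858_nt.PF.RF.All

/-!
# Specs, part C: many global classes which are unit classes outside a finite set of primes

Every Spec is a closed proposition; its doc string contains a complete proof. `𝓞 L` is the ring of
integers of the number field `L`; `w.valuation L` is the (multiplicative) `w`-adic valuation of `L`,
with values in `ℤᵐ⁰`. If `f = X^3 + A X + B` is irreducible then `L = Lk ℚ A B` is a number field (the
instances are found from `Fact (Irreducible (fpol ℚ A B))`).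
-/

namespace Pool.Agent.Lib.MP_8cb858_nt.PR

open Polynomial NumberField IsDedekindDomain Pool.Agent.Lib.MP_8cb858_nt.SEL
open scoped Classical nonZeroDivisors

/-- **IRR.** `f` is irreducible over `ℚ` if it has no root modulo 2.
Proof. A rational root of the monic integral polynomial `f` is an integer (`isInteger_of_is_root_of_monic`,
or the rational root theorem), and its reduction modulo 2 would be a root of `f` in `ZMod 2`. A polynomial
of degree 3 over a field without root is irreducible (`Polynomial.irreducible_iff_roots_eq_zero_of_degree_le_three`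
or `Monic.irreducible_iff_roots_eq_zero_of_degree_le_three`). The degree of `AdjoinRoot f` is
`natDegree f = 3` (`(AdjoinRoot.powerBasis' (fpol_monic ℚ A B)).finrank`). -/
def SpecIRR : Prop :=
  ∀ A B : ℤ, (∀ x : ZMod 2, x ^ 3 + A * x + B ≠ 0) →
    Irreducible (fpol ℚ A B) ∧ Module.finrank ℚ (Lk ℚ A B) = 3

/-- **EMP.** A simple root modulo `p` gives an embedding of `L` into `ℚ_p`.
Proof. Hensel's lemma (`hensels_lemma` for `fpol ℤ_[p] A B` or directly): let `a : ℤ` be a lift of `x`;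
`f(a)` is divisible by `p` and `f'(a) = 3 a^2 + A` is a unit of `ℤ_[p]`, so there is `t` in `ℤ_[p]` with
`t^3 + A t + B = 0`. `AdjoinRoot.lift (Rat.castHom ℚ_[p]) (t : ℚ_[p]) _` (see `eval₂_fpol`). -/
def SpecEMP : Prop :=
  ∀ (p : ℕ) [Fact p.Prime] (A B : ℤ) (x : ZMod p), x ^ 3 + A * x + B = 0 → 3 * x ^ 2 + A ≠ 0 →
    Nonempty (Lk ℚ A B →+* ℚ_[p])

/-- **UNT.** A cubic field has a unit of norm 1 which is not a square.
Proof. `3 = r_1 + 2 r_2`, so `(r_1, r_2)` is `(3,0)` or `(1,1)` and the unit rank `r_1 + r_2 - 1` is at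
least 1 (`NumberField.Units.rank`, `InfinitePlace.card_add_two_mul_card_eq_rank` and
`card_eq_nrRealPlaces_add_nrComplexPlaces`). Let `ε = fundSystem L 0` and `N ε = ±1`
(`Units.isUnit_norm` / `RingOfIntegers.isUnit_norm`: the norm of a unit is `1` or `-1` in `ℚ`). Put
`η = ε` if `N ε = 1`, and `η = -ε` if `N ε = -1` (`N(-1) = (-1)^3 = -1`). If `η = γ^2` with `γ` in `L`,
then `γ` is integral (`γ^2` is) and a unit of `𝓞 L` (`γ * (γ * η⁻¹) = 1`). By
`NumberField.Units.exist_unique_eq_mul_prod` write `γ = ζ ∏ (fundSystem i)^{k i}`; then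
`η = ζ^2 ∏ (fundSystem i)^{2 k i}`, but `η = ± fundSystem 0` with `±1` a torsion unit, so uniqueness of
the exponents gives `2 k 0 = 1`, a contradiction. -/
def SpecUNT : Prop :=
  ∀ (L : Type) [Field L] [NumberField L], Module.finrank ℚ L = 3 →
    ∃ η : (𝓞 L)ˣ, Algebra.norm ℚ ((η : 𝓞 L) : L) = 1 ∧ ¬ IsSquare ((η : 𝓞 L) : L)

/-- **PRJ.** An ideal of norm `p^2` above `p` which is not a square, if `L` (cubic) embeds into `ℚ_p`.
Proof. (1) `ψ` maps `𝓞 L` into `ℤ_[p]` (`ℤ_[p]` is integrally closed in `ℚ_[p]`; an integral element has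
norm `≤ 1`: if `‖z‖ > 1` then in the monic equation the leading term dominates). Composing with
`PadicInt.toZMod` gives a ring map `χ : 𝓞 L → ZMod p`, surjective (`ℤ → ZMod p` is). `P₁ = ker χ`: a
maximal ideal, `𝓞 L ⧸ P₁ ≃ ZMod p`, so `absNorm P₁ = p`, and `p ∈ P₁`. (2) `p ∉ P₁ ^ 2`: the map `ψ` sends
`P₁` into `p ℤ_[p]`, hence `P₁^2` into `p^2 ℤ_[p]`, and `ψ p = p` is not in it. (3) `P₁ ∣ (p)`, so
`(p) = P₁ * Q`; `absNorm (p) = p^3` (`Ideal.absNorm_span_singleton`, norm of `p` = `p^3`), so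
`absNorm Q = p^2`, and `Q` is not contained in `P₁` by (2). As `Q ≠ ⊤` there is a maximal ideal `P₂ ⊇ Q`,
`P₂ ≠ ⊥` (it contains `p`), `P₂ ≠ P₁`. `absNorm P₂` divides `p^2` and is not 1: it is `p` or `p^2`.
If it is `p^2` put `J = P₂`, otherwise `J = P₁ * P₂` (absNorm `p * p`). `p ∈ J`: in the first case
because `p ∈ P₂`; in the second `P₁ P₂ ∣ P₁ Q = (p)`. `J ≤ P₂`. `¬ J ≤ P₂^2`: `P₂^2 ∤ P₂`, and
`P₂^2 ∣ P₁ P₂` would give `P₂ ∣ P₁`, so `P₂ = P₁`. `v` = the height one prime `P₂`. -/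
def SpecPRJ : Prop :=
  ∀ (L : Type) [Field L] [NumberField L] (p : ℕ) [Fact p.Prime] (_ : L →+* ℚ_[p]),
    Module.finrank ℚ L = 3 →
    ∃ (J : Ideal (𝓞 L)) (v : HeightOneSpectrum (𝓞 L)), (p : 𝓞 L) ∈ J ∧ Ideal.absNorm J = p ^ 2 ∧
      (p : 𝓞 L) ∈ v.asIdeal ∧ J ≤ v.asIdeal ∧ ¬ J ≤ v.asIdeal ^ 2

/-- **PGN.** Pigeonhole in the class group.
Proof. Let `h` be the order of the class group of `𝓞 L` (finite), and for every class `c` let `I_c` be a
nonzero ideal with `ClassGroup.mk0 I_c = c` (`ClassGroup.mk0_surjective`). The map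
`(T, c) ↦ mk0 ((∏_{k ∈ T} J k) * I_c^2)` from the set `Finset (Fin m) × ClassGroup`, which has `2^m h`
elements, to the class group has a fibre with at least `2^m` elements
(`Finset.exists_le_card_fiber_of_mul_le_card_of_maps_to` or `Fintype.exists_le_card_fiber_of_mul_le_card`).
Enumerate `2^m` elements `(T i, c i)` of it, pairwise different, `I i = I_{c i}`, and let `(T0, I0)` be
one of them. Equal classes: `ClassGroup.mk0_eq_mk0_iff` gives nonzero `x i, y i`. Last property: if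
`T i = T j` then `c i ≠ c j`, and `(g) I_i = (h) I_j` with `g, h ≠ 0` would give `c i = c j`
(`ClassGroup.mk0_eq_mk0_iff`). -/
def SpecPGN : Prop :=
  ∀ (L : Type) [Field L] [NumberField L] (m : ℕ) (J : Fin m → Ideal (𝓞 L)), (∀ k, J k ≠ ⊥) →
    ∃ (T : Fin (2 ^ m) → Finset (Fin m)) (I : Fin (2 ^ m) → Ideal (𝓞 L)) (x y : Fin (2 ^ m) → 𝓞 L)
      (T0 : Finset (Fin m)) (I0 : Ideal (𝓞 L)), I0 ≠ ⊥ ∧
      (∀ i, I i ≠ ⊥ ∧ x i ≠ 0 ∧ y i ≠ 0 ∧
        Ideal.span {x i} * ((∏ k ∈ T i, J k) * I i ^ 2) =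
          Ideal.span {y i} * ((∏ k ∈ T0, J k) * I0 ^ 2)) ∧
      ∀ i j, i ≠ j → T i = T j → ∀ g h : 𝓞 L, g ≠ 0 → h ≠ 0 →
        Ideal.span {g} * I i ≠ Ideal.span {h} * I j

/-- **CNT.** Many elements whose ideals are squares up to the `J k`.
Proof. `J k ≠ ⊥` (it contains `q k ≠ 0`). Take `T, I, x, y, T0, I0` from PGN, `α i = y i / x i`, and write
`M i = (∏_{k ∈ T i} J k) * I i ^ 2`, `M0 = (∏_{k ∈ T0} J k) * I0 ^ 2`: `(x i) M i = (y i) M0`.
Norm: `absNorm` is multiplicative, so `|N (x i)| absNorm (M i) = |N (y i)| absNorm M0`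
(`Ideal.absNorm_span_singleton`, natural numbers), and `absNorm (M i)`, `absNorm M0` are nonzero squares
in `ℕ`; hence `|N (α i)| = absNorm (M i) / absNorm M0` is a square in `ℚ` (the norm `Algebra.norm ℚ` of
`y i / x i` is the quotient of the norms, `Algebra.norm ℚ (y i : L) = (Algebra.norm ℤ (y i) : ℚ)`).
Valuations: let `w` contain no `q k`. Then `w` does not contain `J k` (which contains `q k`), so the
multiplicity of `w` in `M i` and in `M0` is even (in a product multiplicities add; `w ∤ J k`); so the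
multiplicities of `w` in `(x i)` and `(y i)` have the same parity, and
`w.valuation L (y i / x i) = exp(mult(x i) - mult(y i))` is a square.
Distinctness: let `i ≠ j` and `α i = u α j γ^2`, `γ = g/h`, `g, h` in `𝓞 L`, nonzero (`α i ≠ 0`). Then
`y i * x j * h^2 = u * y j * x i * g^2`, so `(y i)(x j)(h)^2 = (y j)(x i)(g)^2` as ideals. Multiplying
by `M0` and using `(y i) M0 = (x i) M i`, `(y j) M0 = (x j) M j` and cancelling `(x i)(x j)`:
`M i (h)^2 = M j (g)^2`. The multiplicity of `v k` in `J k` is 1, and in `J l`, `l ≠ k`, it is 0: otherwise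
`v k` contains `J l ∋ q l`, and it contains `J k ∋ q k`, two different primes, so `1`. Hence the
multiplicity of `v k` in `M i` is odd iff `k ∈ T i`; so `T i = T j`; cancel the product of the `J k`:
`(I i (h))^2 = (I j (g))^2`, hence `I i (h) = I j (g)` (ideals of a Dedekind domain: unique
factorisation, `pow_left_injective`-type statement), contradicting the last property in PGN. -/
def SpecCNT : Prop :=
  ∀ (L : Type) [Field L] [NumberField L] (m : ℕ) (q : Fin m → ℕ) (J : Fin m → Ideal (𝓞 L))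
    (v : Fin m → HeightOneSpectrum (𝓞 L)),
    (∀ k, (q k).Prime) → Function.Injective q → (∀ k, (q k : 𝓞 L) ∈ J k) →
    (∀ k, Ideal.absNorm (J k) = q k ^ 2) → (∀ k, J k ≤ (v k).asIdeal) →
    (∀ k, ¬ J k ≤ (v k).asIdeal ^ 2) →
    ∃ α : Fin (2 ^ m) → L, (∀ i, α i ≠ 0) ∧ (∀ i, IsSquare |Algebra.norm ℚ (α i)|) ∧
      (∀ i (w : HeightOneSpectrum (𝓞 L)), (∀ k, (q k : 𝓞 L) ∉ w.asIdeal) →
        IsSquare (w.valuation L (α i))) ∧
      ∀ i j, i ≠ j → ∀ (u : (𝓞 L)ˣ) (γ : L), α i ≠ ((u : 𝓞 L) : L) * α j * γ ^ 2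

/-- **APX.** An element with even valuations above `p` is a square times a unit above `p`.
Proof. The set `W` of the `w` with `p ∈ w.asIdeal` is finite (they divide the nonzero ideal `(p)`;
`HeightOneSpectrum` : `Ideal.finite_factors`). For `w ∈ W` there is `π_w` in `𝓞 L` with `π_w ∈ w`,
`π_w ∉ w^2` and `π_w ∉ w'` for the other `w' ∈ W` (Chinese remainder theorem,
`IsDedekindDomain.exists_forall_sub_mem_ideal` with exponents 2: `π_w ≡ ` an element of `w` not in `w^2`
modulo `w^2`, `π_w ≡ 1` modulo `w'^2`); so `w.valuation π_w = exp(-1)` and `w'.valuation π_w = 1`. If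
`w.valuation L α = s_w^2`, `s_w = exp(n_w)` (not 0 since `α ≠ 0`), put `γ = ∏_{w ∈ W} π_w^{n_w}` (integer
powers): `w.valuation γ = exp(- n_w)`. -/
def SpecAPX : Prop :=
  ∀ (L : Type) [Field L] [NumberField L] (p : ℕ) [Fact p.Prime] (α : L), α ≠ 0 →
    (∀ w : HeightOneSpectrum (𝓞 L), (p : 𝓞 L) ∈ w.asIdeal → IsSquare (w.valuation L α)) →
    ∃ γ : L, γ ≠ 0 ∧ ∀ w : HeightOneSpectrum (𝓞 L), (p : 𝓞 L) ∈ w.asIdeal →
      w.valuation L (α * γ ^ 2) = 1

/-- **DNM.** A denominator prime to `p`.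
Proof. Let `D` be the ideal of all `r` in `𝓞 L` with `r β` in `𝓞 L`; it is not zero (`β = a/b`, `b ∈ D`).
No `w` with `p ∈ w` contains `D`: write `β = a/b` with `a, b` in `𝓞 L`, `b ≠ 0`, and
`mult_w(b) ≤ mult_w(a)` (or `β = 0`); `D = {r : (b) ∣ (r a)}` contains all `r` with `mult_{w'}(r) ≥
mult_{w'}(b)` for all `w' ≠ w` (at `w` it is automatic), e.g. an element of `∏_{w' ≠ w} w'^{mult_{w'}(b)}`
which is not in `w` (the ideal `∏_{w' ≠ w} w'^{mult}`, i.e. `(b)` divided by its `w`-part, is not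
contained in `w`). So `n = absNorm D` works: `n ∈ D` (`Ideal.absNorm_mem`), so `n β` is integral; and
`p ∤ n`: otherwise `p` divides the norm of a prime factor `w` of `D`
(`Ideal.absNorm` is multiplicative; induction on the factorisation), and this norm is a power of the
prime number in `w`, so `p ∈ w` and `D ≤ w`, a contradiction. (Alternatively: `D + (p) = 𝓞 L` because no
maximal ideal contains both, so `s = 1 - p r ∈ D` for some `r`; take `n = |N s|`: `s ∣ N s`
(`Ideal.absNorm_mem` for `span {s}`), and `N s` is the determinant of `1 - p (mult. by r)`, so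
`N s ≡ 1` modulo `p`.) -/
def SpecDNM : Prop :=
  ∀ (L : Type) [Field L] [NumberField L] (p : ℕ) [Fact p.Prime] (β : L),
    (∀ w : HeightOneSpectrum (𝓞 L), (p : 𝓞 L) ∈ w.asIdeal → w.valuation L β ≤ 1) →
    ∃ n : ℕ, ¬ p ∣ n ∧ IsIntegral ℤ ((n : L) * β)

/-- **ORD.** `D'` times an integer of `L` is in `ℤ[θ]`.
Proof. `Algebra.discr_mul_isIntegral_mem_adjoin ℚ` for the power basis `P = AdjoinRoot.powerBasis` of
`L = AdjoinRoot f` (`R = ℤ`, `P.gen = θ` integral): `discr ℚ P.basis • z ∈ adjoin ℤ {θ}`. By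
`Algebra.discr_powerBasis_eq_norm` the discriminant is `(-1)^(3*2/2) N(f'(θ)) = - N(A + 3 θ^2)`
(`minpoly ℚ θ = f`), and `N(A + 3θ^2) = 4 A^3 + 27 B^2 = D'` (SpecNRM `frm` with `x = A`, `y = 0`, `z = 3`,
COO for the coordinates). An element of `adjoin ℤ {θ}` is `a + bθ + cθ^2` with integers `a, b, c`: the set of
these elements is closed under addition and multiplication by SpecCOO (`add`, `mul`) and contains `θ` and
the integers (`Algebra.adjoin_induction`). The sign does not matter. -/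
def SpecORD : Prop :=
  ∀ (A B : ℤ) [Fact (Irreducible (fpol ℚ A B))] (z : Lk ℚ A B), IsIntegral ℤ z →
    ∃ a b c : ℤ, (dsc A B : Lk ℚ A B) * z = el A B (a : ℚ) (b : ℚ) (c : ℚ)

/-- **EVU.** From even valuations above `p` to a unit class at `p`.
Proof. APX gives `γ`; put `β = α γ^2`. DNM for `β` and for `β⁻¹` (their valuations above `p` are 1):
`n β` and `n' β⁻¹` are integral, `p ∤ n n'`. By ORD `D' n β = a + bθ + cθ^2` with `a, b, c` in `ℤ`, and `N = D' n`
is an integer not divisible by `p`, so a unit in `ℤ_[p]`; let `h = el (a/N) (b/N) (c/N)` in `Lk ℤ_[p] A B`: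
`upr (algebraMap ℤ_[p] ℚ_[p]) h = up A B ℚ_[p] β` (COO: `upv`, and `β = el (a/N) (b/N) (c/N)` over `ℚ`,
because `N β = el a b c`). Similarly `h'` for `β⁻¹`. `h h' = 1` because the images in `Lk ℚ_[p] A B`
are inverse to each other and `upr` is injective (COO `inj`). So `h` is a unit. Take `g = up A B ℚ_[p] γ`,
a unit because `γ ≠ 0` in the field `L`: `up α * g^2 = up β = upr h`. -/
def SpecEVU : Prop :=
  ∀ (A B : ℤ) [Fact (Irreducible (fpol ℚ A B))] (p : ℕ) [Fact p.Prime] (α : Lk ℚ A B), α ≠ 0 →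
    ¬ (p : ℤ) ∣ dsc A B →
    (∀ w : HeightOneSpectrum (𝓞 (Lk ℚ A B)), (p : 𝓞 (Lk ℚ A B)) ∈ w.asIdeal →
      IsSquare (w.valuation (Lk ℚ A B) α)) →
    Ev p (up A B ℚ_[p] α)

end Pool.Agent.Lib.MP_8cb858_nt.PR
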