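import Pool.Agent.Lib.MP_8cb858_nt.PF.RF.All

/-!
# Specs, block DN: the density of the family (`SpecDEN`)

Every Spec is a closed proposition with a complete proof in its doc string. `U = X^(1/3)`,
`V = X^(1/2)`, so `Ht X` is the set of the `(a,b)` with `|a| ≤ U`, `|b| ≤ V`, and `U V = X^(5/6)`.
-/

namespace Pool.Agent.Lib.MP_8cb858_nt.PR

open scoped Classical

/-- The pairs `(a,b)` with `0 < a ≤ U`, `|b| ≤ V` and classes modulo `M` in `R`. -/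
def Bxx (M : ℕ) (R : Set (ZMod M × ZMod M)) (U V : ℝ) : Set (ℤ × ℤ) :=
  {q | 0 < q.1 ∧ (q.1 : ℝ) ≤ U ∧ |(q.2 : ℝ)| ≤ V ∧ ((q.1 : ZMod M), (q.2 : ZMod M)) ∈ R}

/-- **DNB.** Counting in boxes.
Proof. For a class `(r,s)` in `R` the number of `a ≡ r` mod `M` with `0 < a ≤ U` is between `U/M - 1` and
`U/M + 1`, the number of `b ≡ s` with `|b| ≤ V` between `2V/M - 1` and `2V/M + 1`
(write `a = r + M x`; integers in an interval). Sum over the classes in `R`. -/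
def SpecDNB : Prop :=
  ∀ (M : ℕ) (R : Set (ZMod M × ZMod M)) (U V : ℝ), 0 < M → 0 ≤ U → 0 ≤ V →
    (Bxx M R U V).Finite ∧
    ((Bxx M R U V).ncard : ℝ) ≤ R.ncard * ((U / M + 1) * (2 * V / M + 1)) ∧
    ((M : ℝ) ≤ U → (M : ℝ) ≤ V →
      R.ncard * ((U / M - 1) * (2 * V / M - 1)) ≤ ((Bxx M R U V).ncard : ℝ))

/-- The pairs of classes modulo `∏ m i` whose reductions modulo `m i` are in `R i`. -/
def CR (s : Finset ℕ) (m : ℕ → ℕ) (R : ∀ i : ℕ, Set (ZMod (m i) × ZMod (m i))) :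
    Set (ZMod (∏ i ∈ s, m i) × ZMod (∏ i ∈ s, m i)) :=
  {q | ∀ i ∈ s, ((q.1.val : ZMod (m i)), (q.2.val : ZMod (m i))) ∈ R i}

/-- **DNC.** Chinese remainder theorem for pairs.
Proof. Second part: `m i` divides the product, so `((a : ZMod M).val : ZMod (m i)) = a`
(`ZMod.natCast_val`, `ZMod.cast_intCast`). First part: by induction on `s` (`Finset.induction_on`) with
`ZMod.chineseRemainder`, or: the map `q ↦ (reductions)_i` from `CR` to the product of the `R i` is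
bijective (injective: coprime moduli; surjective: `Nat.chineseRemainderOfFinset` / `ZMod.prodEquivPi`). -/
def SpecDNC : Prop :=
  ∀ (s : Finset ℕ) (m : ℕ → ℕ) (R : ∀ i : ℕ, Set (ZMod (m i) × ZMod (m i))),
    (∀ i ∈ s, 0 < m i) → (∀ i ∈ s, ∀ j ∈ s, i ≠ j → (m i).Coprime (m j)) →
    (CR s m R).ncard = ∏ i ∈ s, (R i).ncard ∧
    ∀ a b : ℤ, (((a : ZMod (∏ i ∈ s, m i)), (b : ZMod (∏ i ∈ s, m i))) ∈ CR s m R ↔
      ∀ i ∈ s, ((a : ZMod (m i)), (b : ZMod (m i))) ∈ R i)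

/-- **DNQ.** The number of `(a,b)` mod `p` with nonsquare discriminant.
Proof. For a root `t`: `b = -t^3-at`, `-(4a^3+27b^2) = -(3t^2+a)^2 (3t^2+4a)`. So `(t,v) ↦ (a, b)`,
`a = -(v+3t^2)/4`, `b = -t^3-at`, for `t` arbitrary and `v` a nonsquare, has `3t^2+a = (9t^2-v)/4 ≠ 0` and
maps to the set. It is surjective because every `(a,b)` in the set has a root (RTXM.square_of_no_root of
RTX, or FRT), and injective because the root is unique: another root `s` would give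
`(2s+t)^2 = -(3t^2+4a) = v`. So the number is `p (p-1)/2` (there are `(p-1)/2` nonsquares). -/
def SpecDNQ : Prop :=
  ∀ (p : ℕ) [Fact p.Prime], 5 ≤ p →
    2 * {q : ZMod p × ZMod p | ¬ IsSquare (-(4 * q.1 ^ 3 + 27 * q.2 ^ 2))}.ncard = p * (p - 1)

/-- **DNP.** Discriminants divisible by `p^2`.
Proof. (1) Integers: `p | a` and `p^2 | 4a^3+27b^2` give `p | 27 b^2`, `p | b`. (2) `p ∤ a`: if `b, b'` are two
solutions modulo `p^2` then `p^2 | 27(b-b')(b+b')`, and `p ∤ b` (else `p | a`); `p` cannot divide both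
`b - b'` and `b + b'` (their sum is `2b`), so `b' ≡ b` or `b' ≡ -b` mod `p^2`: at most two classes.
(3) Modulo `p^2`: at most 2 values of `b` for each of the at most `p^2` classes `a` prime to `p`, and
both `a, b` divisible by `p` otherwise (`p^2` pairs): at most `3 p^2`. -/
def SpecDNP : Prop :=
  ∀ (p : ℕ) [Fact p.Prime], 5 ≤ p →
    (∀ a b : ℤ, (p : ℤ) ∣ a → (p : ℤ) ^ 2 ∣ dsc a b → (p : ℤ) ∣ b) ∧
    (∀ a : ℤ, ¬ (p : ℤ) ∣ a → ∃ r s : ℤ, ∀ b : ℤ, (p : ℤ) ^ 2 ∣ dsc a b →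
      (p : ℤ) ^ 2 ∣ b - r ∨ (p : ℤ) ^ 2 ∣ b - s) ∧
    {q : ZMod (p ^ 2) × ZMod (p ^ 2) | 4 * q.1 ^ 3 + 27 * q.2 ^ 2 = 0}.ncard ≤ 3 * p ^ 2

/-- **DNX.** A product. Proof. All factors are in `(0,1)`, so enlarge `s` to `{5, …, n}`;
`1 - 4/j^2 = (j-2)(j+2)/j^2`, and by induction the product over `j = 5, …, n` is
`(12/30) ((n+1)(n+2))/((n-1) n) ≥ 2/5`. -/
def SpecDNX : Prop :=
  ∀ s : Finset ℕ, (∀ j ∈ s, 5 ≤ j) → (2 / 5 : ℝ) ≤ ∏ j ∈ s, (1 - 4 / (j : ℝ) ^ 2)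

/-- **DNT.** The tail of the squarefree sieve.
Proof. `q = (a,b)` in the set, `0 < a`: `0 < dsc ≤ 31 X`, so `p ≤ 6 V`. (i) `p ∤ a`: for each `a` in `(0,U]` and
each prime `z < p ≤ 6V` at most `2 (2V/p^2 + 1)` values `b` (DNP (2), two classes modulo `p^2`). Sum:
`≤ U (4 V sum_{n > z} 1/n^2 + 2 π(6V)) ≤ 4UV/z + 2 U π(6V)`, and `π(6V) = o(V)`
(`Chebyshev.eventually_primeCounting_le` in Mathlib/NumberTheory/Chebyshev). (ii) `p | a`, so `p | b` (DNP (1)):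
`z < p ≤ U`, at most `U/p` values `a` and `2V/p + 1` values `b`: sum
`≤ 2UV sum_{n > z} 1/n^2 + U * U ≤ 2UV/z + X^(2/3)`. Total `≤ 6 UV/z + o(UV)`. (If convenient first bound
the set by a finite union over `p` in `Finset.Ioc z ⌊6V⌋`.) -/
def SpecDNT : Prop :=
  ∀ (z : ℕ) (ε : ℝ), 5 ≤ z → 0 < ε → ∃ X0 : ℝ, ∀ X : ℝ, X0 ≤ X →
    (({q : ℤ × ℤ | 0 < q.1 ∧ q ∈ Ht X ∧ ∃ p : ℕ, p.Prime ∧ z < p ∧
      (p : ℤ) ^ 2 ∣ dsc q.1 q.2}.ncard : ℕ) : ℝ) ≤ (6 / z + ε) * X ^ (5 / 6 : ℝ)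

/-- **DNH.** The box `Ht X`. Proof. `|a|^3 ≤ X` iff `|a| ≤ X^(1/3)`, `b^2 ≤ X` iff `|b| ≤ X^(1/2)` (`X ≥ 0`; for
`X < 0` the set is empty). At most `(2U+1)(2V+1) ≤ 9 UV` for `X ≥ 1`. The last two items: comparison with
`Bxx` for `M = 1`, any `X ≥ 0`. -/
def SpecDNH : Prop :=
  (∀ X : ℝ, (Ht X).Finite) ∧
  (∀ X : ℝ, 1 ≤ X → ((Ht X).ncard : ℝ) ≤ 9 * X ^ (5 / 6 : ℝ)) ∧
  (∀ (X : ℝ) (q : ℤ × ℤ), 0 ≤ X → (q ∈ Ht X ↔ |(q.1 : ℝ)| ≤ X ^ (1 / 3 : ℝ) ∧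
    |(q.2 : ℝ)| ≤ X ^ (1 / 2 : ℝ))) ∧
  (∀ X : ℝ, 0 ≤ X → X ^ (1 / 3 : ℝ) * X ^ (1 / 2 : ℝ) = X ^ (5 / 6 : ℝ))

/-- The conditions at `2` and `3`, modulo 24. -/
def R24 : Set (ZMod 24 × ZMod 24) :=
  {q | (q.1.val % 4 = 3 ∧ q.1.val % 3 = 2) ∧ q.2.val % 8 = 1 ∧ q.2.val % 3 ≠ 0}

/-- The local conditions with index `i`: `i = 0`: modulo 24; `i` in `Q`: nonsquare discriminant;
otherwise `i^2 ∤ dsc`. -/
def mmd (Q : Finset ℕ) (i : ℕ) : ℕ := if i = 0 then 24 else if i ∈ Q then i else i ^ 2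

/-- **DNR.** The local conditions: integers `a, b` satisfy the conditions of the family at `2, 3`, at the
primes of `Q` and at the primes `5 ≤ p ≤ z` iff they are in `CR`, and `CR` has relative density
`≥ (1/360) ∏ dl p`.
Proof. `s = {0} ∪ {p prime : 5 ≤ p ≤ z} ∪ Q`, `m = mmd Q`, `R 0 = R24` (4 elements: `a ≡ 11, 23`,
`b ≡ 1, 17`), `R p` = nonsquare discriminant for `p` in `Q` (`p(p-1)/2` elements, DNQ; `/p^2 = dl p`), `R p` =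
complement of the set of DNP (3) for the others (at least `p^4 - 3p^2` elements; `/p^4 ≥ 1 - 4/p^2`). DNC:
`#CR/M^2 = (4/576) ∏_Q dl p ∏ (#R p/p^4) ≥ (1/144) (2/5) ∏_Q dl p` (DNX). The equivalence: `24 | …` for
`a % 4, a % 3, b % 8, b % 3`; `(p : ℤ)^2 ∣ dsc a b` iff it is zero in `ZMod (p^2)`; for `p` in `Q` the
condition `p^2 ∤ dsc` follows from `-dsc` being a nonsquare modulo `p` (0 is a square). -/
def SpecDNR : Prop :=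
  ∀ (Q : Finset ℕ) (z : ℕ), (∀ p ∈ Q, p.Prime ∧ 5 ≤ p) →
    ∃ (M : ℕ) (R : Set (ZMod M × ZMod M)), 0 < M ∧
      (1 / 360 : ℝ) * (∏ p ∈ Q, dl p) * (M : ℝ) ^ 2 ≤ (R.ncard : ℝ) ∧
      ∀ a b : ℤ, ((a : ZMod M), (b : ZMod M)) ∈ R →
        a % 4 = 3 ∧ b % 8 = 1 ∧ a % 3 = 2 ∧ b % 3 ≠ 0 ∧
        (∀ p : ℕ, p.Prime → 5 ≤ p → p ≤ z → ¬ ((p : ℤ) ^ 2 ∣ dsc a b)) ∧
        ∀ p ∈ Q, ¬ IsSquare ((-dsc a b : ℤ) : ZMod p) ∧ ¬ ((p : ℤ) ^ 2 ∣ dsc a b)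

/-- **DNL.** Lower bound. `c = 1/2880`.
Proof. `δ = (1/360) ∏ dl p > 0`. Choose `z` with `6/z ≤ δ/16`, `z ≥ 5`, `ε = δ/16`; `M, R` from DNR. For `X` large
(`U, V ≥ 2M`), DNB gives at least `#R (U/M-1)(2V/M-1) ≥ #R (U/2M)(V/M) = #R UV/(2M^2) ≥ (δ/2) X^(5/6)` elements of
`Bxx`. An element of `Bxx M R U V` (in `Ht X` by DNH) which is not in the set of DNT is in `Fam Q`. So
`#(Fam Q ∩ Ht X) ≥ (δ/2 - δ/8) X^(5/6)` (finite sets: DNH). -/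
def SpecDNL : Prop :=
  ∃ c : ℝ, 0 < c ∧ ∀ Q : Finset ℕ, (∀ p ∈ Q, p.Prime ∧ 5 ≤ p) → ∃ X0 : ℝ, ∀ X : ℝ, X0 ≤ X →
    c * (∏ p ∈ Q, dl p) * X ^ (5 / 6 : ℝ) ≤ ((Fam Q ∩ Ht X).ncard : ℝ)

/-- **DNU.** Upper bound in an annulus.
Proof. `N = ∏_{Q} p`, `R = CR Q id (nonsquare discriminant)`, `#R = ∏ p(p-1)/2 = N^2 ∏ dl p` (DNC, DNQ; as
`ZMod N`). An element of `Fam Q ∩ (Ht (lX) \ Ht X)` lies in `Bxx N R U' V'` and not in `Bxx N R U V`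
(`U' = (lX)^(1/3)`, `V' = (lX)^(1/2)`; DNH), and `Bxx N R U V ⊆ Bxx N R U' V'`. By DNB the number is at most
`#R ((U'/N+1)(2V'/N+1) - (U/N-1)(2V/N-1)) = (#R/N^2) (2U'V' - 2UV + N (U'+2V'+U+2V))`, for `U ≥ N`. `U'V' - UV =
(l^(5/6) - 1) X^(5/6) ≤ (l-1) X^(5/6)`, and `N (U'+2V'+U+2V) ≤ 12 N V ≤ ε X^(5/6)` for large `X`. `C = 2`. -/
def SpecDNU : Prop :=
  ∃ C : ℝ, 0 < C ∧ ∀ Q : Finset ℕ, (∀ p ∈ Q, p.Prime ∧ 5 ≤ p) → ∀ ε l : ℝ, 0 < ε → 1 ≤ l → l ≤ 2 →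
    ∃ X0 : ℝ, ∀ X : ℝ, X0 ≤ X → ((Fam Q ∩ (Ht (l * X) \ Ht X)).ncard : ℝ) ≤
      (C * (l - 1) + ε) * (∏ p ∈ Q, dl p) * X ^ (5 / 6 : ℝ)

/-- `SpecDEN` is the conjunction of DNH (1), (2), DNL and DNU. -/
theorem specDEN (h1 : SpecDNH) (h2 : SpecDNL) (h3 : SpecDNU) : SpecDEN :=
  ⟨h1.1, ⟨9, h1.2.1⟩, h2, h3⟩

end Pool.Agent.Lib.MP_8cb858_nt.PR
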